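import Pool.Agent.H4.KS6.ZTI
import Pool.Agent.H96.PZ.Defs
import Pool.Agent.H89.ZCL.Tail

/-!
# The zoomed point and the box

`zv F w C g` is the position in the coordinates, magnified by `2 ^ w`. Given the label of the box
and the time, it is the position in the box up to a translation.
-/

set_option autoImplicit false

namespace Pool.ZT

open Finset Real
open Pool.Agent.H49.Ent Pool.Agent.H32.Dense Pool.STK Pool.KA Pool.KSAT Pool.K2S Pool.PB Pool.KS6
open Pool.ZCL Pool.PZ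

section box

variable {m J : ℕ} {κ : Type}

/-- The zoomed point. -/
noncomputable def zv (F : Fam m J) (w : ℕ) (C : Crd m κ) (g : F.Ω → κ) (ω : F.Ω) : Fin m → ℝ :=
  fun i => 2 ^ w * C.L (g ω) (F.x ω) i

theorem W_det (F : Fam m J) {ω ω' : F.Ω} (h : F.W ω = F.W ω') :
    F.T ω = F.T ω' ∧ F.Z ω = F.Z ω' := Prod.ext_iff.1 h

/-- The zoomed point in the box. -/
theorem zv_sub (F : Fam m J) {w : ℕ} (hw : w ≤ J) (C : Crd m κ) (g : F.Ω → κ) {ω ω' : F.Ω}
    (h : F.blab w C g ω = F.blab w C g ω') (hT : F.T ω = F.T ω') (i : Fin m) :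
    zv F w C g ω i - zv F w C g ω' i = (F.box w C g).x ω i - (F.box w C g).x ω' i := by
  have e1 := Prod.ext_iff.mp (Prod.ext_iff.mp h).1
  have e2 : F.bcl w C g ω = F.bcl w C g ω' := (Prod.ext_iff.mp e1.2).1
  have e3 : F.bvl C g ω = F.bvl C g ω' := (Prod.ext_iff.mp e1.2).2
  have e4 : (F.box w C g).t ω = (F.box w C g).t ω' := by
    change ((F.T ω % 2 ^ (J - w) : ℕ) : ℝ) / 2 ^ (J - w) =
      ((F.T ω' % 2 ^ (J - w) : ℕ) : ℝ) / 2 ^ (J - w)
    rw [hT]
  have k1 := Box.box_x F hw C g ω i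
  have k2 := Box.box_x F hw C g ω' i
  unfold zv
  rw [k1, k2, e2, e3, e4]
  ring

theorem box_mem (F : Fam m J) (w : ℕ) (C : Crd m κ) (g : F.Ω → κ) (ω : F.Ω) (i : Fin m) :
    0 ≤ (F.box w C g).x ω i ∧ (F.box w C g).x ω i ≤ 2 := by
  have h1 := Box.u_mem F w C g ω i
  have h2 := Box.d_mem F w C g ω i
  have h3 := Box.t_mem F w C g ω
  have e : (F.box w C g).x ω i = (F.box w C g).u ω i +
    (F.box w C g).t ω * (F.box w C g).d ω i := rfl
  have h4 : 0 ≤ (F.box w C g).t ω * (F.box w C g).d ω i := mul_nonneg h3.1 h2.1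
  have h5 : (F.box w C g).t ω * (F.box w C g).d ω i ≤ 1 := by nlinarith [h3.1, h3.2, h2.1, h2.2]
  rw [e]
  constructor <;> linarith [h1.1, h1.2]

/-- The zoomed point is bounded in the box. -/
theorem zv_bd (F : Fam m J) {w : ℕ} (hw : w ≤ J) (C : Crd m κ) (g : F.Ω → κ) {ω ω' : F.Ω}
    (h : F.blab w C g ω = F.blab w C g ω') (hT : F.T ω = F.T ω') (i : Fin m) :
    |zv F w C g ω i - zv F w C g ω' i| ≤ 2 := by
  rw [zv_sub F hw C g h hT i]
  have h1 := box_mem F w C g ω i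
  have h2 := box_mem F w C g ω' i
  rw [abs_le]
  constructor <;> linarith [h1.1, h1.2, h2.1, h2.2]

/-- The rows of the box and the rows of the zoomed point. -/
theorem box_row (F : Fam m J) {w J' P : ℕ} (hw : w ≤ J) (C : Crd m κ) (g : F.Ω → κ) :
    CH F.p ((F.box w C g).X J')
        (fun ω => ((F.box w C g).X P ω, (F.T ω, F.blab w C g ω))) ≤
      CH F.p (fun ω => fl J' (zv F w C g ω))
        (fun ω => (fl P (zv F w C g ω), (F.blab w C g ω, F.W ω))) + 2 * (m * Real.log 5) := by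
  have h0 := F.isLaw.nonneg
  obtain ⟨W', hW'⟩ : ∃ W', W' = fun ω => (F.T ω, F.blab w C g ω) := ⟨_, rfl⟩
  suffices main : CH F.p ((F.box w C g).X J') (fun ω => ((F.box w C g).X P ω, W' ω)) ≤
      CH F.p (fun ω => fl J' (zv F w C g ω))
        (fun ω => (fl P (zv F w C g ω), (F.blab w C g ω, F.W ω))) + 2 * (m * Real.log 5) by
    rw [hW'] at main
    exact main
  have hd : ∀ ω ω', W' ω = W' ω' → ∀ i, zv F w C g ω i - zv F w C g ω' i =
      (F.box w C g).x ω i - (F.box w C g).x ω' i := by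
    intro ω ω' hh i
    rw [hW'] at hh
    have a := Prod.ext_iff.1 hh
    exact zv_sub F hw C g a.2 a.1 i
  have b1 : CH F.p ((F.box w C g).X J')
      (fun ω => (fl J' (zv F w C g ω), ((F.box w C g).X P ω, W' ω))) ≤ m * Real.log 5 := by
    have key := ENP.CH_fl F.isLaw J' (F.box w C g).x
      (fun ω => (fl J' (zv F w C g ω), ((F.box w C g).X P ω, W' ω))) 1
      (fun ω ω' _ _ hh i => by
        have c0 := Prod.ext_iff.1 hh
        have c1 := Prod.ext_iff.1 c0.2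
        have c2 : |zv F w C g ω i - zv F w C g ω' i| ≤ 1 / 2 ^ J' := floor_close (congrFun c0.1 i)
        rwa [hd ω ω' c1.2 i] at c2)
    have e : (2 : ℝ) * 1 + 3 = 5 := by norm_num
    rw [e] at key
    exact key
  have b2 : CH F.p (fun ω => fl P (zv F w C g ω))
      (fun ω => ((F.box w C g).X P ω, W' ω)) ≤ m * Real.log 5 := by
    have key := ENP.CH_fl F.isLaw P (zv F w C g)
      (fun ω => ((F.box w C g).X P ω, W' ω)) 1
      (fun ω ω' _ _ hh i => by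
        have c0 := Prod.ext_iff.1 hh
        have c2 : |(F.box w C g).x ω i - (F.box w C g).x ω' i| ≤ 1 / 2 ^ P :=
          floor_close (congrFun c0.1 i)
        rwa [← hd ω ω' c0.2 i] at c2)
    have e : (2 : ℝ) * 1 + 3 = 5 := by norm_num
    rw [e] at key
    exact key
  have a1 := CH_le_add h0 ((F.box w C g).X J') (fun ω => fl J' (zv F w C g ω))
    (fun ω => ((F.box w C g).X P ω, W' ω))
  have a2 := CH_le_add h0 (fun ω => fl J' (zv F w C g ω)) (fun ω => fl P (zv F w C g ω))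
    (fun ω => ((F.box w C g).X P ω, W' ω))
  have a3 : CH F.p (fun ω => fl J' (zv F w C g ω))
      (fun ω => (fl P (zv F w C g ω), ((F.box w C g).X P ω, W' ω))) ≤
      CH F.p (fun ω => fl J' (zv F w C g ω))
        (fun ω => (fl P (zv F w C g ω), (F.blab w C g ω, F.W ω))) :=
    CH_mono_cond h0 fun ω ω' _ _ hh => by
      have c0 := Prod.ext_iff.1 hh
      have c1 := Prod.ext_iff.1 c0.2
      have c2 : W' ω = W' ω' := c1.2
      rw [hW'] at c2
      have c3 := Prod.ext_iff.1 c2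
      have c4 : F.Z ω = F.Z ω' := (Prod.ext_iff.1 c3.2).2
      exact Prod.ext c0.1 (Prod.ext c3.2 (Prod.ext c3.1 c4))
  linarith

/-- **The rows of the zoom** and the rows of the zoomed point. -/
theorem zm_row (F : Fam m J) {w J' P : ℕ} (h : w + J' ≤ J) (hP : P ≤ J') (C : Crd m κ)
    (g : F.Ω → κ) (hg : Det F.p (wnd F w) g) {e : ℝ} (hTm : F.Tm e) :
    CH F.p ((F.zm w J' h C g).X J')
        (fun ω => ((F.zm w J' h C g).X P ω, (F.zm w J' h C g).W ω)) ≤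
      CH F.p (fun ω => fl J' (zv F w C g ω))
        (fun ω => (fl P (zv F w C g ω), (F.blab w C g ω, F.W ω))) +
      (e + 2 * (m * Real.log 17) + 2 * (m * Real.log 5)) := by
  have t1 := rnd_time F (P := P) h C g hg hTm (by omega)
  have t2 := rnd_row (F.box w C g) (by omega : J' ≤ J - w) hP (fun ω => (F.T ω, F.blab w C g ω))
  have t3 := box_row F (w := w) (J' := J') (P := P) (by omega) C g
  have t4 : CH F.p ((F.zm w J' h C g).X J')
        (fun ω => ((F.zm w J' h C g).X P ω, (F.zm w J' h C g).W ω)) ≤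
      CH F.p ((F.box w C g).X J')
        (fun ω => ((F.box w C g).X P ω, (F.T ω, F.blab w C g ω))) +
        2 * (m * Real.log 17) + e := t1.trans (add_le_add t2 le_rfl)
  linarith

/-- The number of the rows of the zoomed point. -/
theorem zv_size (F : Fam m J) {q : F.Ω → ℝ} (hq : IsLaw q) {w : ℕ} (hw : w ≤ J) (C : Crd m κ)
    (g : F.Ω → κ) (Y : ℕ) : CH q (fun ω => fl Y (zv F w C g ω))
      (fun ω => (F.blab w C g ω, F.W ω)) ≤ m * (Y + 3) := by
  have key := ENP.CH_fl hq Y (zv F w C g) (fun ω => (F.blab w C g ω, F.W ω)) (2 * 2 ^ Y)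
    (fun ω ω' _ _ hh i => by
      have c0 := Prod.ext_iff.1 hh
      have c1 := zv_bd F hw C g c0.1 (W_det F c0.2).1 i
      rw [mul_div_cancel_right₀ _ (by positivity)]
      exact c1)
  refine key.trans (mul_le_mul_of_nonneg_left ?_ (Nat.cast_nonneg m))
  have h1 : (1 : ℝ) ≤ 2 ^ Y := one_le_pow₀ (by norm_num)
  have h2 : Real.log (2 * (2 * 2 ^ Y) + 3) ≤ Real.log (2 ^ (Y + 3)) := by
    refine Real.log_le_log (by positivity) ?_
    rw [pow_add]
    linarith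
  rw [Real.log_pow] at h2
  have h3 : Real.log 2 ≤ 1 := by
    have := Real.log_two_lt_d9
    linarith
  have h4 : (0 : ℝ) ≤ ((Y + 3 : ℕ) : ℝ) := Nat.cast_nonneg _
  have h5 : ((Y + 3 : ℕ) : ℝ) * Real.log 2 ≤ ((Y + 3 : ℕ) : ℝ) := by nlinarith
  push_cast at h2 h5
  linarith

end box

/-! ### The box of a plank label -/

section plank

variable {J : ℕ} {F : Fam 3 J} {q : F.Ω → ℝ} {i0 iu iN : Fin 3} {r w lam P : ℕ}
  {y : F.Ω → Pln} {A : F.Ω → Prop}

theorem pkC_i0 (lam n : ℕ) (i0 iu : Fin 3) (k : Fr) (x : Fin 3 → ℝ) :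
    (pkC lam n i0 iu).L k x i0 = x i0 := by
  change (if i0 = i0 then x i0 else _) = x i0
  rw [if_pos rfl]

theorem pkC_iu (lam n : ℕ) {i0 iu : Fin 3} (h : iu ≠ i0) (k : Fr) (x : Fin 3 → ℝ) :
    (pkC lam n i0 iu).L k x iu = 2 ^ lam * fu i0 iu k.1 x := by
  change (if iu = i0 then x i0 else if iu = iu then _ else _) = _
  rw [if_neg h, if_pos rfl]
  rfl

theorem pkC_iN (lam n : ℕ) {i0 iu iN : Fin 3} (h : iN ≠ i0) (h' : iN ≠ iu) (k : Fr)
    (x : Fin 3 → ℝ) :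
    (pkC lam n i0 iu).L k x iN = 2 ^ n * fn i0 iu iN k.2.1 k.2.2 x := by
  change (if iN = i0 then x i0 else if iN = iu then _ else _) = _
  rw [if_neg h, if_neg h']
  rfl

/-- The coordinates of the frame of the label. -/
noncomputable abbrev pC (i0 iu : Fin 3) (w lam P : ℕ) : Crd 3 Fr := pkC lam (P - w) i0 iu

/-- The label of the box. -/
noncomputable abbrev pB (F : Fam 3 J) (i0 iu : Fin 3) (w lam P : ℕ) (y : F.Ω → Pln) (ω : F.Ω) :
    ((ℕ × Fr) × ((Fin 3 → ℤ) × (Fin 3 → ℤ))) × F.ζ :=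
  F.blab w (pC i0 iu w lam P) (fun ω => fr (y ω)) ω

/-- The zoomed point. -/
noncomputable abbrev zpv (F : Fam 3 J) (i0 iu : Fin 3) (w lam P : ℕ) (y : F.Ω → Pln) (ω : F.Ω) :
    Fin 3 → ℝ := zv F w (pC i0 iu w lam P) (fun ω => fr (y ω)) ω

theorem pB_fr {ω ω' : F.Ω} (h : pB F i0 iu w lam P y ω = pB F i0 iu w lam P y ω') :
    fr (y ω) = fr (y ω') := (Prod.ext_iff.mp (Prod.ext_iff.mp (Prod.ext_iff.mp h).1).1).2

theorem zp_i0 (ω : F.Ω) : zpv F i0 iu w lam P y ω i0 = 2 ^ w * F.x ω i0 := by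
  change 2 ^ w * (pC i0 iu w lam P).L (fr (y ω)) (F.x ω) i0 = _
  rw [pkC_i0]

theorem zp_iu (h : iu ≠ i0) (ω : F.Ω) :
    zpv F i0 iu w lam P y ω iu = 2 ^ (w + lam) * fu i0 iu (y ω).e (F.x ω) := by
  change 2 ^ w * (pC i0 iu w lam P).L (fr (y ω)) (F.x ω) iu = _
  rw [pkC_iu _ _ h, ← mul_assoc, ← pow_add]
  rfl

theorem zp_iN (h : iN ≠ i0) (h' : iN ≠ iu) (hP : w ≤ P) (ω : F.Ω) :
    zpv F i0 iu w lam P y ω iN = 2 ^ P * fn i0 iu iN (y ω).c (y ω).s (F.x ω) := by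
  change 2 ^ w * (pC i0 iu w lam P).L (fr (y ω)) (F.x ω) iN = _
  rw [pkC_iN _ _ h h', ← mul_assoc, ← pow_add]
  have e : w + (P - w) = P := by omega
  rw [e]
  rfl

theorem frs {y y' : Pln} (h : fr y = fr y') : y.e = y'.e ∧ y.c = y'.c ∧ y.s = y'.s := by
  have h1 := Prod.ext_iff.1 h
  have h2 := Prod.ext_iff.1 h1.2
  exact ⟨h1.1, h2.1, h2.2⟩

/-- Differences of the zoomed point. -/
theorem zp_sub (hi : ∀ j : Fin 3, j = i0 ∨ j = iu ∨ j = iN) (hP : w ≤ P) {ω ω' : F.Ω}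
    (h : pB F i0 iu w lam P y ω = pB F i0 iu w lam P y ω') :
    |zpv F i0 iu w lam P y ω i0 - zpv F i0 iu w lam P y ω' i0| =
      2 ^ w * |F.x ω i0 - F.x ω' i0| ∧
    |zpv F i0 iu w lam P y ω iu - zpv F i0 iu w lam P y ω' iu| =
      2 ^ (w + lam) * |fu i0 iu (y ω).e (F.x ω) - fu i0 iu (y ω).e (F.x ω')| ∧
    |zpv F i0 iu w lam P y ω iN - zpv F i0 iu w lam P y ω' iN| =
      2 ^ P * |fn i0 iu iN (y ω).c (y ω).s (F.x ω) - fn i0 iu iN (y ω).c (y ω).s (F.x ω')| := by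
  obtain ⟨h1, h2, h3⟩ := three hi
  obtain ⟨f1, f2, f3⟩ := frs (pB_fr h)
  refine ⟨?_, ?_, ?_⟩
  · rw [zp_i0, zp_i0, ← mul_sub, abs_mul, abs_of_pos (by positivity : (0 : ℝ) < 2 ^ w)]
  · rw [zp_iu h1, zp_iu h1, ← f1, ← mul_sub, abs_mul,
      abs_of_pos (by positivity : (0 : ℝ) < 2 ^ (w + lam))]
  · rw [zp_iN h2 h3 hP, zp_iN h2 h3 hP, ← f2, ← f3, ← mul_sub, abs_mul,
      abs_of_pos (by positivity : (0 : ℝ) < 2 ^ P)]

/-- Coarser patches. -/
theorem pat_mono {S : Type} {z : F.Ω → S} {e c s : F.Ω → ℝ} {r U P r' U' P' : ℕ}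
    {B C B' C' : ℝ} (h : Pat F q i0 iu iN z e c s r U P B C) (hB : B ≤ B') (hC : C ≤ C')
    (hC0 : 0 ≤ C) (hr : r' ≤ r) (hU : U' ≤ U) (hP : P' ≤ P) :
    Pat F q i0 iu iN z e c s r' U' P' B' C' := by
  have key : ∀ {a b : ℕ}, b ≤ a → C / (2 : ℝ) ^ a ≤ C' / 2 ^ b := fun {a b} hab =>
    div_le_div₀ (hC0.trans hC) hC (by positivity) (pow_le_pow_right₀ (by norm_num) hab)
  exact ⟨fun ω hω => ⟨(h.bd ω hω).1.trans hB, (h.bd ω hω).2.1.trans hB,
    (h.bd ω hω).2.2.trans hB⟩, h.fr, fun ω ω' hω hω' hz hW =>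
    ⟨(h.nr ω ω' hω hω' hz hW).1.trans (key hr), (h.nr ω ω' hω hω' hz hW).2.1.trans (key hU),
      (h.nr ω ω' hω hω' hz hW).2.2.trans (key hP)⟩⟩

/-- The label of the box is a patch. -/
theorem pat_box (hi : ∀ j : Fin 3, j = i0 ∨ j = iu ∨ j = iN) (hwJ : w ≤ J) (hP : w ≤ P)
    {C : ℝ} (h : ∀ ω, 0 < q ω → Inc i0 iu iN w lam P C (y ω) (F.t ω) (F.x ω) (F.d ω)) :
    Pat F q i0 iu iN (pB F i0 iu w lam P y) (fun ω => (y ω).e) (fun ω => (y ω).c)
      (fun ω => (y ω).s) w (w + lam) P 4 4 where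
  bd := fun ω hω => ⟨(h ω hω).e_le.trans (by norm_num), (h ω hω).c_le, (h ω hω).s_le⟩
  fr := fun ω ω' _ _ hy _ => frs (pB_fr hy)
  nr := fun ω ω' _ _ hy hW => by
    have hT := (W_det F hW).1
    have b0 := zv_bd F hwJ (pC i0 iu w lam P) (fun ω => fr (y ω)) hy hT
    obtain ⟨e1, e2, e3⟩ := zp_sub hi hP hy
    have key : ∀ {k : ℕ} {a b : ℝ}, a = 2 ^ k * b → a ≤ 2 → b ≤ 4 / 2 ^ k := by
      intro k a b h1 h2
      rw [le_div_iff₀ (by positivity)]
      rw [h1] at h2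
      linarith
    exact ⟨key e1 (b0 i0), key e2 (b0 iu), key e3 (b0 iN)⟩

/-- The zoomed point of the box. -/
theorem zpt_box (hi : ∀ j : Fin 3, j = i0 ∨ j = iu ∨ j = iN) (hP : w ≤ P) :
    Zpt F q i0 iu iN i0 iu iN (pB F i0 iu w lam P y) (fun ω => (y ω).e) (fun ω => (y ω).c)
      (fun ω => (y ω).s) w (w + lam) P 4 (zpv F i0 iu w lam P y) where
  lo := fun ω ω' _ _ hy _ => by
    obtain ⟨e1, -, -⟩ := zp_sub hi hP hy
    rw [← e1]
    have := abs_nonneg (zpv F i0 iu w lam P y ω i0 - zpv F i0 iu w lam P y ω' i0)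
    linarith
  up := fun ω ω' _ _ hy _ => by
    obtain ⟨e1, e2, e3⟩ := zp_sub hi hP hy
    rw [← e1, ← e2, ← e3]
    have a1 := abs_nonneg (zpv F i0 iu w lam P y ω i0 - zpv F i0 iu w lam P y ω' i0)
    have a2 := abs_nonneg (zpv F i0 iu w lam P y ω iu - zpv F i0 iu w lam P y ω' iu)
    have a3 := abs_nonneg (zpv F i0 iu w lam P y ω iN - zpv F i0 iu w lam P y ω' iN)
    refine ⟨?_, ?_, ?_⟩ <;> linarith

/-- The label of the box is a function of the plank label, up to a bounded number of values. -/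
theorem box_of_lab (hq : IsLaw q) (hi : ∀ j : Fin 3, j = i0 ∨ j = iu ∨ j = iN) (hwJ : w ≤ J)
    (hP : w ≤ P)
    (h : ∀ ω, 0 < q ω → Inc i0 iu iN w lam P 20 (y ω) (F.t ω) (F.x ω) (F.d ω)) :
    CH q (pB F i0 iu w lam P y) (fun ω => (y ω, F.W ω)) ≤ 6 * Real.log 163 := by
  obtain ⟨hi1, hi2, hi3⟩ := three hi
  obtain ⟨C, hC⟩ : ∃ C, C = pC i0 iu w lam P := ⟨_, rfl⟩
  have tri : ∀ {x x' c r : ℝ}, |x - c| ≤ r → |x' - c| ≤ r → |x - x'| ≤ 2 * r := by
    intro x x' c r h1 h2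
    rw [abs_le] at h1 h2 ⊢
    constructor <;> linarith [h1.1, h1.2, h2.1, h2.2]
  have cases : ∀ {Q : Fin 3 → Prop}, Q i0 → Q iu → Q iN → ∀ i, Q i := by
    intro Q h1 h2 h3 i
    rcases hi i with rfl | rfl | rfl
    · exact h1
    · exact h2
    · exact h3
  have p : ∀ k : ℕ, (0 : ℝ) < 2 ^ k := fun k => by positivity
  have ePw : (2 : ℝ) ^ P = 2 ^ w * 2 ^ (P - w) := by
    rw [← pow_add]
    congr 1
    omega
  -- the velocities
  have hd : ∀ ω ω', 0 < q ω → 0 < q ω' → y ω = y ω' → ∀ i,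
      |C.L (fr (y ω)) (F.d ω) i - C.L (fr (y ω')) (F.d ω') i| ≤ 40 := by
    intro ω ω' hω hω' hy
    have a := h ω hω
    have b := h ω' hω'
    rw [← hy] at b ⊢
    rw [hC]
    refine cases ?_ ?_ ?_
    · rw [pkC_i0, pkC_i0]
      have := tri a.ve b.ve
      linarith
    · rw [pkC_iu _ _ hi1, pkC_iu _ _ hi1, ← mul_sub, abs_mul, abs_of_pos (p lam)]
      have h1 := tri a.vu b.vu
      have h2 : (2 : ℝ) * (20 / 2 ^ lam) = 40 / 2 ^ lam := by ring
      rw [h2, le_div_iff₀ (p lam)] at h1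
      change 2 ^ lam * |fu i0 iu (y ω).e (F.d ω) - fu i0 iu (y ω).e (F.d ω')| ≤ 40
      linarith
    · rw [pkC_iN _ _ hi2 hi3, pkC_iN _ _ hi2 hi3, ← mul_sub, abs_mul, abs_of_pos (p (P - w))]
      have h1 := tri a.vn b.vn
      have h2 : (2 : ℝ) * (20 * 2 ^ w / 2 ^ P) = 40 / 2 ^ (P - w) := by
        rw [ePw]
        field_simp
        norm_num
      rw [h2, le_div_iff₀ (p (P - w))] at h1
      change 2 ^ (P - w) * |fn i0 iu iN (y ω).c (y ω).s (F.d ω) -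
        fn i0 iu iN (y ω).c (y ω).s (F.d ω')| ≤ 40
      linarith
  -- the positions
  have hx : ∀ ω ω', 0 < q ω → 0 < q ω' → y ω = y ω' → F.W ω = F.W ω' → ∀ i,
      |2 ^ w * C.L (fr (y ω)) (F.x ω) i - 2 ^ w * C.L (fr (y ω')) (F.x ω') i| ≤ 40 := by
    intro ω ω' hω hω' hy hW
    have ht : F.t ω = F.t ω' := by
      unfold Fam.t
      rw [(W_det F hW).1]
    have a := h ω hω
    have b := h ω' hω'
    rw [← hy, ← ht] at b
    rw [← hy]
    rw [hC]
    refine cases ?_ ?_ ?_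
    · rw [pkC_i0, pkC_i0, ← mul_sub, abs_mul, abs_of_pos (p w)]
      have h1 := tri a.pe b.pe
      have h2 : (2 : ℝ) * (20 / 2 ^ w) = 40 / 2 ^ w := by ring
      rw [h2, le_div_iff₀ (p w)] at h1
      linarith
    · rw [pkC_iu _ _ hi1, pkC_iu _ _ hi1, ← mul_assoc, ← mul_assoc, ← pow_add, ← mul_sub,
        abs_mul, abs_of_pos (p (w + lam))]
      have h1 := tri a.pu b.pu
      have h2 : (2 : ℝ) * (20 / 2 ^ (w + lam)) = 40 / 2 ^ (w + lam) := by ring
      rw [h2, le_div_iff₀ (p (w + lam))] at h1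
      change 2 ^ (w + lam) * |fu i0 iu (y ω).e (F.x ω) - fu i0 iu (y ω).e (F.x ω')| ≤ 40
      linarith
    · rw [pkC_iN _ _ hi2 hi3, pkC_iN _ _ hi2 hi3, ← mul_assoc, ← mul_assoc, ← ePw, ← mul_sub,
        abs_mul, abs_of_pos (p P)]
      have h1 := tri a.pn b.pn
      have h2 : (2 : ℝ) * (20 / 2 ^ P) = 40 / 2 ^ P := by ring
      rw [h2, le_div_iff₀ (p P)] at h1
      change 2 ^ P * |fn i0 iu iN (y ω).c (y ω).s (F.x ω) -
        fn i0 iu iN (y ω).c (y ω).s (F.x ω')| ≤ 40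
      linarith
  -- the cells
  have c1 : CH q (F.bvl C (fun ω => fr (y ω))) (fun ω => (y ω, F.W ω)) ≤
      (3 : ℕ) * Real.log (2 * 80 + 3) :=
    ENP.CH_fl hq 0 (fun ω => C.L (fr (y ω)) (F.d ω)) (fun ω => (y ω, F.W ω)) 80
      (fun ω ω' hω hω' hh i => by
        rw [pow_zero, div_one]
        have := hd ω ω' hω hω' (Prod.ext_iff.1 hh).1 i
        linarith)
  have c2 : CH q (F.bcl w C (fun ω => fr (y ω))) (fun ω => (y ω, F.W ω)) ≤
      (3 : ℕ) * Real.log (2 * 80 + 3) :=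
    ENP.CH_fl hq w (fun ω => C.L (fr (y ω)) (F.x1 w ω)) (fun ω => (y ω, F.W ω)) 80
      (fun ω ω' hω hω' hh i => by
        have g0 := Prod.ext_iff.1 hh
        have g1 := hd ω ω' hω hω' g0.1 i
        have g2 := hx ω ω' hω hω' g0.1 g0.2 i
        have x1 : ∀ ω, 2 ^ w * C.L (fr (y ω)) (F.x1 w ω) i =
            2 ^ w * C.L (fr (y ω)) (F.x ω) i -
              (F.box w C (fun ω => fr (y ω))).t ω * C.L (fr (y ω)) (F.d ω) i := by
          intro ω
          have a1 : 2 ^ w * C.L (fr (y ω)) (F.x ω) i = _ :=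
            Box.box_x F hwJ C (fun ω => fr (y ω)) ω i
          have a2 : 2 ^ w * C.L (fr (y ω)) (F.x1 w ω) i = _ :=
            Box.bcl_eq F w C (fun ω => fr (y ω)) ω i
          have a3 : C.L (fr (y ω)) (F.d ω) i = _ :=
            Box.bvl_eq F w C (fun ω => fr (y ω)) ω i
          have a4 : (F.box w C (fun ω => fr (y ω))).x ω i =
            (F.box w C (fun ω => fr (y ω))).u ω i +
            (F.box w C (fun ω => fr (y ω))).t ω * (F.box w C (fun ω => fr (y ω))).d ω i := rfl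
          rw [a1, a2, a3, a4]
          ring
        have ht : (F.box w C (fun ω => fr (y ω))).t ω =
            (F.box w C (fun ω => fr (y ω))).t ω' := by
          change ((F.T ω % 2 ^ (J - w) : ℕ) : ℝ) / 2 ^ (J - w) =
            ((F.T ω' % 2 ^ (J - w) : ℕ) : ℝ) / 2 ^ (J - w)
          rw [(W_det F g0.2).1]
        have tm := Box.t_mem F w C (fun ω => fr (y ω)) ω
        rw [le_div_iff₀ (p w)]
        have e3 : |C.L (fr (y ω)) (F.x1 w ω) i - C.L (fr (y ω')) (F.x1 w ω') i| * 2 ^ w =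
            |2 ^ w * C.L (fr (y ω)) (F.x1 w ω) i - 2 ^ w * C.L (fr (y ω')) (F.x1 w ω') i| := by
          rw [← mul_sub, abs_mul, abs_of_pos (p w)]
          ring
        rw [e3, x1 ω, x1 ω', ← ht]
        have e4 : 2 ^ w * C.L (fr (y ω)) (F.x ω) i -
            (F.box w C (fun ω => fr (y ω))).t ω * C.L (fr (y ω)) (F.d ω) i -
            (2 ^ w * C.L (fr (y ω')) (F.x ω') i -
            (F.box w C (fun ω => fr (y ω))).t ω * C.L (fr (y ω')) (F.d ω') i) =
            (2 ^ w * C.L (fr (y ω)) (F.x ω) i - 2 ^ w * C.L (fr (y ω')) (F.x ω') i) -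
            (F.box w C (fun ω => fr (y ω))).t ω *
              (C.L (fr (y ω)) (F.d ω) i - C.L (fr (y ω')) (F.d ω') i) := by ring
        rw [e4]
        refine (abs_sub _ _).trans ?_
        rw [abs_mul, abs_of_nonneg tm.1]
        have g3 := abs_nonneg (C.L (fr (y ω)) (F.d ω) i - C.L (fr (y ω')) (F.d ω') i)
        nlinarith [tm.1, tm.2])
  have c3 := CH_subadd hq.nonneg (F.bcl w C (fun ω => fr (y ω)))
    (F.bvl C (fun ω => fr (y ω))) (fun ω => (y ω, F.W ω))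
  have c4 := CH_mono_cond hq.nonneg (X := F.bvl C (fun ω => fr (y ω)))
    (W' := fun ω => (F.bcl w C (fun ω => fr (y ω)) ω, (y ω, F.W ω)))
    (W := fun ω => (y ω, F.W ω)) (fun ω ω' _ _ hh => (Prod.ext_iff.1 hh).2)
  have c5 : CH q (pB F i0 iu w lam P y) (fun ω => (y ω, F.W ω)) ≤
      CH q (fun ω => (F.bcl w C (fun ω => fr (y ω)) ω, F.bvl C (fun ω => fr (y ω)) ω))
        (fun ω => (y ω, F.W ω)) := by
    refine CH_mono_left hq.nonneg fun ω ω' _ _ hh => ?_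
    have g0 := Prod.ext_iff.1 hh
    have g1 := Prod.ext_iff.1 g0.1
    have g2 := Prod.ext_iff.1 g0.2
    have g3 := W_det F g2.2
    have g4 : F.T1 w ω = F.T1 w ω' := by
      unfold Fam.T1
      rw [g3.1]
    have g5 : fr (y ω) = fr (y ω') := by
      have : y ω = y ω' := g2.1
      rw [this]
    change F.blab w (pC i0 iu w lam P) (fun ω => fr (y ω)) ω =
      F.blab w (pC i0 iu w lam P) (fun ω => fr (y ω)) ω'
    rw [← hC]
    unfold Fam.blab
    exact Prod.ext (Prod.ext (Prod.ext g4 g5) (Prod.ext g1.1 g1.2)) g3.2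
  have e19 : (2 : ℝ) * 80 + 3 = 163 := by norm_num
  rw [e19] at c1 c2
  push_cast at c1 c2
  linarith

end plank

end Pool.ZT
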