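import Pool.Agent.H8.KS6.LEV
import Pool.Agent.H35.K2S.Dich
import Pool.Agent.H35.ZCL.Core

/-!
# Regularisation of finitely many conditional entropies

On an event of bounded relative probability the conditional informations of finitely many
functions are almost constant. Then the conditional entropies are almost the same for all smaller
events, up to the logarithm of the relative probability.
-/

set_option autoImplicit false

namespace Pool.ZT

open Finset Real
open Pool.Agent.H49.Ent Pool.Agent.H32.Dense Pool.STK Pool.K2S Pool.S6L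

section info

variable {Ω S T : Type} [Fintype Ω]

/-- The conditional information of `V` given `U`. -/
noncomputable def cif (q : Ω → ℝ) (V : Ω → S) (U : Ω → T) (ω : Ω) : ℝ :=
  Real.log (law q U (U ω)) - Real.log (law q (fun ω => (V ω, U ω)) (V ω, U ω))

theorem cif_nonneg {q : Ω → ℝ} (hq : ∀ ω, 0 ≤ q ω) (V : Ω → S) (U : Ω → T) {ω : Ω}
    (h : 0 < q ω) : 0 ≤ cif q V U ω := by
  have h1 := law_pos hq (fun ω => (V ω, U ω)) h
  have h2 : law q (fun ω => (V ω, U ω)) (V ω, U ω) ≤ law q U (U ω) := by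
    unfold law
    refine Finset.sum_le_sum fun v _ => ?_
    by_cases h2 : (V v, U v) = (V ω, U ω)
    · rw [if_pos h2, if_pos (Prod.mk.inj h2).2]
    · rw [if_neg h2]
      split_ifs
      · exact hq v
      · exact le_rfl
  have := Real.log_le_log h1 h2
  unfold cif
  linarith

theorem cif_mean (q r : Ω → ℝ) (hr : ∀ ω, 0 ≤ r ω) (hac : ∀ ω, 0 < r ω → 0 < q ω)
    (hq : ∀ ω, 0 ≤ q ω) (V : Ω → S) (U : Ω → T) :
    CH r V U = ∑ ω, r ω * cif q V U ω -
      (kl r q (fun ω => (V ω, U ω)) - kl r q U) := by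
  unfold CH H kl cif
  rw [← Finset.sum_sub_distrib, ← Finset.sum_sub_distrib, sub_neg_eq_add, neg_add_eq_sub,
    ← Finset.sum_sub_distrib]
  refine Finset.sum_congr rfl fun ω _ => ?_
  rcases (hr ω).eq_or_lt with h | h
  · rw [← h]
    ring
  · have a1 := law_pos hr (fun ω => (V ω, U ω)) h
    have a2 := law_pos hr U h
    have a3 := law_pos hq (fun ω => (V ω, U ω)) (hac ω h)
    have a4 := law_pos hq U (hac ω h)
    rw [Real.log_div a1.ne' a3.ne', Real.log_div a2.ne' a4.ne']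
    ring

/-- Almost constant information. -/
theorem cif_core {q r : Ω → ℝ} (hq : IsLaw q) (hr : IsLaw r) {c : ℝ}
    (hrq : ∀ ω, r ω ≤ c * q ω) (V : Ω → S) (U : Ω → T) {h k : ℝ}
    (hb : ∀ ω, 0 < r ω → h ≤ cif q V U ω ∧ cif q V U ω ≤ h + k) :
    h - Real.log c ≤ CH r V U ∧ CH r V U ≤ h + k := by
  have hac : ∀ ω, 0 < r ω → 0 < q ω := by
    intro ω h
    rcases (hq.nonneg ω).eq_or_lt with h0 | h0
    · have := hrq ω
      rw [← h0, mul_zero] at this
      linarith
    · exact h0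
  have e := cif_mean q r hr.nonneg hac hq.nonneg V U
  have k1 := kl_mono r q hr.nonneg hr.sum_one hq.nonneg hac (fun ω => (V ω, U ω)) U
    (fun ω ω' _ _ h => (Prod.ext_iff.1 h).2)
  have k2 := kl_le r q hr.nonneg hr.sum_one hq.nonneg c hrq (fun ω => (V ω, U ω))
  have k3 := kl_nonneg r q hr.nonneg hr.sum_one hq.nonneg hq.sum_one hac U
  have m1 : h ≤ ∑ ω, r ω * cif q V U ω := by
    calc h = ∑ ω, r ω * h := by rw [← Finset.sum_mul, hr.sum_one, one_mul]
      _ ≤ _ := Finset.sum_le_sum fun ω _ => by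
        rcases (hr.nonneg ω).eq_or_lt with h0 | h0
        · rw [← h0, zero_mul, zero_mul]
        · exact mul_le_mul_of_nonneg_left (hb ω h0).1 h0.le
  have m2 : ∑ ω, r ω * cif q V U ω ≤ h + k := by
    calc ∑ ω, r ω * cif q V U ω ≤ ∑ ω, r ω * (h + k) := Finset.sum_le_sum fun ω _ => by
          rcases (hr.nonneg ω).eq_or_lt with h0 | h0
          · rw [← h0, zero_mul, zero_mul]
          · exact mul_le_mul_of_nonneg_left (hb ω h0).2 h0.le
      _ = h + k := by rw [← Finset.sum_mul, hr.sum_one, one_mul]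
  constructor <;> linarith

/-- The laws of smaller events. -/
theorem cond_dens {p : Ω → ℝ} (hp : IsLaw p) {A B : Ω → Prop} (hB : Sub B A)
    (hB0 : 0 < Pe p B) (ω : Ω) :
    cond p B True ω ≤ Pe p A / Pe p B * cond p A True ω := by
  classical
  have hA0 : 0 < Pe p A := hB0.trans_le (Pe_mono hp hB)
  have h3 := cond_nonneg hp.nonneg A True ω
  unfold Pool.Agent.H49.Ent.cond at h3 ⊢
  by_cases h : B ω
  · have h2 := hB ω h
    rw [if_pos (eq_true h), if_pos (eq_true h2)]
    refine le_of_eq ?_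
    have e1 : law p B True = Pe p B := rfl
    have e2 : law p A True = Pe p A := rfl
    rw [e1, e2]
    field_simp
  · rw [if_neg (fun h' => h (of_eq_true h'))]
    exact mul_nonneg (div_nonneg hA0.le hB0.le) h3

/-- The probability that the information is large. -/
theorem cif_large {p : Ω → ℝ} (hp : IsLaw p) {A : Ω → Prop} (hA : 0 < Pe p A) (V : Ω → S)
    (U : Ω → T) {x M : ℝ} (hx : 0 < x) (hM : CH (cond p A True) V U ≤ M) :
    Pe p (fun ω => A ω ∧ x ≤ cif (cond p A True) V U ω) ≤ M / x * Pe p A := by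
  classical
  obtain ⟨q, hqd⟩ : ∃ q, q = cond p A True := ⟨_, rfl⟩
  have hq : IsLaw q := by
    rw [hqd]
    exact isLaw_cond hp hA
  rw [← hqd] at hM ⊢
  have e := cif_mean q q hq.nonneg (fun _ h => h) hq.nonneg V U
  have e0 : ∀ {R : Type} (X : Ω → R), kl q q X = 0 := by
    intro R X
    unfold kl
    refine Finset.sum_eq_zero fun ω _ => ?_
    rcases (hq.nonneg ω).eq_or_lt with h0 | h0
    · rw [← h0, zero_mul]
    · rw [div_self (law_pos hq.nonneg X h0).ne', Real.log_one, mul_zero]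
  rw [e0, e0, sub_zero, sub_zero] at e
  have h1 : Pe q (fun ω => x ≤ cif q V U ω) * x ≤ ∑ ω, q ω * cif q V U ω := by
    rw [Pe_eq, Finset.sum_mul]
    refine Finset.sum_le_sum fun ω _ => ?_
    rcases (hq.nonneg ω).eq_or_lt with h0 | h0
    · rw [← h0]
      simp
    · split_ifs with h2
      · exact mul_le_mul_of_nonneg_left h2 h0.le
      · rw [zero_mul]
        exact mul_nonneg h0.le (cif_nonneg hq.nonneg V U h0)
  rw [← e] at h1
  have h2 : Pe q (fun ω => x ≤ cif q V U ω) =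
      Pe p (fun ω => A ω ∧ x ≤ cif q V U ω) / Pe p A := by
    obtain ⟨D, hD⟩ : ∃ D : Ω → Prop, D = fun ω => x ≤ cif q V U ω := ⟨_, rfl⟩
    have h3 := Pe_cond (p := p) (A := A) D
    rw [← hqd, hD] at h3
    exact h3
  have h3 : Pe p (fun ω => A ω ∧ x ≤ cif q V U ω) / Pe p A * x ≤ M := by
    rw [← h2]
    exact h1.trans hM
  rw [div_mul_eq_mul_div, le_div_iff₀ hx]
  have h4 : Pe p (fun ω => A ω ∧ x ≤ cif q V U ω) / Pe p A * x =
      Pe p (fun ω => A ω ∧ x ≤ cif q V U ω) * x / Pe p A := by ring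
  rw [h4, div_le_iff₀ hA] at h3
  exact h3

end info

/-- A finite union of events. -/
theorem Pe_ex {Ω I : Type} [Fintype Ω] [Fintype I] {p : Ω → ℝ} (hp : IsLaw p)
    (E : I → Ω → Prop) : Pe p (fun ω => ∃ i, E i ω) ≤ ∑ i, Pe p (E i) := by
  classical
  simp only [Pe_eq]
  rw [Finset.sum_comm]
  refine Finset.sum_le_sum fun ω _ => ?_
  by_cases h : ∃ i, E i ω
  · rw [if_pos h]
    obtain ⟨i, hi⟩ := h
    have h1 : (if E i ω then p ω else 0) ≤ ∑ j, if E j ω then p ω else 0 :=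
      Finset.single_le_sum (f := fun j => if E j ω then p ω else 0)
        (fun j _ => by
          split_ifs
          · exact hp.nonneg ω
          · exact le_rfl) (Finset.mem_univ i)
    rwa [if_pos hi] at h1
  · rw [if_neg h]
    refine Finset.sum_nonneg fun j _ => ?_
    split_ifs
    · exact hp.nonneg ω
    · exact le_rfl

/-- **Regularisation.** -/
theorem reg (n : ℕ) {M κ : ℝ} (hM : 0 ≤ M) (hκ : 0 < κ) : ∃ N : ℝ, 1 ≤ N ∧
    ∀ (Ω S T : Type) [Fintype Ω] (p : Ω → ℝ), IsLaw p → ∀ (A : Ω → Prop), 0 < Pe p A →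
    ∀ L : ℝ, 0 < L → ∀ (V : Fin n → Ω → S) (U : Fin n → Ω → T),
    (∀ i, CH (cond p A True) (V i) (U i) ≤ M * L) →
    ∃ A' : Ω → Prop, Sub A' A ∧ Pe p A ≤ N * Pe p A' ∧ ∃ h : Fin n → ℝ,
      ∀ B : Ω → Prop, Sub B A' → 0 < Pe p B → ∀ i,
        h i - Real.log (Pe p A / Pe p B) ≤ CH (cond p B True) (V i) (U i) ∧
        CH (cond p B True) (V i) (U i) ≤ h i + κ * L := by
  classical
  obtain ⟨K, hK⟩ := exists_nat_ge (2 * (n + 1) * (M + 1) / κ)
  obtain ⟨eN, hN⟩ : ∃ eN : ℝ, eN = (Fintype.card (Fin n → Fin (K + 1)) : ℝ) := ⟨_, rfl⟩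
  refine ⟨max 1 (2 * eN), le_max_left _ _, ?_⟩
  intro Ω S T _ p hp A hA L hL V U hCH
  obtain ⟨q, hqd⟩ : ∃ q, q = cond p A True := ⟨_, rfl⟩
  have hq : IsLaw q := by
    rw [hqd]
    exact isLaw_cond hp hA
  obtain ⟨x, hx⟩ : ∃ x, x = 2 * (n + 1) * (M + 1) * L := ⟨_, rfl⟩
  have hx0 : 0 < x := by rw [hx]; positivity
  have hxK : x ≤ K * (κ * L) := by
    rw [div_le_iff₀ hκ] at hK
    rw [hx]
    have := mul_le_mul_of_nonneg_right hK hL.le
    linarith
  -- large information
  have h1 : Pe p (fun ω => ∃ i : Fin n, A ω ∧ x ≤ cif q (V i) (U i) ω) ≤ Pe p A / 2 := by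
    refine (Pe_ex hp _).trans ?_
    have h2 : ∀ i ∈ (Finset.univ : Finset (Fin n)), Pe p (fun ω => A ω ∧ x ≤ cif q (V i) (U i) ω) ≤
        1 / (2 * (n + 1)) * Pe p A := by
      intro i _
      have h3 := cif_large hp hA (V i) (U i) hx0 (hCH i)
      rw [← hqd] at h3
      refine h3.trans (mul_le_mul_of_nonneg_right ?_ hA.le)
      rw [hx, div_le_div_iff₀ (by positivity) (by positivity)]
      have h4 : 0 ≤ L * (2 * (n + 1)) := by positivity
      nlinarith
    refine (Finset.sum_le_sum h2).trans ?_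
    rw [Finset.sum_const, Finset.card_univ, Fintype.card_fin, nsmul_eq_mul]
    have h5 : (n : ℝ) * (1 / (2 * (n + 1)) * Pe p A) = (n / (n + 1)) * (Pe p A / 2) := by
      field_simp
    rw [h5]
    have h6 : (n : ℝ) / (n + 1) ≤ 1 := by
      rw [div_le_one (by positivity)]
      linarith
    have h7 : 0 ≤ Pe p A / 2 := by positivity
    calc (n : ℝ) / (n + 1) * (Pe p A / 2) ≤ 1 * (Pe p A / 2) :=
          mul_le_mul_of_nonneg_right h6 h7
      _ = _ := one_mul _
  obtain ⟨A₁, hA₁⟩ : ∃ A₁ : Ω → Prop, A₁ = fun ω => A ω ∧ ∀ i : Fin n,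
    cif q (V i) (U i) ω < x := ⟨_, rfl⟩
  have h2 : Pe p A ≤ Pe p A₁ + Pe p A / 2 := by
    refine le_trans ?_ (add_le_add le_rfl h1)
    rw [Pe_eq, Pe_eq, Pe_eq, ← Finset.sum_add_distrib]
    refine Finset.sum_le_sum fun ω _ => ?_
    have h0 := hp.nonneg ω
    by_cases ha : A ω
    · by_cases hb : ∀ i : Fin n, cif q (V i) (U i) ω < x
      · have hc : A₁ ω := by
          rw [hA₁]
          exact ⟨ha, hb⟩
        rw [if_pos ha, if_pos hc]
        split_ifs <;> linarith
      · push Not at hb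
        obtain ⟨i, hi⟩ := hb
        rw [if_pos ha, if_pos (⟨i, ha, hi⟩ : ∃ i : Fin n, A ω ∧ x ≤ cif q (V i) (U i) ω)]
        split_ifs <;> linarith
    · rw [if_neg ha]
      split_ifs <;> linarith
  -- types
  let ty : Ω → Fin n → Fin (K + 1) := fun ω i => ⟨min ⌊cif q (V i) (U i) ω / (κ * L)⌋₊ K,
    by omega⟩
  let eqv := Fintype.equivFin (Fin n → Fin (K + 1))
  obtain ⟨hcard, k₀, hk₀⟩ := Pool.ZCL.Pe_pigeon hp (fun ω => eqv (ty ω)) A₁
  rw [← hN] at hk₀
  have hNr : (0 : ℝ) < eN := by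
    rw [hN]
    exact_mod_cast hcard
  obtain ⟨A', hA'⟩ : ∃ A' : Ω → Prop, A' = fun ω => eqv (ty ω) = k₀ ∧ A₁ ω := ⟨_, rfl⟩
  rw [← hA'] at hk₀
  have hsub : Sub A' A := by
    intro ω hω
    rw [hA'] at hω
    have := hω.2
    rw [hA₁] at this
    exact this.1
  refine ⟨A', hsub, ?_, fun i => ((eqv.symm k₀ i : ℕ) : ℝ) * (κ * L), ?_⟩
  · rw [div_le_iff₀ hNr] at hk₀
    have h3 : Pe p A ≤ 2 * eN * Pe p A' := by nlinarith
    exact h3.trans (mul_le_mul_of_nonneg_right (le_max_right _ _) (Pe_nonneg hp A'))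
  · intro B hB hB0 i
    have hlB := isLaw_cond hp hB0
    have hBA : Sub B A := fun ω hω => hsub ω (hB ω hω)
    refine cif_core hq hlB (c := Pe p A / Pe p B) ?_ (V i) (U i) ?_
    · intro ω
      rw [hqd]
      exact cond_dens hp hBA hB0 ω
    · intro ω hω
      obtain ⟨h3, h4⟩ := (cond_pos_iff hp.nonneg B True ω).1 hω
      have h5 : A' ω := hB ω (of_eq_true h4)
      rw [hA'] at h5
      obtain ⟨h6, h7⟩ := h5
      rw [hA₁] at h7
      have hAω := h7.1
      have h8 : ty ω = eqv.symm k₀ := by rw [← h6, Equiv.symm_apply_apply]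
      have h9 : ((eqv.symm k₀ i : Fin (K + 1)) : ℕ) = ⌊cif q (V i) (U i) ω / (κ * L)⌋₊ := by
        rw [← h8]
        change min ⌊cif q (V i) (U i) ω / (κ * L)⌋₊ K = ⌊cif q (V i) (U i) ω / (κ * L)⌋₊
        refine min_eq_left ?_
        have h10 : cif q (V i) (U i) ω / (κ * L) ≤ K := by
          rw [div_le_iff₀ (by positivity)]
          exact (h7.2 i).le.trans hxK
        exact Nat.floor_le_of_le h10
      have hq0 : 0 < q ω := by
        rw [hqd, cond_pos_iff hp.nonneg]
        exact ⟨h3, eq_true hAω⟩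
      have h11 : 0 ≤ cif q (V i) (U i) ω / (κ * L) :=
        div_nonneg (cif_nonneg hq.nonneg _ _ hq0) (by positivity)
      have h12 := Nat.floor_le h11
      have h13 := Nat.lt_floor_add_one (cif q (V i) (U i) ω / (κ * L))
      rw [← h9] at h12 h13
      rw [le_div_iff₀ (by positivity)] at h12
      rw [div_lt_iff₀ (by positivity)] at h13
      constructor
      · exact h12
      · linarith

end Pool.ZT
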