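import Pool.Agent.H4.KS6.ZTL

/-!
# The deficit of the zoom: labels which are visible up to a bounded number of values
-/

set_option autoImplicit false

namespace Pool.ZT

open Finset Real
open Pool.Agent.H49.Ent Pool.Agent.H32.Dense Pool.STK Pool.KA Pool.KS6

variable {J : ℕ} {F : Fam 3 J} {q : F.Ω → ℝ} {i0 iu iN j0 ju jN : Fin 3}

/-- **(T1)-(T5): the deficit of the zoom**; the label `z₀` of the box is not visible, but it is a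
function of the visible label `y`, up to `c`. -/
theorem ztl3 (hq : IsLaw q) (hi : ∀ j : Fin 3, j = i0 ∨ j = iu ∨ j = iN)
    (hj : ∀ j : Fin 3, j = j0 ∨ j = ju ∨ j = jN)
    {R S S' : Type} {z₀ : F.Ω → S} {z₁ : F.Ω → S'} {y : F.Ω → R} {c : ℝ}
    {e₀ c₀ s₀ e₁ c₁ s₁ : F.Ω → ℝ}
    {w₀ U₀ Q₀ P₀ w₁ U₁ Q₁ P₁ X Δ : ℕ} {B C D r ε : ℝ} {v : F.Ω → Fin 3 → ℝ} (hB : 1 ≤ B)
    (hC : 1 ≤ C) (hD : 1 ≤ D) (hw : w₁ = w₀ + X) (hU : U₁ = U₀ + (X + Δ)) (hP : P₁ = P₀ + X)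
    (hw₁ : w₁ ≤ U₁) (hU₁ : U₁ ≤ Q₀) (hQP : Q₀ ≤ P₀) (hQQ : Q₀ ≤ Q₁) (hQP₁ : Q₁ ≤ P₁)
    (hQD₀ : (2 : ℝ) ^ (P₀ - Q₀) ≤ D) (hQD : (2 : ℝ) ^ (P₁ - Q₁) ≤ D)
    -- the labels and the zoomed point
    (h0 : Pat F q i0 iu iN z₀ e₀ c₀ s₀ w₀ U₀ Q₀ B C)
    (h1 : Pat F q i0 iu iN z₁ e₁ c₁ s₁ w₁ U₁ Q₁ B C)
    (hv : Zpt F q i0 iu iN j0 ju jN z₀ e₀ c₀ s₀ w₀ U₀ Q₀ B v)
    -- visibility
    (dy : Det q (fun ω => (F.X P₀ ω, F.W ω)) y) (cy : CH q z₀ (fun ω => (y ω, F.W ω)) ≤ c)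
    (d1 : Det q (fun ω => (F.X P₁ ω, F.W ω)) z₁)
    -- near frames
    (hn : ∀ ω, 0 < q ω → |e₀ ω - e₁ ω| ≤ D * 2 ^ w₀ / 2 ^ U₀ ∧
      |s₀ ω - s₁ ω| ≤ D * 2 ^ U₁ / 2 ^ P₁ ∧
      |(c₀ ω - c₁ ω) + (s₀ ω - s₁ ω) * e₁ ω| ≤ D * 2 ^ w₁ / 2 ^ P₁)
    -- full rows
    (fv1 : (((P₁ : ℝ) - w₁) + ((P₁ : ℝ) - U₁)) * Real.log 2 - ε ≤
      CH q (F.X P₁) (fun ω => (z₁ ω, F.W ω)))
    (fv2 : (((P₀ : ℝ) - w₁) + ((P₀ : ℝ) - U₁)) * Real.log 2 - ε ≤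
      CH q (F.X P₀) (fun ω => ((y ω, z₁ ω), F.W ω)))
    -- the rate
    (hr : CH q (F.X P₁) F.W - CH q (F.X P₀) F.W ≤ (3 * Real.log 2 - r) * X) :
    r * X - 2 * ε - 2 * c - 24 * Real.log (100 * (B ^ 2 * C ^ 2 * D ^ 2)) ≤
      3 * ((X : ℝ) + Δ) * Real.log 2 -
        CH q (fun ω => fl (X + Δ) (v ω)) (fun ω => (z₀ ω, F.W ω)) := by
  have hq0 := hq.nonneg
  have hB0 : 0 < B := by linarith
  have hC0 : 0 < C := by linarith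
  have hD0 : 0 < D := by linarith
  obtain ⟨κ, hκ⟩ : ∃ κ, κ = Real.log (100 * (B ^ 2 * C ^ 2 * D ^ 2)) := ⟨_, rfl⟩
  rw [← hκ]
  -- the monomials
  have hBB : B ≤ B ^ 2 := by nlinarith
  have hCC : C ≤ C ^ 2 := by nlinarith
  have hDD : D ≤ D ^ 2 := by nlinarith
  have hB1 : 1 ≤ B ^ 2 := by linarith
  have hC1 : 1 ≤ C ^ 2 := by linarith
  have hD1 : 1 ≤ D ^ 2 := by linarith
  have mon : ∀ {x y w : ℝ}, 0 ≤ x → 0 ≤ y → 0 ≤ w → x ≤ B ^ 2 → y ≤ C ^ 2 → w ≤ D ^ 2 →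
      x * y * w ≤ B ^ 2 * C ^ 2 * D ^ 2 := by
    intro x y w hx hy hw' h1 h2 h3
    exact mul_le_mul (mul_le_mul h1 h2 hy (by positivity)) h3 hw' (by positivity)
  have m1 : 1 ≤ B ^ 2 * C ^ 2 * D ^ 2 := by
    simpa using mon zero_le_one zero_le_one zero_le_one hB1 hC1 hD1
  have mB : B ≤ B ^ 2 * C ^ 2 * D ^ 2 := by
    simpa using mon hB0.le zero_le_one zero_le_one hBB hC1 hD1
  have mC : C ≤ B ^ 2 * C ^ 2 * D ^ 2 := by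
    simpa using mon zero_le_one hC0.le zero_le_one hB1 hCC hD1
  have mD : D ≤ B ^ 2 * C ^ 2 * D ^ 2 := by
    simpa using mon zero_le_one zero_le_one hD0.le hB1 hC1 hDD
  have mBC : B * C ≤ B ^ 2 * C ^ 2 * D ^ 2 := by
    simpa using mon hB0.le hC0.le zero_le_one hBB hCC hD1
  have mBDC : B * (D * C) ≤ B ^ 2 * C ^ 2 * D ^ 2 := by
    have := mon hB0.le hC0.le hD0.le hBB hCC hDD
    linarith
  have mBBD : B * (D * B) ≤ B ^ 2 * C ^ 2 * D ^ 2 := by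
    have := mon (sq_nonneg B) zero_le_one hD0.le le_rfl hC1 hDD
    linarith
  have lg : ∀ {x : ℝ}, 0 < x → x ≤ 100 * (B ^ 2 * C ^ 2 * D ^ 2) → Real.log x ≤ κ := by
    intro x hx h
    rw [hκ]
    exact Real.log_le_log hx h
  have lD₀ : ((P₀ : ℝ) - Q₀) * Real.log 2 ≤ κ := by
    have h3 : Real.log (2 ^ (P₀ - Q₀)) ≤ κ := lg (by positivity) (by linarith)
    rw [Real.log_pow, Nat.cast_sub hQP] at h3
    exact h3
  -- (T1)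
  have t1a := CH_le_add hq0 (F.X P₀) z₀ F.W
  have t1b := size hq hi (K := P₀) hB0.le hC0.le h0 (by omega) (by omega) hQP
  have l1 : Real.log (2 * (C + 2 * B) + 3) ≤ κ := lg (by positivity) (by linarith)
  -- (T2)
  have t2 := ch_split hq (F.X P₁) z₁ F.W d1
  -- (T3)
  have h1' : Pat F q i0 iu iN z₁ e₁ c₁ s₁ w₁ U₁ Q₀ B C :=
    ⟨h1.bd, h1.fr, fun ω ω' a b' c d => ⟨(h1.nr ω ω' a b' c d).1, (h1.nr ω ω' a b' c d).2.1,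
      (h1.nr ω ω' a b' c d).2.2.trans (div_le_div_of_nonneg_left hC0.le (by positivity)
        (pow_le_pow_right₀ (by norm_num) hQQ))⟩⟩
  have b3 := size hq hi (K := P₀) hB0.le hC0.le h1' (by omega) (by omega) hQP
  have t3a := CH_chain hq0 z₀ (F.X P₀) (fun ω => (z₁ ω, F.W ω))
  have t3b := CH_chain hq0 (F.X P₀) z₀ (fun ω => (z₁ ω, F.W ω))
  have t3c : CH q (fun ω => (z₀ ω, F.X P₀ ω)) (fun ω => (z₁ ω, F.W ω)) =
      CH q (fun ω => (F.X P₀ ω, z₀ ω)) (fun ω => (z₁ ω, F.W ω)) := by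
    refine CH_congr hq0 ?_ ?_ (fun _ _ _ _ h => h) (fun _ _ _ _ h => h)
    · intro ω ω' _ _ h
      simp only [Prod.mk.injEq] at h ⊢
      tauto
    · intro ω ω' _ _ h
      simp only [Prod.mk.injEq] at h ⊢
      tauto
  have t3d : CH q z₀ (fun ω => (F.X P₀ ω, (z₁ ω, F.W ω))) ≤ c := by
    refine le_trans (CH_mono_cond hq0 fun ω ω' x y' h => ?_) cy
    have g0 := Prod.ext_iff.1 h
    have g1 := Prod.ext_iff.1 g0.2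
    exact Prod.ext (dy ω ω' x y' (Prod.ext g0.1 g1.2)) g1.2
  have t3g : CH q (F.X P₀) (fun ω => ((y ω, z₁ ω), F.W ω)) ≤
      c + CH q (F.X P₀) (fun ω => (z₀ ω, (z₁ ω, F.W ω))) := by
    have g1 := CH_le_add hq0 (F.X P₀) z₀ (fun ω => ((y ω, z₁ ω), F.W ω))
    have g2 : CH q z₀ (fun ω => ((y ω, z₁ ω), F.W ω)) ≤ CH q z₀ (fun ω => (y ω, F.W ω)) :=
      CH_mono_cond hq0 fun ω ω' _ _ h => by
        simp only [Prod.mk.injEq] at h ⊢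
        exact ⟨h.1.1, h.2⟩
    have g3 : CH q (F.X P₀) (fun ω => (z₀ ω, ((y ω, z₁ ω), F.W ω))) ≤
        CH q (F.X P₀) (fun ω => (z₀ ω, (z₁ ω, F.W ω))) :=
      CH_mono_cond hq0 fun ω ω' _ _ h => by
        simp only [Prod.mk.injEq] at h ⊢
        exact ⟨h.1, h.2.1.2, h.2.2⟩
    linarith
  -- (T4)
  have t4a := CH_chain hq0 z₁ z₀ F.W
  have t4b := CH_chain hq0 z₀ z₁ F.W
  have t4c : CH q (fun ω => (z₁ ω, z₀ ω)) F.W = CH q (fun ω => (z₀ ω, z₁ ω)) F.W := by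
    refine CH_congr hq0 ?_ ?_ (fun _ _ _ _ h => h) (fun _ _ _ _ h => h)
    · intro ω ω' _ _ h
      simp only [Prod.mk.injEq] at h ⊢
      tauto
    · intro ω ω' _ _ h
      simp only [Prod.mk.injEq] at h ⊢
      tauto
  -- (T5)
  have t5a := t5 hq hj hB hC hD hw hU hP hQP hQP₁ hQD h1 hv hn
  have t5b := CH_le_add hq0 (fun ω => fl (X + Δ) (v ω)) z₁ (fun ω => (z₀ ω, F.W ω))
  have l7 : Real.log (2 * (B * C) + 3) ≤ κ := lg (by positivity) (by linarith)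
  have l8 : Real.log (2 * (B * (C + D * B)) + 3) ≤ κ := lg (by positivity) (by
    rw [mul_add]
    linarith)
  have l9 : Real.log (2 * (3 * B * (D * C)) + 3) ≤ κ := lg (by positivity) (by
    have : 3 * B * (D * C) = 3 * (B * (D * C)) := by ring
    rw [this]
    linarith)
  -- the numbers
  have n1 : ((P₁ : ℝ) - w₁) + ((P₁ : ℝ) - U₁) =
      ((P₀ : ℝ) - w₀) + ((P₀ : ℝ) - U₀) - Δ := by
    rw [hw, hU, hP]
    push_cast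
    ring
  rw [n1] at fv1
  have n2 : (((P₀ : ℝ) - w₀) + ((P₀ : ℝ) - U₀) + ((P₀ : ℝ) - Q₀)) * Real.log 2 =
      (((P₀ : ℝ) - w₀) + ((P₀ : ℝ) - U₀)) * Real.log 2 + ((P₀ : ℝ) - Q₀) * Real.log 2 := by ring
  have n3 : (((P₀ : ℝ) - w₁) + ((P₀ : ℝ) - U₁) + ((P₀ : ℝ) - Q₀)) * Real.log 2 =
      (((P₀ : ℝ) - w₁) + ((P₀ : ℝ) - U₁)) * Real.log 2 + ((P₀ : ℝ) - Q₀) * Real.log 2 := by ring
  rw [n2] at t1b
  rw [n3] at b3
  have n4 : (((P₀ : ℝ) - w₀) + ((P₀ : ℝ) - U₀) - Δ) * Real.log 2 =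
      (((P₀ : ℝ) - w₀) + ((P₀ : ℝ) - U₀)) * Real.log 2 - Δ * Real.log 2 := by ring
  rw [n4] at fv1
  have n5 : 3 * ((X : ℝ) + Δ) * Real.log 2 = 3 * X * Real.log 2 + Δ * Real.log 2 +
      2 * Δ * Real.log 2 := by ring
  rw [n5]
  have n6 : (3 * Real.log 2 - r) * X = 3 * X * Real.log 2 - r * X := by ring
  rw [n6] at hr
  have hκ0 : 0 ≤ κ := by
    have := lg (x := 1) one_pos (by linarith)
    rwa [Real.log_one] at this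
  linarith

end Pool.ZT
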