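import Pool.Agent.H4.KS6.PZR
import Pool.Agent.H4.KS6.PZU
import Pool.Agent.H4.KS6.PZC
import Pool.Agent.H96.PZ.Stmts4

/-!
# The tail of the plank zoom
-/

set_option autoImplicit false

namespace Pool.ZT

open Finset Real
open Pool.Agent.H49.Ent Pool.Agent.H32.Dense Pool.STK Pool.KA Pool.KSAT Pool.K2S Pool.PB Pool.KS6
open Pool.ZCL Pool.PZ

/-- The full rows and the rate of a plank zoom, for the law `q`. -/
structure Rws {J : ℕ} (F : Fam 3 J) (yz y1 : F.Ω → Pln) (w1 U1 P0 P1 X : ℕ) (r ε : ℝ)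
    (q : F.Ω → ℝ) : Prop where
  fv1 : (((P1 : ℝ) - w1) + ((P1 : ℝ) - U1)) * Real.log 2 - ε * J ≤
    CH q (F.X P1) (fun ω => (y1 ω, F.W ω))
  fv2 : (((P0 : ℝ) - w1) + ((P0 : ℝ) - U1)) * Real.log 2 - ε * J ≤
    CH q (F.X P0) (fun ω => ((yz ω, y1 ω), F.W ω))
  rt : CH q (F.X P1) F.W - CH q (F.X P0) F.W ≤ (3 * Real.log 2 - r) * X

/-- Near frames of the planks. -/
structure Nfr (y0 y1 : Pln) (w0 U0 w1 U1 P1 K : ℕ) : Prop where
  e : |y0.e - y1.e| ≤ 2 ^ K * 2 ^ w0 / 2 ^ U0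
  s : |y0.s - y1.s| ≤ 2 ^ K * 2 ^ U1 / 2 ^ P1
  c : |(y0.c - y1.c) + (y0.s - y1.s) * y1.e| ≤ 2 ^ K * 2 ^ w1 / 2 ^ P1

/-- Labels and numbers of a plank zoom: the plank `yz` of the zoom (window `w0`, rotation `lam`,
thickness `Q0`, row `P0`) and the plank `y1` (window `w1`, thickness `Q1`, row `P1`). -/
structure Pzd {J : ℕ} (F : Fam 3 J) (i0 iu iN : Fin 3) (yz y1 : F.Ω → Pln)
    (w0 lam Q0 P0 w1 U1 Q1 P1 X D K : ℕ) (A : F.Ω → Prop) : Prop where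
  l0 : ∃ r ≤ P0, PzF F i0 iu iN r w0 lam Q0 yz A
  i1 : ∀ ω, A ω → IncP i0 iu iN w1 U1 Q1 20 20 (y1 ω) (F.t ω) (F.x ω)
  v1 : ∃ φ : (Fin 3 → ℤ) × (ℕ × F.ζ) → Pln, ∀ ω, A ω → y1 ω = φ (ptr F P1 ω)
  nf : ∀ ω, A ω → Nfr (yz ω) (y1 ω) w0 (w0 + lam) w1 U1 P1 K
  PJ : P1 ≤ J
  hw : w1 = w0 + X
  hU : U1 = w0 + lam + (X + D)
  hP : P1 = P0 + X
  wU : w1 ≤ U1
  UQ : U1 ≤ Q0
  QP : Q0 ≤ P0
  QQ : Q0 ≤ Q1
  QP1 : Q1 ≤ P1
  K0 : P0 ≤ Q0 + K
  K1 : P1 ≤ Q1 + K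

section dz

variable {J : ℕ} {F : Fam 3 J} {i0 iu iN : Fin 3} {yz y1 : F.Ω → Pln}
  {w0 lam Q0 P0 w1 U1 Q1 P1 X D K : ℕ} {A : F.Ω → Prop}

/-- A plank which contains the positions is a patch. -/
theorem pat_incP {q : F.Ω → ℝ} {w U P : ℕ} {y : F.Ω → Pln}
    (h : ∀ ω, 0 < q ω → IncP i0 iu iN w U P 20 20 (y ω) (F.t ω) (F.x ω)) :
    Pat F q i0 iu iN y (fun ω => (y ω).e) (fun ω => (y ω).c) (fun ω => (y ω).s) w U P 20 40 where
  bd := fun ω hω => ⟨(h ω hω).e_le, (h ω hω).c_le, (h ω hω).s_le⟩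
  fr := fun ω ω' _ _ hy _ => by
    refine ⟨?_, ?_, ?_⟩ <;> simp only [hy]
  nr := fun ω ω' hω hω' hy hW => by
    have ht : F.t ω = F.t ω' := by
      unfold Fam.t
      rw [(W_det F hW).1]
    have a := h ω hω
    have b := h ω' hω'
    rw [← hy, ← ht] at b
    have tri : ∀ {x x' c : ℝ} {k : ℕ}, |x - c| ≤ 20 / 2 ^ k → |x' - c| ≤ 20 / 2 ^ k →
        |x - x'| ≤ 40 / 2 ^ k := by
      intro x x' c k h1 h2
      have e : x - x' = (x - c) - (x' - c) := by ring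
      rw [e]
      refine (abs_sub _ _).trans ((add_le_add h1 h2).trans (le_of_eq ?_))
      ring
    exact ⟨tri a.pe b.pe, tri a.pu b.pu, tri a.pn b.pn⟩

/-- The constant of the zoom. -/
noncomputable def cz : ℝ := 12 * Real.log 163 + 24 * Real.log 64000000

/-- The deficit of the zoom, in the box. -/
theorem pzd_dz (h : Pzd F i0 iu iN yz y1 w0 lam Q0 P0 w1 U1 Q1 P1 X D K A) {q : F.Ω → ℝ}
    (hq : IsLaw q) (hA : ∀ ω, 0 < q ω → A ω) {r ε : ℝ}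
    (hr : Rws F yz y1 w1 U1 P0 P1 X r ε q) :
    r * X - 2 * (ε * J) - 48 * K - cz ≤
      dz q (zpv F i0 iu w0 lam Q0 yz) (fun ω => (pB F i0 iu w0 lam Q0 yz ω, F.W ω)) (X + D) := by
  obtain ⟨r0, hr0, l0⟩ := h.l0
  have hi := l0.cov
  have hw0Q : w0 ≤ Q0 := by
    have := l0.wP
    omega
  have hw0J : w0 ≤ J := by
    have := h.QP
    have := h.hP
    have := h.PJ
    omega
  have i0' := fun ω hω => l0.inc ω (hA ω hω)
  have vis : ∀ {y : F.Ω → Pln} {r P : ℕ}, r ≤ P →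
      (∃ φ : (Fin 3 → ℤ) × (ℕ × F.ζ) → Pln, ∀ ω, A ω → y ω = φ (ptr F r ω)) →
      Det q (fun ω => (F.X P ω, F.W ω)) y := by
    rintro y r P hrP ⟨φ, hφ⟩ ω ω' hω hω' hh
    have g1 : F.X P ω = F.X P ω' := (Prod.ext_iff.1 hh).1
    have g2 : F.W ω = F.W ω' := (Prod.ext_iff.1 hh).2
    have g3 : F.X r ω = F.X r ω' := Pool.STK.B58.fl_fine hrP g1
    have g4 : ptr F r ω = ptr F r ω' := Prod.ext g3 g2
    rw [hφ ω (hA ω hω), hφ ω' (hA ω' hω'), g4]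
  have p1 : (1 : ℝ) ≤ 2 ^ K := one_le_pow₀ (by norm_num)
  have z1 : Pat F q i0 iu iN (pB F i0 iu w0 lam Q0 yz) (fun ω => (yz ω).e) (fun ω => (yz ω).c)
      (fun ω => (yz ω).s) w0 (w0 + lam) Q0 20 40 :=
    pat_mono (pat_box hi hw0J hw0Q i0') (by norm_num) (by norm_num) (by norm_num) le_rfl le_rfl
      le_rfl
  have z2 := zpt_box (F := F) (q := q) (i0 := i0) (iu := iu) (iN := iN) (w := w0) (lam := lam)
    (P := Q0) (y := yz) hi hw0Q
  have z3 : Zpt F q i0 iu iN i0 iu iN (pB F i0 iu w0 lam Q0 yz) (fun ω => (yz ω).e)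
      (fun ω => (yz ω).c) (fun ω => (yz ω).s) w0 (w0 + lam) Q0 20 (zpv F i0 iu w0 lam Q0 yz) := by
    refine ⟨fun ω ω' a b c d => (z2.lo ω ω' a b c d).trans ?_, fun ω ω' a b c d => ?_⟩
    · exact mul_le_mul_of_nonneg_right (by norm_num) (abs_nonneg _)
    · obtain ⟨g1, g2, g3⟩ := z2.up ω ω' a b c d
      exact ⟨g1.trans (mul_le_mul_of_nonneg_right (by norm_num) (by positivity)),
        g2.trans (mul_le_mul_of_nonneg_right (by norm_num) (by positivity)),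
        g3.trans (mul_le_mul_of_nonneg_right (by norm_num) (by positivity))⟩
  have key := ztl3 hq hi hi (w₀ := w0) (U₀ := w0 + lam) (Q₀ := Q0) (P₀ := P0) (w₁ := w1)
    (U₁ := U1) (Q₁ := Q1) (P₁ := P1) (X := X) (Δ := D) (B := 20) (C := 40)
    (D := 2 ^ K) (r := r) (ε := ε * J) (v := zpv F i0 iu w0 lam Q0 yz)
    (z₀ := pB F i0 iu w0 lam Q0 yz) (z₁ := y1) (y := yz) (c := 6 * Real.log 163)
    (by norm_num) (by norm_num) p1 h.hw h.hU h.hP h.wU h.UQ h.QP h.QQ h.QP1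
    (pow_le_pow_right₀ (by norm_num) (by have := h.K0; omega))
    (pow_le_pow_right₀ (by norm_num) (by have := h.K1; omega))
    z1 (pat_incP fun ω hω => h.i1 ω (hA ω hω)) z3
    (vis hr0 l0.vis) (box_of_lab hq hi hw0J hw0Q i0') (vis le_rfl h.v1)
    (fun ω hω => ⟨(h.nf ω (hA ω hω)).e, (h.nf ω (hA ω hω)).s, (h.nf ω (hA ω hω)).c⟩)
    hr.fv1 hr.fv2 hr.rt
  have e1 : Real.log (100 * ((20 : ℝ) ^ 2 * 40 ^ 2 * (2 ^ K) ^ 2)) =
      Real.log 64000000 + 2 * K * Real.log 2 := by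
    have e2 : (100 : ℝ) * (20 ^ 2 * 40 ^ 2 * (2 ^ K) ^ 2) = 64000000 * 2 ^ (2 * K) := by
      rw [← pow_mul, mul_comm K 2]
      norm_num
      ring
    rw [e2, Real.log_mul (by norm_num) (by positivity), Real.log_pow]
    push_cast
    ring
  rw [e1] at key
  have e3 : (K : ℝ) * Real.log 2 ≤ K := by
    have h1 := Real.log_two_lt_d9
    have h2 : (0 : ℝ) ≤ K := Nat.cast_nonneg K
    nlinarith
  unfold dz cz
  push_cast
  linarith

end dz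

/-- A grid time above `p`. -/
theorem grid_up {g p k' : ℕ} (h : p ≤ k' * g) :
    ∃ k ≤ k', p ≤ k * g ∧ k * g ≤ p + g := by
  classical
  have hex : ∃ k, p ≤ k * g := ⟨k', h⟩
  refine ⟨Nat.find hex, Nat.find_min' hex h, Nat.find_spec hex, ?_⟩
  by_cases h0 : Nat.find hex = 0
  · rw [h0]
    omega
  · have h1 := Nat.find_min hex (Nat.sub_one_lt h0)
    push Not at h1
    obtain ⟨n, hn⟩ := Nat.exists_eq_succ_of_ne_zero h0
    rw [hn] at h1 ⊢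
    have h2 : n.succ - 1 = n := rfl
    rw [h2] at h1
    have h3 : n.succ * g = n * g + g := Nat.succ_mul n g
    omega

/-- **(PZT) The tail of the plank zoom.** -/
theorem pzt {κ δ : ℝ} (hκ : 0 < κ) (hδ : 0 < δ) : ∃ n J₁ : ℕ, ∀ J ≥ J₁, ∀ (F : Fam 3 J)
    (A : F.Ω → Prop), 0 < Pe F.p A → ∀ (i0 iu iN : Fin 3) (y0 y1 : F.Ω → Pln)
    (w0 lam0 Q0 P0 w1 U1 Q1 P1 X D K : ℕ) (a r ε : ℝ),
    Pzd F i0 iu iN y0 y1 w0 lam0 Q0 P0 w1 U1 Q1 P1 X D K A → 0 ≤ a → a ≤ 3 * Real.log 2 →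
    2 * a * ((X : ℝ) + D) + 2 * (ε * J) + 48 * K + κ * J ≤ r * X →
    (∀ B : F.Ω → Prop, Sub B A → Real.exp (-(δ * J)) * Pe F.p A ≤ Pe F.p B →
      Rws F y0 y1 w1 U1 P0 P1 X r ε (Pool.Agent.H49.Ent.cond F.p B True)) →
    ∃ A' : F.Ω → Prop, Sub A' A ∧ Real.exp (-(δ * J)) * Pe F.p A ≤ Pe F.p A' ∧
      ∃ (J' : ℕ) (h : w0 + J' ≤ J), J' ≤ X + D ∧
        (∃ k ≤ n, J' = min (k * ⌊κ / 12 * J⌋₊) (X + D)) ∧
        a * ((X : ℝ) + D) ≤ 3 * Real.log 2 * J' ∧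
        ∀ (ψ e : ℝ) (B : F.Ω → Prop), Sub B A' →
          Real.exp (-(ψ * J)) * Pe F.p A' ≤ Pe F.p B →
          J * Real.log 2 - e ≤ CH (Pool.Agent.H49.Ent.cond F.p B True) F.T
            (fun ω => (F.l ω, F.Z ω)) →
          ∀ p ≤ J', CH (Pool.Agent.H49.Ent.cond F.p B True)
            ((F.zm w0 J' h (pkC lam0 (Q0 - w0) i0 iu) (fun ω => fr (y0 ω))).X J')
            (fun ω => ((F.zm w0 J' h (pkC lam0 (Q0 - w0) i0 iu) (fun ω => fr (y0 ω))).X p ω,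
              (F.zm w0 J' h (pkC lam0 (Q0 - w0) i0 iu) (fun ω => fr (y0 ω))).W ω)) ≤
            (3 * Real.log 2 - a) * ((J' : ℝ) - p) + (ψ + κ) * J + e := by
  classical
  obtain ⟨κ₁, hκ₁⟩ : ∃ κ₁, κ₁ = κ / 12 := ⟨_, rfl⟩
  have hκ₁0 : 0 < κ₁ := by rw [hκ₁]; positivity
  obtain ⟨n, hn⟩ := exists_nat_ge (2 / κ₁)
  obtain ⟨N, hN1, hreg⟩ := reg (n + 1) (M := 6) (κ := κ / 8) (by norm_num) (by positivity)
  have hN0 : 0 < N := by linarith
  have hlN : 0 ≤ Real.log N := Real.log_nonneg hN1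
  obtain ⟨c1, hc1⟩ : ∃ c1, c1 = cz := ⟨_, rfl⟩
  obtain ⟨c2, hc2⟩ : ∃ c2, c2 = 2 * Real.log N + 6 * Real.log 17 + 6 * Real.log 5 := ⟨_, rfl⟩
  obtain ⟨J₁, hJ₁⟩ := exists_nat_ge (max (max 3 (2 / κ₁)) (max (Real.log N / δ)
    (max (c1 / κ) (2 * c2 / κ))))
  refine ⟨n, J₁, ?_⟩
  intro J hJ F A hA i0 iu iN y0 y1 w0 lam0 Q0 P0 w1 U1 Q1 P1 X D K a r ε hZ ha ha3 hnum hrow
  have hJr : max (max 3 (2 / κ₁)) (max (Real.log N / δ) (max (c1 / κ) (2 * c2 / κ))) ≤ (J : ℝ) :=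
    hJ₁.trans (by exact_mod_cast hJ)
  have j1 : (3 : ℝ) ≤ J := ((le_max_left _ _).trans (le_max_left _ _)).trans hJr
  have j2 : 2 / κ₁ ≤ J := ((le_max_right _ _).trans (le_max_left _ _)).trans hJr
  have j3 : Real.log N / δ ≤ J := ((le_max_left _ _).trans (le_max_right _ _)).trans hJr
  have j4 : c1 / κ ≤ J :=
    (((le_max_left _ _).trans (le_max_right _ _)).trans (le_max_right _ _)).trans hJr
  have j5 : 2 * c2 / κ ≤ J :=
    (((le_max_right _ _).trans (le_max_right _ _)).trans (le_max_right _ _)).trans hJr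
  rw [div_le_iff₀ hκ₁0] at j2
  rw [div_le_iff₀ hδ] at j3
  rw [div_le_iff₀ hκ] at j4 j5
  have hJ0 : (0 : ℝ) < J := by linarith
  have hp := F.isLaw
  obtain ⟨r0, hr0, l0⟩ := hZ.l0
  have hi := l0.cov
  have hw0Q : w0 ≤ Q0 := by
    have := l0.wP
    omega
  have hXD : w0 + (X + D) ≤ J := by
    have h1 := hZ.hU
    have h2 := hZ.UQ
    have h3 := hZ.QP
    have h4 := hZ.hP
    have h5 := hZ.PJ
    omega
  have hw0J : w0 ≤ J := by omega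
  -- the grid
  obtain ⟨g, hg⟩ : ∃ g, g = ⌊κ₁ * J⌋₊ := ⟨_, rfl⟩
  have hg1 : (g : ℝ) ≤ κ₁ * J := by
    rw [hg]
    exact Nat.floor_le (by positivity)
  have hg2 : κ₁ * J < g + 1 := by
    rw [hg]
    exact Nat.lt_floor_add_one _
  have hng : X + D ≤ n * g := by
    have h1 : (J : ℝ) ≤ n * g := by
      have h2 : κ₁ * J / 2 ≤ g := by linarith
      have h3 : 2 / κ₁ * (κ₁ * J / 2) = J := by field_simp
      rw [← h3]
      exact mul_le_mul hn h2 (by positivity) (Nat.cast_nonneg n)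
    have h2 : J ≤ n * g := by exact_mod_cast h1
    omega
  obtain ⟨τ, hτ⟩ : ∃ τ : ℕ → ℕ, τ = fun k => min (k * g) (X + D) := ⟨_, rfl⟩
  have hτn : τ n = X + D := by
    rw [hτ]
    exact min_eq_right hng
  have hτle : ∀ k, τ k ≤ X + D := fun k => by
    rw [hτ]
    exact min_le_right _ _
  have hτm : ∀ k k', k ≤ k' → τ k ≤ τ k' := fun k k' hkk => by
    rw [hτ]
    exact min_le_min (Nat.mul_le_mul_right g hkk) le_rfl
  -- the zoomed point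
  obtain ⟨v, hv⟩ : ∃ v, v = zpv F i0 iu w0 lam0 Q0 y0 := ⟨_, rfl⟩
  obtain ⟨U, hU⟩ : ∃ U, U = fun ω => (pB F i0 iu w0 lam0 Q0 y0 ω, F.W ω) := ⟨_, rfl⟩
  obtain ⟨A', hsub, hPA, hx, hreg'⟩ := hreg F.Ω (Fin 3 → ℤ) _ F.p hp A hA J hJ0
    (fun k ω => fl (τ k) (v ω)) (fun _ => U) (fun k => by
      have h1 := zv_size F (isLaw_cond hp hA) hw0J (pC i0 iu w0 lam0 Q0) (fun ω => fr (y0 ω))
        (τ k)
      rw [hv, hU]
      refine h1.trans ?_
      have h2 : (τ k : ℝ) ≤ J := by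
        have h3 := hτle k
        have h4 : τ k ≤ J := by omega
        exact_mod_cast h4
      push_cast
      linarith)
  have hA'0 : 0 < Pe F.p A' := by
    by_contra hcon
    push Not at hcon
    have h1 : N * Pe F.p A' ≤ 0 := mul_nonpos_of_nonneg_of_nonpos hN0.le hcon
    linarith
  have hNe : N ≤ Real.exp (δ * J) := by
    calc N = Real.exp (Real.log N) := (Real.exp_log hN0).symm
      _ ≤ _ := Real.exp_le_exp.2 (by linarith)
  have hPA' : Real.exp (-(δ * J)) * Pe F.p A ≤ Pe F.p A' := by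
    have h1 : Pe F.p A ≤ Real.exp (δ * J) * Pe F.p A' :=
      hPA.trans (mul_le_mul_of_nonneg_right hNe hA'0.le)
    calc Real.exp (-(δ * J)) * Pe F.p A ≤ Real.exp (-(δ * J)) *
          (Real.exp (δ * J) * Pe F.p A') := mul_le_mul_of_nonneg_left h1 (Real.exp_pos _).le
      _ = Pe F.p A' := by rw [← mul_assoc, ← Real.exp_add, neg_add_cancel, Real.exp_zero, one_mul]
  have hlPA : Real.log (Pe F.p A / Pe F.p A') ≤ Real.log N := by
    refine Real.log_le_log (div_pos hA hA'0) ?_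
    rw [div_le_iff₀ hA'0]
    exact hPA
  have hq := isLaw_cond hp hA'0
  have hqA : ∀ ω, 0 < Pool.Agent.H49.Ent.cond F.p A' True ω → A ω := fun ω hω =>
    hsub ω (of_eq_true ((cond_pos_iff hp.nonneg A' True ω).1 hω).2)
  have hdz := pzd_dz hZ hq hqA (hrow A' hsub hPA')
  rw [← hv, ← hU, ← hc1] at hdz
  have hXDr : ((X + D : ℕ) : ℝ) = (X : ℝ) + D := by push_cast; ring
  obtain ⟨Y, hYS, hY1, hY2⟩ := t6 hq v U (Finset.univ.image fun k : Fin (n + 1) => τ k)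
    (Y' := X + D) (a := a) (Finset.mem_image.2 ⟨Fin.last n, Finset.mem_univ _, hτn⟩) ha (by
      rw [hXDr]
      linarith)
  obtain ⟨k', -, hk'⟩ := Finset.mem_image.1 hYS
  have hYle : Y ≤ X + D := by
    rw [← hk']
    exact hτle _
  refine ⟨A', hsub, hPA', Y, by omega, hYle, ⟨k', by omega, ?_⟩, ?_, ?_⟩
  · rw [← hk', ← hκ₁, ← hg, hτ]
  · rw [hXDr] at hY1
    push_cast at hY1
    exact hY1
  intro ψ e B hB hBP hTm p hpY
  have hB0 : 0 < Pe F.p B := lt_of_lt_of_le (mul_pos (Real.exp_pos _) hA'0) hBP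
  have hr := isLaw_cond hp hB0
  have hlPB : Real.log (Pe F.p A / Pe F.p B) ≤ Real.log N + ψ * J := by
    have h1 : Pe F.p A / Pe F.p B = Pe F.p A / Pe F.p A' * (Pe F.p A' / Pe F.p B) := by
      field_simp
    rw [h1, Real.log_mul (div_pos hA hA'0).ne' (div_pos hA'0 hB0).ne']
    have h2 : Real.log (Pe F.p A' / Pe F.p B) ≤ ψ * J := by
      rw [Real.log_le_iff_le_exp (div_pos hA'0 hB0), div_le_iff₀ hB0]
      calc Pe F.p A' = Real.exp (ψ * J) * (Real.exp (-(ψ * J)) * Pe F.p A') := by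
            rw [← mul_assoc, ← Real.exp_add, add_neg_cancel, Real.exp_zero, one_mul]
        _ ≤ _ := mul_le_mul_of_nonneg_left hBP (Real.exp_pos _).le
    linarith
  -- the grid time above `p`
  have hpk : p ≤ (k' : ℕ) * g := by
    refine hpY.trans ?_
    rw [← hk', hτ]
    exact min_le_left _ _
  obtain ⟨k, hkk', hk1, hk2⟩ := grid_up hpk
  have hpτ : p ≤ τ k := by
    rw [hτ]
    exact le_min hk1 (hpY.trans hYle)
  have hτp : τ k ≤ p + g := by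
    refine le_trans ?_ hk2
    rw [hτ]
    exact min_le_left _ _
  have hτY : τ k ≤ Y := by
    rw [← hk']
    exact hτm _ _ hkk'
  have hkn : k < n + 1 := by
    have := k'.2
    omega
  obtain ⟨kf, hkf⟩ : ∃ kf : Fin (n + 1), (kf : ℕ) = k := ⟨⟨k, hkn⟩, rfl⟩
  -- regularity
  have a1 := (hreg' B hB hB0 k').2
  have a2 := (hreg' B hB hB0 kf).1
  have a3 := (hreg' A' (fun _ h => h) hA'0 k').1
  have a4 := (hreg' A' (fun _ h => h) hA'0 kf).2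
  simp only [hk', hkf] at a1 a2 a3 a4
  obtain ⟨μ, hμ⟩ : ∃ μ, μ = Pool.Agent.H49.Ent.cond F.p B True := ⟨_, rfl⟩
  obtain ⟨q, hqd⟩ : ∃ q, q = Pool.Agent.H49.Ent.cond F.p A' True := ⟨_, rfl⟩
  rw [← hμ] at a1 a2 hr
  rw [← hqd] at a3 a4 hq hY2
  have b1 := ch_split hr (fun ω => fl Y (v ω)) (fun ω => fl (τ k) (v ω)) U
    (fun ω ω' _ _ h => fl_fl hτY (Prod.ext_iff.1 h).1)
  have b2 := ch_split hq (fun ω => fl Y (v ω)) (fun ω => fl (τ k) (v ω)) U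
    (fun ω ω' _ _ h => fl_fl hτY (Prod.ext_iff.1 h).1)
  have b3 := hY2 (τ k) (Finset.mem_image.2 ⟨kf, Finset.mem_univ _, by rw [hkf]⟩) hτY
  have b4 := CH_le_add hr.nonneg (fun ω => fl Y (v ω)) (fun ω => fl (τ k) (v ω))
    (fun ω => (fl p (v ω), U ω))
  have b5 : CH μ (fun ω => fl Y (v ω)) (fun ω => (fl (τ k) (v ω), (fl p (v ω), U ω))) ≤
      CH μ (fun ω => fl Y (v ω)) (fun ω => (fl (τ k) (v ω), U ω)) :=
    CH_mono_cond hr.nonneg fun ω ω' _ _ hh => by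
      have c0 := Prod.ext_iff.1 hh
      exact Prod.ext c0.1 (Prod.ext_iff.1 c0.2).2
  have b6 : CH μ (fun ω => fl (τ k) (v ω)) (fun ω => (fl p (v ω), U ω)) ≤
      3 * (((τ k : ℝ) - p) * Real.log 2) := by
    obtain ⟨j, hj⟩ := Nat.exists_eq_add_of_le hpτ
    have h1 := TRC.CH_floor hr v U p j
    rw [← hj] at h1
    have h2 : (τ k : ℝ) - p = j := by
      rw [hj]
      push_cast
      ring
    rw [h2]
    push_cast at h1
    exact h1
  -- the zoom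
  have hgd : Det (F.res B True (isLaw_cond hp hB0)).p (wnd (F.res B True (isLaw_cond hp hB0)) w0)
      (fun ω => fr (y0 ω)) := by
    intro ω ω' hω hω' hh
    have h1 := (cond_pos_iff hp.nonneg B True ω).1 hω
    have h2 := (cond_pos_iff hp.nonneg B True ω').1 hω'
    have g1 : A ω := hsub ω (hB ω (of_eq_true h1.2))
    have g2 : A ω' := hsub ω' (hB ω' (of_eq_true h2.2))
    obtain ⟨φ, hφ⟩ := l0.con
    have c0 := Prod.ext_iff.1 hh
    have c1 := Prod.ext_iff.1 c0.2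
    have c2 : F.l ω = F.l ω' := c0.1
    have c3 : F.T1 w0 ω = F.T1 w0 ω' := c1.1
    have c4 : F.Z ω = F.Z ω' := c1.2
    have c5 : slam F w0 ω = slam F w0 ω' := Prod.ext c2 (Prod.ext c4 c3)
    change fr (y0 ω) = fr (y0 ω')
    rw [hφ ω g1, hφ ω' g2, c5]
  have hTm' : (F.res B True (isLaw_cond hp hB0)).Tm e := hTm
  have hYJ : w0 + Y ≤ J := by omega
  have key := zm_row (F.res B True (isLaw_cond hp hB0)) hYJ hpY (pC i0 iu w0 lam0 Q0)
    (fun ω => fr (y0 ω)) hgd hTm'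
  have key' : CH (Pool.Agent.H49.Ent.cond F.p B True)
      ((F.zm w0 Y hYJ (pkC lam0 (Q0 - w0) i0 iu) (fun ω => fr (y0 ω))).X Y)
      (fun ω => ((F.zm w0 Y hYJ (pkC lam0 (Q0 - w0) i0 iu) (fun ω => fr (y0 ω))).X p ω,
        (F.zm w0 Y hYJ (pkC lam0 (Q0 - w0) i0 iu) (fun ω => fr (y0 ω))).W ω)) ≤
      CH μ (fun ω => fl Y (v ω)) (fun ω => (fl p (v ω), U ω)) +
        (e + 2 * ((3 : ℕ) * Real.log 17) + 2 * ((3 : ℕ) * Real.log 5)) := by
    rw [hμ, hv, hU]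
    exact key
  refine key'.trans ?_
  have d1 : (g : ℝ) ≤ κ / 12 * J := by
    rw [← hκ₁]
    exact hg1
  have d2 : (τ k : ℝ) - p ≤ g := by
    have : ((τ k : ℕ) : ℝ) ≤ ((p + g : ℕ) : ℝ) := by exact_mod_cast hτp
    push_cast at this
    linarith
  have d3 : 0 ≤ (τ k : ℝ) - p := by
    have : (p : ℝ) ≤ τ k := by exact_mod_cast hpτ
    linarith
  have d4 : a * ((τ k : ℝ) - p) ≤ 3 * (κ / 12 * J) := by
    have h1 : Real.log 2 ≤ 1 := by
      have := Real.log_two_lt_d9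
      linarith
    have h2 : a ≤ 3 := by linarith
    have h3 : a * ((τ k : ℝ) - p) ≤ 3 * ((τ k : ℝ) - p) := mul_le_mul_of_nonneg_right h2 d3
    linarith
  have d5 : 3 * (((τ k : ℝ) - p) * Real.log 2) + (3 * Real.log 2 - a) * ((Y : ℝ) - τ k) =
      (3 * Real.log 2 - a) * ((Y : ℝ) - p) + a * ((τ k : ℝ) - p) := by ring
  push_cast at b3 ⊢
  linarith

end Pool.ZT
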