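import Pool.Agent.H4.KS6.PZT

/-!
# The tail of the plank zoom, for two labels in one normal form
-/

set_option autoImplicit false

namespace Pool.ZT

open Finset Real
open Pool.Agent.H49.Ent Pool.Agent.H32.Dense Pool.STK Pool.KA Pool.KSAT Pool.K2S Pool.PB Pool.KS6
open Pool.ZCL Pool.PZ Pool.S6C

theorem pw_le {a b a' b' K : ℕ} (h : a + b' ≤ K + a' + b) :
    (2 : ℝ) ^ a / 2 ^ b ≤ 2 ^ K * 2 ^ a' / 2 ^ b' := by
  rw [div_le_div_iff₀ (by positivity) (by positivity), ← pow_add, ← pow_add, ← pow_add]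
  exact pow_le_pow_right₀ (by norm_num) (by omega)

theorem fac {Ω U Λ : Type} [Nonempty Λ] (B : Ω → Prop) (g : Ω → U) (y : Ω → Λ)
    (h : ∀ ω ω', B ω → B ω' → g ω = g ω' → y ω = y ω') : ∃ φ : U → Λ, ∀ ω, B ω → y ω = φ (g ω) := by
  classical
  refine ⟨fun u => if hu : ∃ ω, B ω ∧ g ω = u then y hu.choose else Classical.arbitrary Λ,
    fun ω hω => ?_⟩
  have hu : ∃ ω', B ω' ∧ g ω' = g ω := ⟨ω, hω, rfl⟩
  simp only
  rw [dif_pos hu]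
  exact h ω _ hω hu.choose_spec.1 hu.choose_spec.2.symm

instance : Nonempty Pln := ⟨⟨0, 0, 0, fun _ => 0, fun _ => 0⟩⟩

section one

variable {J : ℕ} {F : Fam 3 J} {i0 iu iN : Fin 3}
  {r0 r1 w0 l0 p0 w1 l1 p1 q k lam : ℕ} {y0 y1 yz : F.Ω → Pln} {A : F.Ω → Prop}

/-- The frames of the labels. -/
theorem n3_nfr (h : N2 F i0 iu iN r0 r1 w0 l0 p0 w1 l1 p1 q k y0 y1 A)
    (hz : ∀ ω, A ω → (yz ω).c = (y0 ω).c ∧ (yz ω).s = (y0 ω).s ∧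
      |(yz ω).e - (y0 ω).e| ≤ 2 ^ k / 2 ^ lam) {X K : ℕ} (hX : r1 = r0 + X)
    (hw : w0 + X ≤ w1) (hp0 : p0 ≤ r0) (hp1 : p1 ≤ r1) (hl : l0 ≤ l1) (hlam : lam ≤ l0)
    (hK : K = 2 * k + 3 + (r0 - p0) + (r1 - p1) + (w1 - (w0 + X))) {ω : F.Ω} (hω : A ω) :
    Nfr (yz ω) (y1 ω) w0 (w0 + lam) (w0 + X) (w1 + l1) r1 K := by
  obtain ⟨zc, zs, ze⟩ := hz ω hω
  obtain ⟨K', hK'⟩ : ∃ K', K = K' + 2 := ⟨K - 2, by omega⟩
  have four : ∀ T : ℝ, 0 ≤ T → 3 * (2 ^ K' * T) ≤ 2 ^ K * T := by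
    intro T hT
    rw [hK', pow_add]
    have : 0 ≤ 2 ^ K' * T := by positivity
    nlinarith only [this]
  have n1e := h.n1e ω hω
  have n1s := h.n1s ω hω
  have n1c := h.n1c ω hω
  refine ⟨?_, ?_, ?_⟩
  · -- the slope
    have a1 : (2 : ℝ) ^ k / 2 ^ lam ≤ 2 ^ K' * 2 ^ w0 / 2 ^ (w0 + lam) := pw_le (by omega)
    have a2 : (2 : ℝ) ^ k / 2 ^ l0 ≤ 2 ^ K' * 2 ^ w0 / 2 ^ (w0 + lam) := pw_le (by omega)
    have a3 : (2 : ℝ) ^ k / 2 ^ l1 ≤ 2 ^ K' * 2 ^ w0 / 2 ^ (w0 + lam) := pw_le (by omega)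
    have a4 := four (2 ^ w0 / 2 ^ (w0 + lam)) (by positivity)
    have e1 : (yz ω).e - (y1 ω).e = ((yz ω).e - (y0 ω).e) + ((y0 ω).e - (y1 ω).e) := by ring
    rw [e1]
    refine (abs_add_le _ _).trans ?_
    have e2 : (2 : ℝ) ^ k * (1 / 2 ^ l0 + 1 / 2 ^ l1) = 2 ^ k / 2 ^ l0 + 2 ^ k / 2 ^ l1 := by
      ring
    rw [e2] at n1e
    have e3 : ∀ n : ℕ, (2 : ℝ) ^ n * 2 ^ w0 / 2 ^ (w0 + lam) =
        2 ^ n * (2 ^ w0 / 2 ^ (w0 + lam)) := fun n => by ring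
    rw [e3] at a1 a2 a3 ⊢
    linarith only [ze, n1e, a1, a2, a3, a4]
  · -- the second coefficient
    have a1 : (2 : ℝ) ^ (k + l1 + w0) / 2 ^ p0 ≤ 2 ^ K' * 2 ^ (w1 + l1) / 2 ^ r1 :=
      pw_le (by omega)
    have a2 : (2 : ℝ) ^ (k + l1 + w1) / 2 ^ p1 ≤ 2 ^ K' * 2 ^ (w1 + l1) / 2 ^ r1 :=
      pw_le (by omega)
    have a4 := four (2 ^ (w1 + l1) / 2 ^ r1) (by positivity)
    rw [zs]
    have e2 : (2 : ℝ) ^ k * (2 ^ l1 * (2 ^ w0 / 2 ^ p0 + 2 ^ w1 / 2 ^ p1)) =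
        2 ^ (k + l1 + w0) / 2 ^ p0 + 2 ^ (k + l1 + w1) / 2 ^ p1 := by
      rw [pow_add, pow_add, pow_add, pow_add]
      ring
    rw [e2] at n1s
    have e3 : ∀ n : ℕ, (2 : ℝ) ^ n * 2 ^ (w1 + l1) / 2 ^ r1 =
        2 ^ n * (2 ^ (w1 + l1) / 2 ^ r1) := fun n => by ring
    rw [e3] at a1 a2 ⊢
    have a5 : 0 ≤ (2 : ℝ) ^ K' * (2 ^ (w1 + l1) / 2 ^ r1) := by positivity
    linarith only [n1s, a1, a2, a4, a5]
  · -- the first coefficient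
    have a1 : (2 : ℝ) ^ (k + w0) / 2 ^ p0 ≤ 2 ^ K' * 2 ^ (w0 + X) / 2 ^ r1 :=
      pw_le (by omega)
    have a2 : (2 : ℝ) ^ (k + w1) / 2 ^ p1 ≤ 2 ^ K' * 2 ^ (w0 + X) / 2 ^ r1 :=
      pw_le (by omega)
    have a4 := four (2 ^ (w0 + X) / 2 ^ r1) (by positivity)
    rw [zs, zc]
    have e2 : (2 : ℝ) ^ k * (2 ^ w0 / 2 ^ p0 + 2 ^ w1 / 2 ^ p1) =
        2 ^ (k + w0) / 2 ^ p0 + 2 ^ (k + w1) / 2 ^ p1 := by
      rw [pow_add, pow_add]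
      ring
    rw [e2] at n1c
    have e3 : ∀ n : ℕ, (2 : ℝ) ^ n * 2 ^ (w0 + X) / 2 ^ r1 =
        2 ^ n * (2 ^ (w0 + X) / 2 ^ r1) := fun n => by ring
    rw [e3] at a1 a2 ⊢
    have a5 : 0 ≤ (2 : ℝ) ^ K' * (2 ^ (w0 + X) / 2 ^ r1) := by positivity
    linarith only [n1c, a1, a2, a4, a5]

/-- The labels and the numbers of the plank zoom. -/
theorem n3_pzd (h : N2 F i0 iu iN r0 r1 w0 l0 p0 w1 l1 p1 q k y0 y1 A)
    (hf : PzF F i0 iu iN r0 w0 lam p0 yz A)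
    (hz : ∀ ω, A ω → (yz ω).c = (y0 ω).c ∧ (yz ω).s = (y0 ω).s ∧
      |(yz ω).e - (y0 ω).e| ≤ 2 ^ k / 2 ^ lam) {X D K : ℕ} (hX : r1 = r0 + X)
    (hw : w0 + X ≤ w1) (hD : w1 + l1 = w0 + lam + (X + D)) (hp0 : p0 ≤ r0) (hp1 : p1 ≤ r1)
    (hp : p0 ≤ p1) (hl : l0 ≤ l1) (hlam : lam ≤ l0) (hUQ : w1 + l1 ≤ p0) (hJ : r1 ≤ J)
    (hK : K = 2 * k + 3 + (r0 - p0) + (r1 - p1) + (w1 - (w0 + X))) :
    Pzd F i0 iu iN yz y1 w0 lam p0 r0 (w0 + X) (w1 + l1) p1 r1 X D K A where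
  l0 := ⟨r0, le_rfl, hf⟩
  i1 := fun ω hω => by
    have a := h.i1 ω hω
    exact ⟨a.e_le, a.c_le, a.s_le, a.pe.trans (div_le_div_of_nonneg_left (by norm_num)
      (by positivity) (pow_le_pow_right₀ (by norm_num) hw)), a.pu, a.pn⟩
  v1 := h.v1
  nf := fun ω hω => n3_nfr h hz hX hw hp0 hp1 hl hlam hK hω
  PJ := hJ
  hw := rfl
  hU := hD
  hP := hX
  wU := by omega
  UQ := hUQ
  QP := hp0
  QQ := hp
  QP1 := hp1
  K0 := by omega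
  K1 := by omega

/-- The rows. -/
theorem n3_rws (h : N2 F i0 iu iN r0 r1 w0 l0 p0 w1 l1 p1 q k y0 y1 A)
    (hf : PzF F i0 iu iN r0 w0 lam p0 yz A) {X : ℕ} (hX : r1 = r0 + X)
    (hw : w0 + X ≤ w1) {ε r : ℝ} (hwε : (w1 : ℝ) ≤ w0 + X + ε * J) (hp0 : p0 ≤ r0)
    (hp1 : p1 ≤ r1) (hr1J : r1 ≤ J) (hw1J : w1 ≤ J) (hεr : ε * J ≤ r / 2 * X)
    {B : F.Ω → Prop} (hB : Sub B A)
    (f1 : Ful F w1 p1 ((2 * (r1 : ℝ) - 2 * w1 - l1) * Real.log 2 - ε * J) B)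
    (f0 : Ful F w1 p0 ((2 * (r0 : ℝ) - 2 * w1 - l1) * Real.log 2 - ε * J) B)
    (hr : CH (Pool.Agent.H49.Ent.cond F.p B True) (F.X r1) F.W -
        CH (Pool.Agent.H49.Ent.cond F.p B True) (F.X r0) F.W ≤
        (3 * Real.log 2 - r) * ((r1 : ℝ) - r0) + ε * J) :
    Rws F yz y1 (w0 + X) (w1 + l1) r0 r1 X (r / 2) (2 * ε)
      (Pool.Agent.H49.Ent.cond F.p B True) := by
  have hn := cond_nonneg F.isLaw.nonneg B True
  have hrow : ∀ {p r : ℕ} {S : Type} (V : F.Ω → S), p ≤ r →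
      CH (Pool.Agent.H49.Ent.cond F.p B True) (F.X p) V ≤
      CH (Pool.Agent.H49.Ent.cond F.p B True) (F.X r) V := fun V hpr =>
    CH_mono_left hn fun ω ω' _ _ hh => Pool.STK.B58.fl_fine hpr (Prod.ext_iff.1 hh).1
  have hpt : ∀ {r : ℕ}, r ≤ J → ∀ ω ω' : F.Ω, Fam.pt F ω = Fam.pt F ω' →
      ptr F r ω = ptr F r ω' := by
    intro r hr ω ω' hh
    have g1 : F.X J ω = F.X J ω' := (Prod.ext_iff.1 hh).1
    have g2 : F.W ω = F.W ω' := (Prod.ext_iff.1 hh).2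
    exact Prod.ext (Pool.STK.B58.fl_fine hr g1) g2
  have hsl : ∀ ω ω' : F.Ω, slam F w1 ω = slam F w1 ω' → slam F w0 ω = slam F w0 ω' := by
    intro ω ω' hh
    have g0 := Prod.ext_iff.1 hh
    have g1 := Prod.ext_iff.1 g0.2
    have g2 : F.T1 w1 ω = F.T1 w1 ω' := g1.2
    obtain ⟨n, hn⟩ := Nat.exists_eq_add_of_le (by omega : w0 ≤ w1)
    have g3 : F.T1 w0 ω = F.T1 w0 ω' := by
      rw [hn] at g2 hw1J
      rw [Pool.KSAT.T1_div F hw1J ω, Pool.KSAT.T1_div F hw1J ω', g2]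
    exact Prod.ext g0.1 (Prod.ext g1.1 g3)
  obtain ⟨φ1, hφ1⟩ := h.v1
  obtain ⟨ψ1, hψ1⟩ := h.c1
  obtain ⟨φz, hφz⟩ := hf.vis
  obtain ⟨ψz, hψz⟩ := hf.con
  have hr0J : r0 ≤ J := h.rJ
  have l2 : Real.log 2 ≤ 1 := by
    have := Real.log_two_lt_d9
    linarith only [this]
  have l20 : 0 < Real.log 2 := Real.log_pos one_lt_two
  have wr : (w0 : ℝ) + X ≤ w1 := by exact_mod_cast hw
  have hwl : ((w1 : ℝ) - (w0 + X)) * Real.log 2 ≤ ε * J := by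
    have h1 : (w1 : ℝ) - (w0 + X) ≤ ε * J := by linarith only [hwε]
    have h2 : 0 ≤ (w1 : ℝ) - (w0 + X) := by linarith only [wr]
    nlinarith only [hwε, l2, wr]
  have g1 := f1 Pln y1 (fac B (Fam.pt F) y1 fun ω ω' a b hh => by
      rw [hφ1 ω (hB ω a), hφ1 ω' (hB ω' b), hpt hr1J ω ω' hh])
    (fac B (slam F w1) y1 fun ω ω' a b hh => by
      rw [hψ1 ω (hB ω a), hψ1 ω' (hB ω' b), hh])
  have g0 := f0 (Pln × Pln) (fun ω => (yz ω, y1 ω))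
    (fac B (Fam.pt F) (fun ω => (yz ω, y1 ω)) fun ω ω' a b hh => by
      rw [hφz ω (hB ω a), hφz ω' (hB ω' b), hφ1 ω (hB ω a), hφ1 ω' (hB ω' b),
        hpt hr0J ω ω' hh, hpt hr1J ω ω' hh])
    (fac B (slam F w1) (fun ω => (yz ω, y1 ω)) fun ω ω' a b hh => by
      rw [hψz ω (hB ω a), hψz ω' (hB ω' b), hψ1 ω (hB ω a), hψ1 ω' (hB ω' b), hh,
        hsl ω ω' hh])
  have m1 := g1.trans (hrow (fun ω => (y1 ω, F.W ω)) hp1)
  have m0 := g0.trans (hrow (fun ω => ((yz ω, y1 ω), F.W ω)) hp0)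
  refine ⟨?_, ?_, ?_⟩
  · refine le_trans ?_ m1
    push_cast
    have e : ((r1 : ℝ) - (w0 + X) + (r1 - (w1 + l1))) * Real.log 2 =
        (2 * (r1 : ℝ) - 2 * w1 - l1) * Real.log 2 + ((w1 : ℝ) - (w0 + X)) * Real.log 2 := by ring
    rw [e]
    linarith only [hwl]
  · refine le_trans ?_ m0
    push_cast
    have e : ((r0 : ℝ) - (w0 + X) + (r0 - (w1 + l1))) * Real.log 2 =
        (2 * (r0 : ℝ) - 2 * w1 - l1) * Real.log 2 + ((w1 : ℝ) - (w0 + X)) * Real.log 2 := by ring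
    rw [e]
    linarith only [hwl]
  · have e : (r1 : ℝ) - r0 = X := by
      rw [hX]
      push_cast
      ring
    rw [e] at hr
    refine hr.trans ?_
    have e2 : (3 * Real.log 2 - r / 2) * (X : ℝ) = (3 * Real.log 2 - r) * X + r / 2 * X := by
      ring
    rw [e2]
    linarith only [hεr]

end one

/-- **(PZT)** The tail of the plank zoom. -/
theorem pzt_thm : PZTStmt := by
  refine ⟨1, le_rfl, ?_⟩
  intro x d r hx hd hr
  have hrx : 0 < r * x := mul_pos hr hx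
  obtain ⟨a, ha⟩ : ∃ a, a = min 1 (r * x / (64 * (2 * x + d))) := ⟨_, rfl⟩
  have ha0 : 0 < a := by rw [ha]; exact lt_min one_pos (by positivity)
  have ha1 : a ≤ 1 := by rw [ha]; exact min_le_left _ _
  have ha2 : 2 * a * (2 * x + d) ≤ r * x / 32 := by
    have h1 : a ≤ r * x / (64 * (2 * x + d)) := by rw [ha]; exact min_le_right _ _
    rw [le_div_iff₀ (by positivity)] at h1
    linarith only [h1]
  obtain ⟨ε, hε⟩ : ∃ ε, ε = min (x / 4) (r * x / 8000) := ⟨_, rfl⟩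
  have hε0 : 0 < ε := by rw [hε]; exact lt_min (by positivity) (by positivity)
  have hε1 : ε ≤ x / 4 := by rw [hε]; exact min_le_left _ _
  have hε2 : ε ≤ r * x / 8000 := by rw [hε]; exact min_le_right _ _
  refine ⟨ε, a * x / 4, a, hε0, by positivity, ha0, fun κ δ hκ hδ => ?_⟩
  obtain ⟨κ₁, hκ₁⟩ : ∃ κ₁, κ₁ = min κ (r * x / 32) := ⟨_, rfl⟩
  have hκ₁0 : 0 < κ₁ := by rw [hκ₁]; exact lt_min hκ (by positivity)
  have hκ₁1 : κ₁ ≤ κ := by rw [hκ₁]; exact min_le_left _ _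
  have hκ₁2 : κ₁ ≤ r * x / 32 := by rw [hκ₁]; exact min_le_right _ _
  obtain ⟨n, J₂, hmain⟩ := pzt hκ₁0 hδ
  obtain ⟨J₃, hJ₃⟩ := exists_nat_ge (144 * 32 / (r * x))
  refine ⟨max J₂ J₃, ?_⟩
  intro J hJ F i₀ iu iN r₀ r₁ w₀ l₀ p₀ w₁ l₁ p₁ q k lam y0 y1 yz A hA hN hF hfr hrr hw hwe hp0
    hpp hp0e hp1 hp1e hke hll hlle hlam hlame hUQ hend hrow
  have hJ2 : J₂ ≤ J := (le_max_left _ _).trans hJ
  have hJ3 : 144 * 32 / (r * x) ≤ J := hJ₃.trans (by exact_mod_cast (le_max_right _ _).trans hJ)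
  rw [div_le_iff₀ hrx] at hJ3
  have hJr : (0 : ℝ) ≤ J := Nat.cast_nonneg J
  have hεJ : 0 ≤ ε * (J : ℝ) := by positivity
  have hεJx : ε * (J : ℝ) ≤ x / 4 * J := mul_le_mul_of_nonneg_right hε1 hJr
  have hεJr : ε * (J : ℝ) ≤ r * x / 8000 * J := mul_le_mul_of_nonneg_right hε2 hJr
  rw [abs_le] at hrr
  have hrr1 : (r₀ : ℝ) ≤ r₁ := by
    have : 0 ≤ x * (J : ℝ) := by positivity
    linarith only [hrr, hεJx, hrr.1]
  have hrr2 : r₀ ≤ r₁ := by exact_mod_cast hrr1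
  obtain ⟨X, hX⟩ := Nat.exists_eq_add_of_le hrr2
  have hXr : (r₁ : ℝ) - r₀ = X := by
    rw [hX]
    push_cast
    ring
  rw [hXr] at hrr
  have hX1 : 3 / 4 * x * J ≤ X := by linarith only [hεJx, hrr, hrr.1]
  have hX2 : (X : ℝ) ≤ x * J + ε * J := by linarith only [hrr, hrr.2]
  have hwX : w₀ + X ≤ w₁ := by omega
  have hweX : (w₁ : ℝ) ≤ w₀ + X + ε * J := by linarith only [hwe, hXr]
  obtain ⟨D, hD⟩ := Nat.exists_eq_add_of_le (by omega : w₀ + lam + X ≤ w₁ + l₁)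
  have hDr : (w₁ : ℝ) + l₁ = w₀ + lam + (X + D) := by
    have : ((w₁ + l₁ : ℕ) : ℝ) = ((w₀ + lam + X + D : ℕ) : ℝ) := by exact_mod_cast hD
    push_cast at this
    linarith only [this]
  have hXD : (X : ℝ) + D ≤ (2 * x + d) * J := by
    have : (X : ℝ) + D ≤ (x + d) * J + 3 * (ε * J) := by nlinarith only [hwe, hlle, hlame, hrr, hXr, hDr]
    nlinarith only [hwe, hke, hlle, hlame, hεJx, hrr, hXr, hDr]
  have hr1J : r₁ ≤ J := by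
    have h1 : (r₁ : ℝ) ≤ J := by
      have h2 : 0 ≤ (D : ℝ) := Nat.cast_nonneg D
      linarith only [hwe, hke, hlle, hlame, hend, hεJx, hrr, hXr, hDr]
    exact_mod_cast h1
  have hw1J : w₁ ≤ J := by omega
  obtain ⟨K, hK⟩ : ∃ K, K = 2 * k + 3 + (r₀ - p₀) + (r₁ - p₁) + (w₁ - (w₀ + X)) := ⟨_, rfl⟩
  have hKr : (K : ℝ) ≤ 5 * (ε * J) + 3 := by
    rw [hK]
    push_cast [Nat.cast_sub hp0, Nat.cast_sub hp1, Nat.cast_sub hwX]
    linarith only [hwe, hp0e, hp1e, hke, hXr]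
  have hPzd := n3_pzd (D := D) (K := K) hN hF hfr hX hwX (by omega) hp0 hp1 hpp hll hlam hUQ hr1J
    hK
  have l2 := Real.log_two_gt_d9
  have hεr : ε * J ≤ r / 2 * X := by
    have h1 : r / 2 * (3 / 4 * x * J) ≤ r / 2 * X := mul_le_mul_of_nonneg_left hX1 (by positivity)
    have h2 : 0 ≤ r * x * J := by positivity
    have h3 : r / 2 * (3 / 4 * x * J) = 3 / 8 * (r * x * J) := by ring
    have h4 : r * x / 8000 * (J : ℝ) = r * x * J / 8000 := by ring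
    rw [h3] at h1
    rw [h4] at hεJr
    linarith only [hJ3, hεJr, h1]
  have hnum : 2 * a * ((X : ℝ) + D) + 2 * (2 * ε * J) + 48 * K + κ₁ * J ≤ r / 2 * X := by
    have h1 : r / 2 * (3 / 4 * x * J) ≤ r / 2 * X := mul_le_mul_of_nonneg_left hX1 (by positivity)
    have h2 : 2 * a * ((X : ℝ) + D) ≤ 2 * a * ((2 * x + d) * J) :=
      mul_le_mul_of_nonneg_left hXD (by positivity)
    have h3 : 2 * a * ((2 * x + d) * J) ≤ r * x / 32 * J := by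
      calc 2 * a * ((2 * x + d) * J) = 2 * a * (2 * x + d) * J := by ring
        _ ≤ _ := mul_le_mul_of_nonneg_right ha2 hJr
    have h4 : κ₁ * (J : ℝ) ≤ r * x / 32 * J := mul_le_mul_of_nonneg_right hκ₁2 hJr
    have h5 : r / 2 * (3 / 4 * x * J) = 12 * (r * x / 32 * J) := by ring
    have h6 : r * x / 8000 * (J : ℝ) = (r * x / 32 * J) / 250 := by ring
    rw [h5] at h1
    rw [h6] at hεJr
    obtain ⟨t, ht⟩ : ∃ t, t = r * x / 32 * (J : ℝ) := ⟨_, rfl⟩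
    have h7 : 144 ≤ t := by
      rw [ht]
      linarith only [hJ3]
    rw [← ht] at h1 h3 h4 hεJr
    linarith only [hJ3, hKr, h2, hεJr, h4, h3, h1, ht]
  obtain ⟨A', hA', hPA', J', hJ', hJXD, -, hya, hconc⟩ := hmain J hJ2 F A hA i₀ iu iN yz y1
    w₀ lam p₀ r₀ (w₀ + X) (w₁ + l₁) p₁ r₁ X D K a (r / 2) (2 * ε) hPzd ha0.le (by linarith only [ha1, l2]) hnum
    (fun B hB hPB => by
      obtain ⟨f1, f0, fr⟩ := hrow B hB hPB
      exact n3_rws hN hF hX hwX hweX hp0 hp1 hr1J hw1J hεr hB f1 f0 fr)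
  refine ⟨A', hA', hPA', J', ?_, ?_, ?_⟩
  · have h1 : Real.log 2 ≤ 1 := by
      have := Real.log_two_lt_d9
      linarith only [l2, this]
    have h2 : (0 : ℝ) ≤ J' := Nat.cast_nonneg J'
    have h3 : 3 * Real.log 2 * (J' : ℝ) ≤ 3 * J' := by nlinarith only [h1]
    have h4 : a * (3 / 4 * x * J) ≤ a * ((X : ℝ) + D) := by
      refine mul_le_mul_of_nonneg_left ?_ ha0.le
      have : 0 ≤ (D : ℝ) := Nat.cast_nonneg D
      linarith only [hεJx, hrr]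
    have h5 : a * (3 / 4 * x * J) = 3 * (a * x / 4 * J) := by ring
    rw [h5] at h4
    linarith only [hya, h3, h4]
  · have h1 : ((p₀ + J' : ℕ) : ℝ) ≤ J := by
      push_cast
      have h2 : (p₀ : ℝ) ≤ r₀ := by exact_mod_cast hp0
      have h3 : (J' : ℝ) ≤ X + D := by exact_mod_cast hJXD
      linarith only [hwe, hp0e, hlle, hlame, hend, hεJx, hrr, hXr, hDr, h2, h3]
    exact_mod_cast h1
  · intro hlA h ψ e _ B hB hPB hT P hP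
    have key := hconc ψ e B hB hPB hT P hP
    have h1 : κ₁ * (J : ℝ) ≤ κ * J := mul_le_mul_of_nonneg_right hκ₁1 hJr
    refine le_trans key ?_
    have h2 : (ψ + κ₁) * (J : ℝ) = ψ * J + κ₁ * J := by ring
    have h3 : (1 * ψ + κ) * (J : ℝ) = ψ * J + κ * J := by ring
    rw [h2, h3]
    linarith only [h1]

end Pool.ZT
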