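import Pool.Agent.H96.PZ.Stmts5
import Pool.Agent.H34.PZ.Nsx
import Pool.Agent.H35.ZCL.Asec

/-!
# The plank zoom satisfies the hypotheses of `PZOStmt`
-/

set_option autoImplicit false

namespace Pool.PZ

open Finset Real
open Pool.Agent.H49.Ent Pool.Agent.H32.Dense Pool.STK Pool.KA Pool.KSAT Pool.K2S Pool.PB Pool.KS6
open Pool.ZCL Pool.S6C

/-- The frames of the zoom are functions of the windows, on the support. -/
theorem pz_det {J : ℕ} {F : Fam 3 J} {i₀ iu iN : Fin 3} {r w lam P : ℕ} {y : F.Ω → Pln}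
    {A : F.Ω → Prop} (h : PzF F i₀ iu iN r w lam P y A) (hA : IsLaw (cond F.p A True)) :
    Det (F.res A True hA).p (fun ω => ((F.res A True hA).l ω, ((F.res A True hA).T1 w ω,
      (F.res A True hA).Z ω))) (fun ω => fr (y ω)) := by
  obtain ⟨φ, hφ⟩ := h.con
  intro ω ω' h1 h2 h3
  have a1 : A ω := cond_pos_of h1
  have a2 : A ω' := cond_pos_of h2
  have e1 := Prod.ext_iff.1 h3
  have e2 := Prod.ext_iff.1 e1.2
  have e3 : slam F w ω = slam F w ω' := Prod.ext e1.1 (Prod.ext e2.2 e2.1)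
  have e4 : y ω = y ω' := by
    rw [hφ ω a1, hφ ω' a2, e3]
  simp only [e4]

/-- **(PZH)** -/
theorem pzh_thm (hE : EXTStmt) : PZHStmt := by
  classical
  intro S a R h₁ i₀ c s₂ r D σ hC K W v₁ t e₁ hAd hv0 hs1 hst hs0 y g h β C r' hy hg hh hh1 hgβ
    hβ hC1
  choose eE heE ψE hψE JE hEx using fun i : ℕ =>
    ex_bas hE nsx_thm blx_thm hC hAd hv0 hs1 hst hs0 hy hg hh hh1 hgβ hβ i
  have ha : 1 ≤ a := hC.a1.le
  have ha0 : 0 < 1 + a := by linarith
  obtain ⟨E, hEd⟩ : ∃ E, E = 3 * C + 18 * (1 + a) := ⟨_, rfl⟩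
  have hE0 : 0 < E := by rw [hEd]; positivity
  obtain ⟨ψ, hψ⟩ : ∃ ψ : ℕ → ℝ, ψ = fun i => min (ψE i) (y / (2 * ((i : ℝ) + 1) * E)) := ⟨_, rfl⟩
  have hψ0 : ∀ i, 0 < ψ i := fun i => by
    rw [hψ]
    exact lt_min (hψE i) (by positivity)
  have hψ1 : ∀ i, ψ i ≤ ψE i := fun i => by
    rw [hψ]
    exact min_le_left _ _
  have hψ2 : ∀ i : ℕ, E * ψ i ≤ y / (2 * ((i : ℝ) + 1)) := fun i => by
    have h1 : ψ i ≤ y / (2 * ((i : ℝ) + 1) * E) := by
      rw [hψ]
      exact min_le_right _ _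
    calc E * ψ i ≤ E * (y / (2 * ((i : ℝ) + 1) * E)) := mul_le_mul_of_nonneg_left h1 hE0.le
      _ = y / (2 * ((i : ℝ) + 1)) := by field_simp
  refine ⟨ψ, hψ0, fun n η hη => ?_⟩
  obtain ⟨μ, hμ0, hμ⟩ := exists_low hψ0 n
  obtain ⟨e, he0, he⟩ := exists_low heE n
  have hn0 : (0 : ℝ) ≤ n := Nat.cast_nonneg n
  obtain ⟨τ, hτ⟩ : ∃ τ, τ = min μ (min (η * y / (6 * (1 + a))) (y / (24 * (1 + a) * ((n : ℝ) + 1)))) :=
    ⟨_, rfl⟩
  have hτ0 : 0 < τ := by
    rw [hτ]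
    exact lt_min hμ0 (lt_min (by positivity) (by positivity))
  have hτ1 : τ ≤ μ := by rw [hτ]; exact min_le_left _ _
  have hτ2 : (1 + a) * (6 * τ) ≤ η * y := by
    have h1 : τ ≤ η * y / (6 * (1 + a)) := by
      rw [hτ]; exact (min_le_right _ _).trans (min_le_left _ _)
    rw [le_div_iff₀ (by positivity)] at h1
    linarith
  have hτ3 : (1 + a) * (6 * τ) ≤ y / (4 * ((n : ℝ) + 1)) := by
    have h1 : τ ≤ y / (24 * (1 + a) * ((n : ℝ) + 1)) := by
      rw [hτ]; exact (min_le_right _ _).trans (min_le_right _ _)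
    calc (1 + a) * (6 * τ) ≤ (1 + a) * (6 * (y / (24 * (1 + a) * ((n : ℝ) + 1)))) :=
          mul_le_mul_of_nonneg_left (by linarith) ha0.le
      _ = y / (4 * ((n : ℝ) + 1)) := by
          field_simp
          ring
  obtain ⟨J₂, hJ₂⟩ : ∃ J₂ : ℕ, ∀ i ≤ n, JE i ≤ J₂ :=
    ⟨∑ i ∈ range (n + 1), JE i, fun i hi =>
      Finset.single_le_sum (f := fun i => JE i) (fun _ _ => Nat.zero_le _)
        (Finset.mem_range.2 (by omega : i < n + 1))⟩
  refine ⟨e, he0, y / (4 * ((n : ℝ) + 1)), by positivity, τ, hτ0, J₂, ?_⟩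
  intro J hJ F A hSt hLU hL1 iu iN w lam P q J' y0 yz hz hwv hPw hlq hyJ hA h' htail
  have hp := F.isLaw
  have hJ0 : (0 : ℝ) ≤ J := Nat.cast_nonneg J
  have hJ'0 : (0 : ℝ) ≤ J' := Nat.cast_nonneg J'
  have hJ'J : (J' : ℝ) ≤ J := by
    have : J' ≤ J := by omega
    exact_mod_cast this
  have hPe0 := Pe_nonneg hp A
  refine ⟨?_, ?_, ?_, ?_⟩
  · -- times
    obtain ⟨hlaw, -, hMx, -⟩ := (hC.st _ _ _ _ hSt).res ha hτ0.le
    have h2 : (F.res A True hA).Tm ((1 + a) * (6 * τ) * J) := hMx.1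
    have h3 : (F.res A True hA).Tm (η * J') := by
      unfold Fam.Tm at h2 ⊢
      have h4 : (1 + a) * (6 * τ) * J ≤ η * J' :=
        calc (1 + a) * (6 * τ) * J ≤ η * y * J := mul_le_mul_of_nonneg_right hτ2 hJ0
          _ = η * (y * J) := by ring
          _ ≤ _ := mul_le_mul_of_nonneg_left hyJ hη.le
      linarith
    exact zm_Tm (F.res A True hA) h' (pkC lam (P - w) i₀ iu) (fun ω => fr (yz ω))
      (pz_det hz.pz hA) h3
  · -- lines
    intro z hz'
    have h2 := zm_lines (F.res A True hA) h' (pkC lam (P - w) i₀ iu) (fun ω => fr (yz ω)) z hz'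
    have e1 : 2 * ((3 : ℕ) : ℝ) * (J' : ℝ) = 6 * J' := by
      push_cast
      ring
    rw [e1] at h2
    exact h2
  · -- exclusions
    intro i hi B hB
    have hei := he i hi
    have hSi : S.St (ψE i) J F A := S.mono (by linarith [hψ1 i, hμ i hi]) hSt
    refine hEx i J ((hJ₂ i hi).trans hJ) F A hSi ?_ hL1 iu iN w lam P q J' y0 yz hz hwv ?_ hlq hyJ
      hA h' B (le_trans ?_ hB)
    · refine LineU.mono hLU ?_
      refine one_div_le_one_div_of_le (by positivity) (pow_le_pow_right₀ (by norm_num) ?_)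
      exact Nat.floor_le_floor (mul_le_mul_of_nonneg_right (by linarith) hJ0)
    · refine le_trans (mul_le_mul_of_nonneg_right (by linarith) hJ0) hPw
    · refine Real.exp_le_exp.2 ?_
      have := mul_le_mul_of_nonneg_right (hψ1 i) hJ'0
      linarith
  · -- the tail
    intro i hi B hB P' hP' _
    have hψi := hψ0 i
    have hi0 : (0 : ℝ) < (i : ℝ) + 1 := by positivity
    have hin : (i : ℝ) ≤ n := by exact_mod_cast hi
    obtain ⟨B₁, hB₁⟩ : ∃ B₁ : F.Ω → Prop, B₁ = fun ω => B ω ∧ A ω := ⟨_, rfl⟩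
    have hsub : Sub B₁ A := fun ω hω => by
      rw [hB₁] at hω
      exact hω.2
    have hA0 : Pe F.p A ≠ 0 := by
      have h1 := (hC.st _ _ _ _ hSt).2.2.2
      have h2 : 0 < Pe F.p A := lt_of_lt_of_le (Real.exp_pos _) h1
      exact h2.ne'
    have hP1 : Real.exp (-(3 * ψ i * J)) * Pe F.p A ≤ Pe F.p B₁ := by
      have h1 := pe_zoom hp (A := A) (B := B) (x := Real.exp (-(3 * ψ i * J'))) hB
      rw [hB₁]
      refine le_trans (mul_le_mul_of_nonneg_right (Real.exp_le_exp.2 ?_) hPe0) h1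
      have : 3 * ψ i * J' ≤ 3 * ψ i * J := mul_le_mul_of_nonneg_left hJ'J (by positivity)
      linarith
    have hSt1 : S.St (τ + 3 * ψ i) J F B₁ := S.res (by positivity) hSt hsub hP1
    obtain ⟨hlaw1, -, hMx1, -⟩ := (hC.st _ _ _ _ hSt1).res ha (by positivity)
    have hT1 : J * Real.log 2 - (1 + a) * (6 * (τ + 3 * ψ i)) * J ≤
        CH (Pool.Agent.H49.Ent.cond F.p B₁ True) F.T (fun ω => (F.l ω, F.Z ω)) := hMx1.1
    have key := htail (3 * ψ i) ((1 + a) * (6 * (τ + 3 * ψ i)) * J) (by positivity) B₁ hsub hP1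
      hT1 P' hP'
    have e1 : Pool.Agent.H49.Ent.cond (pzG F i₀ iu w lam P J' yz A hA h').p B True =
        Pool.Agent.H49.Ent.cond F.p B₁ True := by
      rw [hB₁]
      exact cond2 hA0
    rw [e1]
    refine key.trans ?_
    have b1 : (C * (3 * ψ i) + y / (4 * ((n : ℝ) + 1))) + (1 + a) * (6 * (τ + 3 * ψ i)) ≤
        1 / ((i : ℝ) + 1) * y := by
      have c1 : y / (4 * ((n : ℝ) + 1)) ≤ y / (4 * ((i : ℝ) + 1)) :=
        div_le_div_of_nonneg_left hy.le (by positivity) (by linarith)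
      have c2 : y / (4 * ((i : ℝ) + 1)) = y / ((i : ℝ) + 1) / 4 := by field_simp
      have c3 : y / (2 * ((i : ℝ) + 1)) = y / ((i : ℝ) + 1) / 2 := by field_simp
      have c4 : 1 / ((i : ℝ) + 1) * y = y / ((i : ℝ) + 1) := by field_simp
      have c5 := hψ2 i
      rw [hEd] at c5
      rw [c4]
      rw [c3] at c5
      rw [c2] at c1
      linarith
    have b2 : 1 / ((i : ℝ) + 1) * y * J ≤ 1 / ((i : ℝ) + 1) * J' := by
      rw [mul_assoc]
      exact mul_le_mul_of_nonneg_left hyJ (by positivity)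
    have b3 := mul_le_mul_of_nonneg_right b1 hJ0
    linarith

end Pool.PZ
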