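import Pool.Agent.H77.S6.LAB

/-!
# Entropies of the plank zoom: patches, rounded frames, sizes

A patch of precisions `(r, U, P)` for the label `z`: given the label and the exact time, the
frame is one and the position is known to `r` digits along the fans, to `U` digits in the
direction inside the plank and to `P` digits in the normal direction.
-/

set_option autoImplicit false

namespace Pool.ZT

open Finset Real
open Pool.Agent.H49.Ent Pool.Agent.H32.Dense Pool.STK Pool.KA Pool.KS6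

/-! ### Counting digits -/

section count

variable {Ω T : Type} [Fintype Ω] {q : Ω → ℝ}

theorem floor_diff_le {K k : ℕ} {C a b : ℝ} (hC : 0 ≤ C) (h : |a - b| ≤ C / 2 ^ k) :
    |((⌊(2 : ℝ) ^ K * a⌋ - ⌊(2 : ℝ) ^ K * b⌋ : ℤ) : ℝ)| ≤ C * 2 ^ (K - k) + 1 := by
  refine floor_diff ?_
  rw [← mul_sub, abs_mul, abs_of_pos (by positivity : (0 : ℝ) < 2 ^ K)]
  calc (2 : ℝ) ^ K * |a - b| ≤ 2 ^ K * (C / 2 ^ k) :=
        mul_le_mul_of_nonneg_left h (by positivity)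
    _ = C * (2 ^ K / 2 ^ k) := by ring
    _ ≤ C * 2 ^ (K - k) := by
        refine mul_le_mul_of_nonneg_left ?_ hC
        rw [div_le_iff₀ (by positivity), ← pow_add]
        exact pow_le_pow_right₀ (by norm_num) (by omega)

/-- The number of values of the digits of a real number. -/
theorem ch_fl (hq : IsLaw q) (f : Ω → ℝ) (W : Ω → T) {K k : ℕ} {C : ℝ} (hC : 0 ≤ C)
    (h : ∀ ω ω', 0 < q ω → 0 < q ω' → W ω = W ω' → |f ω - f ω'| ≤ C / 2 ^ k) :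
    CH q (fun ω => ⌊(2 : ℝ) ^ K * f ω⌋) W ≤
      ((K - k : ℕ) : ℝ) * Real.log 2 + Real.log (2 * C + 3) := by
  have h1 := CH_le_int hq.nonneg hq.sum_one (fun ω => ⌊(2 : ℝ) ^ K * f ω⌋) W
    (fun _ => C * 2 ^ (K - k) + 1)
    (fun ω ω' a b c => floor_diff_le hC (h ω ω' a b c))
  refine h1.trans ?_
  rw [Ex_const hq.sum_one]
  have h2 : (1 : ℝ) ≤ 2 ^ (K - k) := one_le_pow₀ (by norm_num)
  have h3 : 2 * (C * 2 ^ (K - k) + 1) + 1 ≤ 2 ^ (K - k) * (2 * C + 3) := by nlinarith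
  calc Real.log (2 * (C * 2 ^ (K - k) + 1) + 1) ≤ Real.log (2 ^ (K - k) * (2 * C + 3)) :=
        Real.log_le_log (by positivity) h3
    _ = ((K - k : ℕ) : ℝ) * Real.log 2 + Real.log (2 * C + 3) := by
        rw [Real.log_mul (by positivity) (by positivity), Real.log_pow]

/-- A vector with three coordinates, one coordinate after the other. -/
theorem ch_three (hq : IsLaw q) {i0 iu iN : Fin 3} (hi : ∀ j : Fin 3, j = i0 ∨ j = iu ∨ j = iN)
    (X : Ω → Fin 3 → ℤ) (W : Ω → T) :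
    CH q X W ≤ CH q (fun ω => X ω i0) W + CH q (fun ω => X ω iu) (fun ω => (X ω i0, W ω)) +
      CH q (fun ω => X ω iN) (fun ω => (X ω iu, (X ω i0, W ω))) := by
  have h0 := hq.nonneg
  have h1 := CH_chain h0 (fun ω => X ω iN) (fun ω => (X ω iu, X ω i0)) W
  have h2 := CH_chain h0 (fun ω => X ω iu) (fun ω => X ω i0) W
  have h3 : CH q X W ≤ CH q (fun ω => (X ω iN, (X ω iu, X ω i0))) W := by
    refine CH_mono_left h0 ?_
    intro ω ω' _ _ h
    simp only [Prod.mk.injEq] at h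
    funext j
    rcases hi j with rfl | rfl | rfl
    · exact h.1.2.2
    · exact h.1.2.1
    · exact h.1.1
  have h4 : CH q (fun ω => X ω iN) (fun ω => ((X ω iu, X ω i0), W ω)) =
      CH q (fun ω => X ω iN) (fun ω => (X ω iu, (X ω i0, W ω))) := by
    refine CH_congr h0 ?_ ?_ ?_ ?_
    · exact fun _ _ _ _ h => (Prod.ext_iff.mp h).1
    · exact fun _ _ _ _ h => (Prod.ext_iff.mp h).1
    · intro ω ω' _ _ h
      simp only [Prod.mk.injEq] at h ⊢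
      tauto
    · intro ω ω' _ _ h
      simp only [Prod.mk.injEq] at h ⊢
      tauto
  linarith

end count

/-! ### Change of the frame -/

theorem fu_sub (i0 iu : Fin 3) (e : ℝ) (x y : Fin 3 → ℝ) :
    fu i0 iu e x - fu i0 iu e y = (x iu - y iu) - e * (x i0 - y i0) := by
  unfold fu
  ring

theorem fn_sub (i0 iu iN : Fin 3) (c s : ℝ) (x y : Fin 3 → ℝ) :
    fn i0 iu iN c s x - fn i0 iu iN c s y =
      c * (x i0 - y i0) + s * (x iu - y iu) + (x iN - y iN) := by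
  unfold fn
  ring

/-- Two frames differ by less than the precisions `(r, U, P)`. -/
def Frn (r U P : ℕ) (D e c s e' c' s' : ℝ) : Prop :=
  |e' - e| ≤ D * 2 ^ r / 2 ^ U ∧ |s' - s| ≤ D * 2 ^ U / 2 ^ P ∧
    |(c' - c) + (s' - s) * e| ≤ D * 2 ^ r / 2 ^ P

theorem div_mul_cancel_pow {D C : ℝ} {r U : ℕ} :
    D * 2 ^ r / (2 : ℝ) ^ U * (C / 2 ^ r) = D * C / 2 ^ U := by
  have : (2 : ℝ) ^ r ≠ 0 := by positivity
  field_simp

/-- Change of the frame. -/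
theorem near_frame {i0 iu iN : Fin 3} {r U P : ℕ} {C D e c s e' c' s' : ℝ} {x y : Fin 3 → ℝ}
    (hD : 1 ≤ D) (hC : 0 ≤ C) (h : Frn r U P D e c s e' c' s') (h0 : |x i0 - y i0| ≤ C / 2 ^ r)
    (h1 : |fu i0 iu e x - fu i0 iu e y| ≤ C / 2 ^ U)
    (h2 : |fn i0 iu iN c s x - fn i0 iu iN c s y| ≤ C / 2 ^ P) :
    |fu i0 iu e' x - fu i0 iu e' y| ≤ 3 * D * C / 2 ^ U ∧
      |fn i0 iu iN c' s' x - fn i0 iu iN c' s' y| ≤ 3 * D * C / 2 ^ P := by
  obtain ⟨f1, f2, f3⟩ := h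
  have hDC : C ≤ D * C := by nlinarith
  constructor
  · have e1 : fu i0 iu e' x - fu i0 iu e' y =
        (fu i0 iu e x - fu i0 iu e y) - (e' - e) * (x i0 - y i0) := by
      rw [fu_sub, fu_sub]
      ring
    rw [e1]
    refine (abs_sub _ _).trans ?_
    rw [abs_mul]
    have k1 : |e' - e| * |x i0 - y i0| ≤ D * 2 ^ r / 2 ^ U * (C / 2 ^ r) :=
      mul_le_mul f1 h0 (abs_nonneg _) (by positivity)
    rw [div_mul_cancel_pow] at k1
    calc |fu i0 iu e x - fu i0 iu e y| + |e' - e| * |x i0 - y i0| ≤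
        C / 2 ^ U + D * C / 2 ^ U := add_le_add h1 k1
      _ = (C + D * C) / 2 ^ U := by ring
      _ ≤ 3 * D * C / 2 ^ U := div_le_div_of_nonneg_right (by nlinarith) (by positivity)
  · have e1 : fn i0 iu iN c' s' x - fn i0 iu iN c' s' y =
        (fn i0 iu iN c s x - fn i0 iu iN c s y) + (s' - s) * (fu i0 iu e x - fu i0 iu e y) +
          ((c' - c) + (s' - s) * e) * (x i0 - y i0) := by
      rw [fn_sub, fn_sub, fu_sub]
      ring
    rw [e1]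
    refine (abs_add_le _ _).trans ((add_le_add (abs_add_le _ _) le_rfl).trans ?_)
    rw [abs_mul, abs_mul]
    have k1 : |s' - s| * |fu i0 iu e x - fu i0 iu e y| ≤ D * 2 ^ U / 2 ^ P * (C / 2 ^ U) :=
      mul_le_mul f2 h1 (abs_nonneg _) (by positivity)
    have k2 : |(c' - c) + (s' - s) * e| * |x i0 - y i0| ≤ D * 2 ^ r / 2 ^ P * (C / 2 ^ r) :=
      mul_le_mul f3 h0 (abs_nonneg _) (by positivity)
    rw [div_mul_cancel_pow] at k1 k2
    calc |fn i0 iu iN c s x - fn i0 iu iN c s y| + |s' - s| * |fu i0 iu e x - fu i0 iu e y| +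
        |(c' - c) + (s' - s) * e| * |x i0 - y i0| ≤
        C / 2 ^ P + D * C / 2 ^ P + D * C / 2 ^ P := add_le_add (add_le_add h2 k1) k2
      _ = (C + D * C + D * C) / 2 ^ P := by ring
      _ ≤ 3 * D * C / 2 ^ P := div_le_div_of_nonneg_right (by nlinarith) (by positivity)

/-! ### Rounded frames -/

/-- The cell of the frame. -/
noncomputable def rfr (r U P : ℕ) (e c s : ℝ) : Fin 3 → ℤ :=
  ![⌊(2 : ℝ) ^ (U - r) * e⌋, ⌊(2 : ℝ) ^ (P - U) * s⌋,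
    ⌊(2 : ℝ) ^ (P - r) * (c + s * ((⌊(2 : ℝ) ^ (U - r) * e⌋ : ℝ) / 2 ^ (U - r)))⌋]

/-- The frame of a cell. -/
noncomputable def rfe (r U : ℕ) (a : Fin 3 → ℤ) : ℝ := (a 0 : ℝ) / 2 ^ (U - r)

/-- The frame of a cell. -/
noncomputable def rfs (U P : ℕ) (a : Fin 3 → ℤ) : ℝ := (a 1 : ℝ) / 2 ^ (P - U)

/-- The frame of a cell. -/
noncomputable def rfc (r U P : ℕ) (a : Fin 3 → ℤ) : ℝ :=
  (a 2 : ℝ) / 2 ^ (P - r) - rfs U P a * rfe r U a

theorem one_div_sub {r U : ℕ} (h : r ≤ U) : 1 / (2 : ℝ) ^ (U - r) = 1 * 2 ^ r / 2 ^ U := by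
  rw [one_mul, eq_div_iff (by positivity), one_div, inv_mul_eq_div, div_eq_iff (by positivity),
    ← pow_add]
  congr 1
  omega

/-- The frame is near the frame of its cell. -/
theorem rfr_near {r U P : ℕ} (hrU : r ≤ U) (hUP : U ≤ P) (e c s : ℝ) :
    Frn r U P 2 e c s (rfe r U (rfr r U P e c s)) (rfc r U P (rfr r U P e c s))
      (rfs U P (rfr r U P e c s)) := by
  obtain ⟨ea, hea⟩ : ∃ ea, ea = (⌊(2 : ℝ) ^ (U - r) * e⌋ : ℝ) / 2 ^ (U - r) := ⟨_, rfl⟩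
  obtain ⟨sa, hsa⟩ : ∃ sa, sa = (⌊(2 : ℝ) ^ (P - U) * s⌋ : ℝ) / 2 ^ (P - U) := ⟨_, rfl⟩
  obtain ⟨va, hva⟩ : ∃ va, va = (⌊(2 : ℝ) ^ (P - r) * (c + s * ea)⌋ : ℝ) / 2 ^ (P - r) :=
    ⟨_, rfl⟩
  have e1 : rfe r U (rfr r U P e c s) = ea := by rw [hea]; rfl
  have e2 : rfs U P (rfr r U P e c s) = sa := by rw [hsa]; rfl
  have e3 : rfc r U P (rfr r U P e c s) = va - sa * ea := by
    unfold rfc
    rw [e1, e2, hva, hea]
    rfl
  rw [e1, e2, e3]
  have k1 : |e - ea| ≤ 1 * 2 ^ r / 2 ^ U := by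
    rw [hea, ← one_div_sub hrU]
    exact floor_near _ _
  have k2 : |s - sa| ≤ 1 * 2 ^ U / 2 ^ P := by
    rw [hsa, ← one_div_sub hUP]
    exact floor_near _ _
  have k3 : |(c + s * ea) - va| ≤ 1 * 2 ^ r / 2 ^ P := by
    rw [hva, ← one_div_sub (hrU.trans hUP)]
    exact floor_near _ _
  have k12 : |s - sa| * |e - ea| ≤ 1 * 2 ^ r / 2 ^ P := by
    calc |s - sa| * |e - ea| ≤ 1 * 2 ^ U / 2 ^ P * (1 * 2 ^ r / 2 ^ U) :=
          mul_le_mul k2 k1 (abs_nonneg _) (by positivity)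
      _ = 1 * 2 ^ r / 2 ^ P := by
          have : (2 : ℝ) ^ U ≠ 0 := by positivity
          field_simp
  have two : ∀ {x y : ℕ}, (1 : ℝ) * 2 ^ x / 2 ^ y ≤ 2 * 2 ^ x / 2 ^ y := fun {x y} =>
    div_le_div_of_nonneg_right (mul_le_mul_of_nonneg_right (by norm_num) (by positivity))
      (by positivity)
  refine ⟨?_, ?_, ?_⟩
  · rw [abs_sub_comm]
    exact k1.trans two
  · rw [abs_sub_comm]
    exact k2.trans two
  · have e4 : (va - sa * ea - c) + (sa - s) * e =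
        -((c + s * ea) - va) - (s - sa) * (e - ea) := by ring
    rw [e4]
    refine (abs_sub _ _).trans ?_
    rw [abs_neg, abs_mul]
    calc |(c + s * ea) - va| + |s - sa| * |e - ea| ≤
        1 * 2 ^ r / 2 ^ P + 1 * 2 ^ r / 2 ^ P := add_le_add k3 k12
      _ = 2 * 2 ^ r / 2 ^ P := by ring

/-- The frame of a cell is bounded. -/
theorem rfr_bd {r U P : ℕ} (hrU : r ≤ U) (hUP : U ≤ P) {e c s B : ℝ} (hB : 1 ≤ B)
    (he : |e| ≤ B) (hc : |c| ≤ B) (hs : |s| ≤ B) :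
    |rfe r U (rfr r U P e c s)| ≤ 12 * B ∧ |rfc r U P (rfr r U P e c s)| ≤ 12 * B ∧
      |rfs U P (rfr r U P e c s)| ≤ 12 * B := by
  obtain ⟨f1, f2, f3⟩ := rfr_near hrU hUP e c s
  obtain ⟨ea, hea⟩ : ∃ ea, ea = rfe r U (rfr r U P e c s) := ⟨_, rfl⟩
  obtain ⟨sa, hsa⟩ : ∃ sa, sa = rfs U P (rfr r U P e c s) := ⟨_, rfl⟩
  obtain ⟨ca, hca⟩ : ∃ ca, ca = rfc r U P (rfr r U P e c s) := ⟨_, rfl⟩
  rw [← hea] at f1 ⊢
  rw [← hsa] at f2 f3 ⊢
  rw [← hca] at f3 ⊢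
  have two : ∀ {x y : ℕ}, x ≤ y → (2 : ℝ) * 2 ^ x / 2 ^ y ≤ 2 := by
    intro x y h
    rw [div_le_iff₀ (by positivity)]
    exact mul_le_mul_of_nonneg_left (pow_le_pow_right₀ (by norm_num) h) (by norm_num)
  have g1 : |ea - e| ≤ 2 := f1.trans (two hrU)
  have g2 : |sa - s| ≤ 2 := f2.trans (two hUP)
  have g3 : |(ca - c) + (sa - s) * e| ≤ 2 := f3.trans (two (hrU.trans hUP))
  have g4 : |(sa - s) * e| ≤ 2 * B := by
    rw [abs_mul]
    exact mul_le_mul g2 he (abs_nonneg _) (by norm_num)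
  rw [abs_le] at he hc hs g1 g2 g3 g4
  refine ⟨abs_le.2 ⟨by linarith [he.1, g1.1], by linarith [he.2, g1.2]⟩,
    abs_le.2 ⟨by linarith [hc.1, g3.1, g4.2], by linarith [hc.2, g3.2, g4.1]⟩,
    abs_le.2 ⟨by linarith [hs.1, g2.1], by linarith [hs.2, g2.2]⟩⟩

/-! ### Patches -/

section patch

variable {J : ℕ} {F : Fam 3 J} {q : F.Ω → ℝ} {i0 iu iN : Fin 3}

/-- A patch of precisions `(r, U, P)` for the label `z`. -/
structure Pat (F : Fam 3 J) (q : F.Ω → ℝ) (i0 iu iN : Fin 3) {S : Type} (z : F.Ω → S)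
    (e c s : F.Ω → ℝ) (r U P : ℕ) (B C : ℝ) : Prop where
  bd : ∀ ω, 0 < q ω → |e ω| ≤ B ∧ |c ω| ≤ B ∧ |s ω| ≤ B
  fr : ∀ ω ω', 0 < q ω → 0 < q ω' → z ω = z ω' → F.W ω = F.W ω' →
    e ω = e ω' ∧ c ω = c ω' ∧ s ω = s ω'
  nr : ∀ ω ω', 0 < q ω → 0 < q ω' → z ω = z ω' → F.W ω = F.W ω' →
    |F.x ω i0 - F.x ω' i0| ≤ C / 2 ^ r ∧
    |fu i0 iu (e ω) (F.x ω) - fu i0 iu (e ω) (F.x ω')| ≤ C / 2 ^ U ∧
    |fn i0 iu iN (c ω) (s ω) (F.x ω) - fn i0 iu iN (c ω) (s ω) (F.x ω')| ≤ C / 2 ^ P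

/-- **Size**: the digits of the position, given the patch. -/
theorem size (hq : IsLaw q) (hi : ∀ j : Fin 3, j = i0 ∨ j = iu ∨ j = iN) {S : Type}
    {z : F.Ω → S} {e c s : F.Ω → ℝ} {r U P K : ℕ} {B C : ℝ} (hB : 0 ≤ B) (hC : 0 ≤ C)
    (h : Pat F q i0 iu iN z e c s r U P B C) (hr : r ≤ K) (hU : U ≤ K) (hP : P ≤ K) :
    CH q (F.X K) (fun ω => (z ω, F.W ω)) ≤
      (((K : ℝ) - r) + ((K : ℝ) - U) + ((K : ℝ) - P)) * Real.log 2 +
        3 * Real.log (2 * (C + 2 * B) + 3) := by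
  have hcell : ∀ ω ω' j, F.X K ω j = F.X K ω' j → |F.x ω j - F.x ω' j| ≤ 1 / 2 ^ K := by
    intro ω ω' j hj
    exact floor_close hj
  have dm : ∀ {C : ℝ} {a b : ℕ}, 0 ≤ C → a ≤ b → C / (2 : ℝ) ^ b ≤ C / 2 ^ a :=
    fun {C a b} hC h => div_le_div_of_nonneg_left hC (by positivity)
      (pow_le_pow_right₀ (by norm_num) h)
  have k0 := ch_three hq hi (F.X K) (fun ω => (z ω, F.W ω))
  have k1 := ch_fl hq (fun ω => F.x ω i0) (fun ω => (z ω, F.W ω)) (K := K) (k := r) hC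
    (fun ω ω' a b h' => (h.nr ω ω' a b (Prod.ext_iff.1 h').1 (Prod.ext_iff.1 h').2).1)
  have k2 := ch_fl hq (fun ω => F.x ω iu) (fun ω => (F.X K ω i0, (z ω, F.W ω))) (K := K)
    (k := U) (C := C + B) (by linarith) (by
      intro ω ω' a b h'
      have h1 := Prod.ext_iff.1 h'
      have h2 := Prod.ext_iff.1 h1.2
      have n := h.nr ω ω' a b h2.1 h2.2
      have m := hcell ω ω' i0 h1.1
      have e1 : F.x ω iu - F.x ω' iu =
          (fu i0 iu (e ω) (F.x ω) - fu i0 iu (e ω) (F.x ω')) + e ω * (F.x ω i0 - F.x ω' i0) := by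
        rw [fu_sub]
        ring
      rw [e1]
      refine (abs_add_le _ _).trans ?_
      rw [abs_mul]
      have n2 : |e ω| * |F.x ω i0 - F.x ω' i0| ≤ B * (1 / 2 ^ K) :=
        mul_le_mul (h.bd ω a).1 m (abs_nonneg _) hB
      have n3 : B * (1 / 2 ^ K) ≤ B / 2 ^ U := by
        rw [mul_one_div]
        exact dm hB hU
      rw [add_div]
      linarith [n.2.1])
  have k3 := ch_fl hq (fun ω => F.x ω iN) (fun ω => (F.X K ω iu, (F.X K ω i0, (z ω, F.W ω))))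
    (K := K) (k := P) (C := C + 2 * B) (by linarith) (by
      intro ω ω' a b h'
      have h1 := Prod.ext_iff.1 h'
      have h2 := Prod.ext_iff.1 h1.2
      have h3 := Prod.ext_iff.1 h2.2
      have n := h.nr ω ω' a b h3.1 h3.2
      have m1 := hcell ω ω' iu h1.1
      have m2 := hcell ω ω' i0 h2.1
      have e1 : F.x ω iN - F.x ω' iN =
          (fn i0 iu iN (c ω) (s ω) (F.x ω) - fn i0 iu iN (c ω) (s ω) (F.x ω')) -
            c ω * (F.x ω i0 - F.x ω' i0) - s ω * (F.x ω iu - F.x ω' iu) := by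
        rw [fn_sub]
        ring
      rw [e1]
      refine (abs_sub _ _).trans ((add_le_add (abs_sub _ _) le_rfl).trans ?_)
      rw [abs_mul, abs_mul]
      have n2 : |c ω| * |F.x ω i0 - F.x ω' i0| ≤ B * (1 / 2 ^ K) :=
        mul_le_mul (h.bd ω a).2.1 m2 (abs_nonneg _) hB
      have n2' : |s ω| * |F.x ω iu - F.x ω' iu| ≤ B * (1 / 2 ^ K) :=
        mul_le_mul (h.bd ω a).2.2 m1 (abs_nonneg _) hB
      have n3 : B * (1 / 2 ^ K) ≤ B / 2 ^ P := by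
        rw [mul_one_div]
        exact dm hB hP
      have e2 : (C + 2 * B) / (2 : ℝ) ^ P = C / 2 ^ P + B / 2 ^ P + B / 2 ^ P := by ring
      rw [e2]
      linarith [n.2.2])
  have hl1 : Real.log (2 * C + 3) ≤ Real.log (2 * (C + 2 * B) + 3) :=
    Real.log_le_log (by positivity) (by linarith)
  have hl2 : Real.log (2 * (C + B) + 3) ≤ Real.log (2 * (C + 2 * B) + 3) :=
    Real.log_le_log (by positivity) (by linarith)
  rw [Nat.cast_sub hr] at k1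
  rw [Nat.cast_sub hU] at k2
  rw [Nat.cast_sub hP] at k3
  have e1 : (fun ω => (F.X K ω i0 : ℤ)) = fun ω => ⌊(2 : ℝ) ^ K * F.x ω i0⌋ := rfl
  have e2 : (fun ω => (F.X K ω iu : ℤ)) = fun ω => ⌊(2 : ℝ) ^ K * F.x ω iu⌋ := rfl
  have e3 : (fun ω => (F.X K ω iN : ℤ)) = fun ω => ⌊(2 : ℝ) ^ K * F.x ω iN⌋ := rfl
  rw [e1, e2, e3] at k0
  have e4 : (((K : ℝ) - r) + ((K : ℝ) - U) + ((K : ℝ) - P)) * Real.log 2 =
      ((K : ℝ) - r) * Real.log 2 + ((K : ℝ) - U) * Real.log 2 + ((K : ℝ) - P) * Real.log 2 := by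
    ring
  rw [e4]
  linarith

end patch

end Pool.ZT
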