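import Pool.Agent.H4.KS6.ZTA

/-!
# Entropies of the plank zoom: the deficit of the zoom (T1)-(T5)

`z₀` is the label of a plank with precisions `(w₀, U₀, Q₀)`, `z₁` of a plank with precisions
`(w₁, U₁, Q₁)`, `z₂` of a plank with precisions `(w₁, U₁, Q₀)`. The first and the last one are
visible from the position to `P₀` digits, the second one from the position to `P₁` digits.
-/

set_option autoImplicit false

namespace Pool.ZT

open Finset Real
open Pool.Agent.H49.Ent Pool.Agent.H32.Dense Pool.STK Pool.KA Pool.KS6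

/-! ### Frames -/

theorem Frn.mono {r U P r' U' P' : ℕ} {D D' e c s e' c' s' : ℝ} (h : Frn r U P D e c s e' c' s')
    (hD : 0 ≤ D) (hDD : D ≤ D') (h1 : r + U' ≤ r' + U) (h2 : U + P' ≤ U' + P)
    (h3 : r + P' ≤ r' + P) : Frn r' U' P' D' e c s e' c' s' := by
  have key : ∀ {x y x' y' : ℕ}, x + y' ≤ x' + y → D * 2 ^ x / (2 : ℝ) ^ y ≤ D' * 2 ^ x' / 2 ^ y' := by
    intro x y x' y' h
    rw [div_le_div_iff₀ (by positivity) (by positivity), mul_assoc, mul_assoc, ← pow_add,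
      ← pow_add]
    exact mul_le_mul hDD (pow_le_pow_right₀ (by norm_num) h) (by positivity) (hD.trans hDD)
  exact ⟨h.1.trans (key h1), h.2.1.trans (key h2), h.2.2.trans (key h3)⟩

theorem Frn.refl {r U P : ℕ} {D e c s : ℝ} (hD : 0 ≤ D) : Frn r U P D e c s e c s := by
  refine ⟨?_, ?_, ?_⟩ <;> · simp only [sub_self, zero_mul, add_zero, abs_zero]; positivity

theorem Frn.trans {r U P : ℕ} {D D' e c s e' c' s' e'' c'' s'' : ℝ}
    (h : Frn r U P D e c s e' c' s') (h' : Frn r U P D' e' c' s' e'' c'' s'') (hD : 0 ≤ D)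
    (hD' : 0 ≤ D') : Frn r U P (D + D' + D * D') e c s e'' c'' s'' := by
  obtain ⟨h1, h2, h3⟩ := h
  obtain ⟨g1, g2, g3⟩ := h'
  have hDD : 0 ≤ D * D' := mul_nonneg hD hD'
  refine ⟨?_, ?_, ?_⟩
  · have e1 : e'' - e = (e' - e) + (e'' - e') := by ring
    rw [e1]
    refine (abs_add_le _ _).trans ((add_le_add h1 g1).trans ?_)
    rw [← add_div, ← add_mul]
    exact div_le_div_of_nonneg_right (mul_le_mul_of_nonneg_right (by linarith) (by positivity))
      (by positivity)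
  · have e1 : s'' - s = (s' - s) + (s'' - s') := by ring
    rw [e1]
    refine (abs_add_le _ _).trans ((add_le_add h2 g2).trans ?_)
    rw [← add_div, ← add_mul]
    exact div_le_div_of_nonneg_right (mul_le_mul_of_nonneg_right (by linarith) (by positivity))
      (by positivity)
  · have e1 : (c'' - c) + (s'' - s) * e = ((c' - c) + (s' - s) * e) +
        ((c'' - c') + (s'' - s') * e') - (s'' - s') * (e' - e) := by ring
    rw [e1]
    refine (abs_sub _ _).trans ?_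
    rw [abs_mul]
    have h4 : |s'' - s'| * |e' - e| ≤ D' * 2 ^ U / 2 ^ P * (D * 2 ^ r / 2 ^ U) :=
      mul_le_mul g2 h1 (abs_nonneg _) (by positivity)
    have h5 : D' * 2 ^ U / 2 ^ P * (D * 2 ^ r / 2 ^ U) = D * D' * 2 ^ r / (2 : ℝ) ^ P := by
      have : (2 : ℝ) ^ U ≠ 0 := by positivity
      field_simp
    have h6 : (D + D' + D * D') * 2 ^ r / (2 : ℝ) ^ P =
        D * 2 ^ r / 2 ^ P + D' * 2 ^ r / 2 ^ P + D * D' * 2 ^ r / 2 ^ P := by
      ring
    rw [h6]
    have h7 := (abs_add_le ((c' - c) + (s' - s) * e) ((c'' - c') + (s'' - s') * e')).trans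
      (add_le_add h3 g3)
    linarith

/-! ### The box with a rounded frame -/

section box

variable {J : ℕ} {F : Fam 3 J} {q : F.Ω → ℝ} {i0 iu iN : Fin 3}

/-- The box with the rounded frame. -/
noncomputable def bxl (F : Fam 3 J) (i0 iu iN : Fin 3) (r U P : ℕ) (e c s : F.Ω → ℝ)
    (ω : F.Ω) : (Fin 3 → ℤ) × (Fin 3 → ℤ) :=
  (rfr r U P (e ω) (c ω) (s ω),
    ![⌊(2 : ℝ) ^ r * F.x ω i0⌋,
      ⌊(2 : ℝ) ^ U * fu i0 iu (rfe r U (rfr r U P (e ω) (c ω) (s ω))) (F.x ω)⌋,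
      ⌊(2 : ℝ) ^ P * fn i0 iu iN (rfc r U P (rfr r U P (e ω) (c ω) (s ω)))
        (rfs U P (rfr r U P (e ω) (c ω) (s ω))) (F.x ω)⌋])

/-- The box is a patch. -/
theorem pat_bxl {r U P : ℕ} (hrU : r ≤ U) (hUP : U ≤ P) {B : ℝ} (hB : 1 ≤ B)
    {e c s : F.Ω → ℝ} (hb : ∀ ω, 0 < q ω → |e ω| ≤ B ∧ |c ω| ≤ B ∧ |s ω| ≤ B) :
    Pat F q i0 iu iN (bxl F i0 iu iN r U P e c s)
      (fun ω => rfe r U (rfr r U P (e ω) (c ω) (s ω)))
      (fun ω => rfc r U P (rfr r U P (e ω) (c ω) (s ω)))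
      (fun ω => rfs U P (rfr r U P (e ω) (c ω) (s ω))) r U P (12 * B) 1 where
  bd := fun ω hω => rfr_bd hrU hUP hB (hb ω hω).1 (hb ω hω).2.1 (hb ω hω).2.2
  fr := fun ω ω' _ _ h _ => by
    have h1 : rfr r U P (e ω) (c ω) (s ω) = rfr r U P (e ω') (c ω') (s ω') :=
      (Prod.ext_iff.1 h).1
    refine ⟨?_, ?_, ?_⟩ <;> simp only [h1]
  nr := fun ω ω' _ _ h _ => by
    have h1 : rfr r U P (e ω) (c ω) (s ω) = rfr r U P (e ω') (c ω') (s ω') :=
      (Prod.ext_iff.1 h).1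
    have h2 := (Prod.ext_iff.1 h).2
    have k0 : ⌊(2 : ℝ) ^ r * F.x ω i0⌋ = ⌊(2 : ℝ) ^ r * F.x ω' i0⌋ := congrFun h2 0
    have k1 : ⌊(2 : ℝ) ^ U * fu i0 iu (rfe r U (rfr r U P (e ω) (c ω) (s ω))) (F.x ω)⌋ =
        ⌊(2 : ℝ) ^ U * fu i0 iu (rfe r U (rfr r U P (e ω') (c ω') (s ω'))) (F.x ω')⌋ :=
      congrFun h2 1
    have k2 : ⌊(2 : ℝ) ^ P * fn i0 iu iN (rfc r U P (rfr r U P (e ω) (c ω) (s ω)))
        (rfs U P (rfr r U P (e ω) (c ω) (s ω))) (F.x ω)⌋ =
        ⌊(2 : ℝ) ^ P * fn i0 iu iN (rfc r U P (rfr r U P (e ω') (c ω') (s ω')))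
        (rfs U P (rfr r U P (e ω') (c ω') (s ω'))) (F.x ω')⌋ :=
      congrFun h2 2
    rw [← h1] at k1 k2
    exact ⟨floor_close k0, floor_close k1, floor_close k2⟩

/-- The box is known if a patch of the same precisions with a near frame is known. -/
theorem ch_bxl (hq : IsLaw q) {r U P : ℕ} (hrU : r ≤ U) (hUP : U ≤ P) {S : Type} {z : F.Ω → S}
    {e c s e' c' s' : F.Ω → ℝ} {B C D : ℝ} (hC : 1 ≤ C) (hD : 1 ≤ D)
    (h : Pat F q i0 iu iN z e' c' s' r U P B C)
    (hn : ∀ ω, 0 < q ω → Frn r U P D (e' ω) (c' ω) (s' ω) (e ω) (c ω) (s ω)) :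
    CH q (bxl F i0 iu iN r U P e c s) (fun ω => (z ω, F.W ω)) ≤
      3 * Real.log (12 * D ^ 2 + 3) + 3 * Real.log (30 * D * C + 3) := by
  have h0 := hq.nonneg
  have hC0 : 0 ≤ C := by linarith
  have hD0 : 0 ≤ D := by linarith
  obtain ⟨a, ha⟩ : ∃ a : F.Ω → Fin 3 → ℤ, a = fun ω => rfr r U P (e ω) (c ω) (s ω) := ⟨_, rfl⟩
  have haω : ∀ ω, rfr r U P (e ω) (c ω) (s ω) = a ω := fun ω => by rw [ha]
  have hDD : D ≤ D ^ 2 := by nlinarith
  -- the cell of the frame
  have k1 : CH q a (fun ω => (z ω, F.W ω)) ≤ 3 * Real.log (12 * D ^ 2 + 3) := by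
    have key := CH_le_seq hq (fun ω => (z ω, F.W ω)) a (fun _ _ => 6 * D ^ 2 + 1) (by
      intro i ω ω' hω hω' hz hlt
      obtain ⟨z1, z2⟩ := Prod.ext_iff.1 hz
      obtain ⟨f1, f2, f3⟩ := h.fr ω ω' hω hω' z1 z2
      obtain ⟨n1, n2, n3⟩ := hn ω hω
      obtain ⟨m1, m2, m3⟩ := hn ω' hω'
      rw [← f1] at m1 m3
      rw [← f2] at m3
      rw [← f3] at m2 m3
      have two : ∀ {x y : ℕ} {u v w : ℝ}, x ≤ y → |u - w| ≤ D * 2 ^ x / 2 ^ y →
          |v - w| ≤ D * 2 ^ x / 2 ^ y → |u - v| ≤ 2 * D / 2 ^ (y - x) := by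
        intro x y u v w hxy hu hv
        have e0 : D * 2 ^ x / (2 : ℝ) ^ y = D / 2 ^ (y - x) := by
          rw [div_eq_div_iff (by positivity) (by positivity), mul_assoc, ← pow_add]
          congr 2
          omega
        rw [e0] at hu hv
        have e1 : u - v = (u - w) - (v - w) := by ring
        rw [e1]
        refine (abs_sub _ _).trans ((add_le_add hu hv).trans (le_of_eq ?_))
        ring
      have one : (2 : ℝ) * D * 2 ^ (0 : ℕ) + 1 ≤ 6 * D ^ 2 + 1 := by nlinarith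
      fin_cases i
      · change |((a ω 0 - a ω' 0 : ℤ) : ℝ)| ≤ 6 * D ^ 2 + 1
        have g := two hrU n1 m1
        have g2 := floor_diff_le (K := U - r) (k := U - r) (C := 2 * D) (by positivity) g
        rw [Nat.sub_self] at g2
        rw [← haω, ← haω]
        exact g2.trans one
      · change |((a ω 1 - a ω' 1 : ℤ) : ℝ)| ≤ 6 * D ^ 2 + 1
        have g := two hUP n2 m2
        have g2 := floor_diff_le (K := P - U) (k := P - U) (C := 2 * D) (by positivity) g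
        rw [Nat.sub_self] at g2
        rw [← haω, ← haω]
        exact g2.trans one
      · change |((a ω 2 - a ω' 2 : ℤ) : ℝ)| ≤ 6 * D ^ 2 + 1
        have hc0 : a ω 0 = a ω' 0 := hlt 0 (by decide)
        obtain ⟨ea, hea⟩ : ∃ ea, ea = (⌊(2 : ℝ) ^ (U - r) * e ω⌋ : ℝ) / 2 ^ (U - r) := ⟨_, rfl⟩
        have hea' : ea = (⌊(2 : ℝ) ^ (U - r) * e ω'⌋ : ℝ) / 2 ^ (U - r) := by
          rw [← haω, ← haω] at hc0
          have hc1 : ⌊(2 : ℝ) ^ (U - r) * e ω⌋ = ⌊(2 : ℝ) ^ (U - r) * e ω'⌋ := hc0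
          rw [hea, hc1]
        have b1 : |e ω - ea| ≤ 1 * 2 ^ r / 2 ^ U := by
          rw [hea, ← one_div_sub hrU]
          exact floor_near _ _
        have b2 : |e ω' - ea| ≤ 1 * 2 ^ r / 2 ^ U := by
          rw [hea', ← one_div_sub hrU]
          exact floor_near _ _
        have t1 : ∀ {ew cw sw : ℝ}, |ew - e' ω| ≤ D * 2 ^ r / 2 ^ U →
            |sw - s' ω| ≤ D * 2 ^ U / 2 ^ P →
            |(cw - c' ω) + (sw - s' ω) * e' ω| ≤ D * 2 ^ r / 2 ^ P →
            |ew - ea| ≤ 1 * 2 ^ r / 2 ^ U →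
            |(cw + sw * ea) - (c' ω + s' ω * ea)| ≤ 3 * D ^ 2 / 2 ^ (P - r) := by
          intro ew cw sw q1 q2 q3 q4
          have e1 : (cw + sw * ea) - (c' ω + s' ω * ea) =
              ((cw - c' ω) + (sw - s' ω) * e' ω) +
                (sw - s' ω) * ((ew - e' ω) - (ew - ea)) := by ring
          rw [e1]
          refine (abs_add_le _ _).trans ?_
          rw [abs_mul]
          have e2 : |(ew - e' ω) - (ew - ea)| ≤ (D + 1) * 2 ^ r / 2 ^ U := by
            refine (abs_sub _ _).trans ((add_le_add q1 q4).trans (le_of_eq ?_))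
            ring
          have e3 : |sw - s' ω| * |(ew - e' ω) - (ew - ea)| ≤
              D * 2 ^ U / 2 ^ P * ((D + 1) * 2 ^ r / 2 ^ U) :=
            mul_le_mul q2 e2 (abs_nonneg _) (by positivity)
          have e4 : D * 2 ^ U / 2 ^ P * ((D + 1) * 2 ^ r / 2 ^ U) =
              D * (D + 1) * 2 ^ r / (2 : ℝ) ^ P := by
            have : (2 : ℝ) ^ U ≠ 0 := by positivity
            field_simp
          have e5 : 3 * D ^ 2 / (2 : ℝ) ^ (P - r) = 3 * D ^ 2 * 2 ^ r / 2 ^ P := by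
            rw [div_eq_div_iff (by positivity) (by positivity), mul_assoc (3 * D ^ 2), ← pow_add]
            congr 2
            omega
          rw [e5]
          calc |(cw - c' ω) + (sw - s' ω) * e' ω| + |sw - s' ω| * |(ew - e' ω) - (ew - ea)| ≤
              D * 2 ^ r / 2 ^ P + D * (D + 1) * 2 ^ r / 2 ^ P := by linarith
            _ = (D + D * (D + 1)) * 2 ^ r / 2 ^ P := by ring
            _ ≤ 3 * D ^ 2 * 2 ^ r / 2 ^ P :=
                div_le_div_of_nonneg_right (mul_le_mul_of_nonneg_right (by nlinarith)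
                  (by positivity)) (by positivity)
        have u1 := t1 n1 n2 n3 b1
        have u2 := t1 m1 m2 m3 b2
        have u3 : |(c ω + s ω * ea) - (c ω' + s ω' * ea)| ≤ 6 * D ^ 2 / 2 ^ (P - r) := by
          have e1 : (c ω + s ω * ea) - (c ω' + s ω' * ea) =
              ((c ω + s ω * ea) - (c' ω + s' ω * ea)) -
                ((c ω' + s ω' * ea) - (c' ω + s' ω * ea)) := by ring
          rw [e1]
          refine (abs_sub _ _).trans ((add_le_add u1 u2).trans (le_of_eq ?_))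
          ring
        have g2 := floor_diff_le (K := P - r) (k := P - r) (C := 6 * D ^ 2) (by positivity) u3
        rw [Nat.sub_self, pow_zero, mul_one] at g2
        have r1 : a ω 2 = ⌊(2 : ℝ) ^ (P - r) * (c ω + s ω * ea)⌋ := by
          rw [← haω, hea]
          rfl
        have r2 : a ω' 2 = ⌊(2 : ℝ) ^ (P - r) * (c ω' + s ω' * ea)⌋ := by
          rw [← haω, hea']
          rfl
        rw [r1, r2]
        exact g2)
    refine key.trans (le_of_eq ?_)
    have e1 : ∀ i : Fin 3, Ex q (fun _ => Real.log (2 * (6 * D ^ 2 + 1) + 1)) =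
        Real.log (12 * D ^ 2 + 3) := by
      intro i
      rw [Ex_const hq.sum_one]
      congr 1
      ring
    rw [Finset.sum_congr rfl fun i _ => e1 i, Finset.sum_const, Finset.card_univ,
      Fintype.card_fin, nsmul_eq_mul]
    norm_num
  -- the cells
  have k2 : CH q (fun ω => (bxl F i0 iu iN r U P e c s ω).2) (fun ω => (a ω, (z ω, F.W ω))) ≤
      3 * Real.log (30 * D * C + 3) := by
    have key := CH_le_seq hq (fun ω => (a ω, (z ω, F.W ω)))
      (fun ω => (bxl F i0 iu iN r U P e c s ω).2) (fun _ _ => 15 * D * C + 1) (by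
      intro i ω ω' hω hω' hz _
      obtain ⟨z0, z12⟩ := Prod.ext_iff.1 hz
      obtain ⟨z1, z2⟩ := Prod.ext_iff.1 z12
      have hz0 : a ω = a ω' := z0
      obtain ⟨f1, f2, f3⟩ := h.nr ω ω' hω hω' z1 z2
      have t1 := (hn ω hω).trans (rfr_near hrU hUP (e ω) (c ω) (s ω)) hD0 (by norm_num)
      have t2 := t1.mono (D' := 5 * D) (by positivity) (by linarith) le_rfl le_rfl le_rfl
      rw [haω] at t2
      obtain ⟨g1, g2⟩ := near_frame (D := 5 * D) (by linarith) hC0 t2 f1 f2 f3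
      have e5 : 3 * (5 * D) * C = 15 * D * C := by ring
      rw [e5] at g1 g2
      have e6 : C ≤ 15 * D * C := by nlinarith
      have z0' : ∀ {x y : ℝ} {k : ℕ}, |x - y| ≤ 15 * D * C / 2 ^ k →
          |((⌊(2 : ℝ) ^ k * x⌋ - ⌊(2 : ℝ) ^ k * y⌋ : ℤ) : ℝ)| ≤ 15 * D * C + 1 := by
        intro x y k hxy
        have := floor_diff_le (K := k) (k := k) (by positivity) hxy
        rwa [Nat.sub_self, pow_zero, mul_one] at this
      fin_cases i
      · change |((⌊(2 : ℝ) ^ r * F.x ω i0⌋ - ⌊(2 : ℝ) ^ r * F.x ω' i0⌋ : ℤ) : ℝ)| ≤ _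
        exact z0' (f1.trans (div_le_div_of_nonneg_right e6 (by positivity)))
      · change |((⌊(2 : ℝ) ^ U * fu i0 iu (rfe r U (rfr r U P (e ω) (c ω) (s ω))) (F.x ω)⌋ -
          ⌊(2 : ℝ) ^ U * fu i0 iu (rfe r U (rfr r U P (e ω') (c ω') (s ω'))) (F.x ω')⌋ : ℤ) :
          ℝ)| ≤ _
        rw [haω, haω, ← hz0]
        exact z0' g1
      · change |((⌊(2 : ℝ) ^ P * fn i0 iu iN (rfc r U P (rfr r U P (e ω) (c ω) (s ω)))
          (rfs U P (rfr r U P (e ω) (c ω) (s ω))) (F.x ω)⌋ -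
          ⌊(2 : ℝ) ^ P * fn i0 iu iN (rfc r U P (rfr r U P (e ω') (c ω') (s ω')))
          (rfs U P (rfr r U P (e ω') (c ω') (s ω'))) (F.x ω')⌋ : ℤ) : ℝ)| ≤ _
        rw [haω, haω, ← hz0]
        exact z0' g2)
    refine key.trans (le_of_eq ?_)
    have e1 : ∀ i : Fin 3, Ex q (fun _ => Real.log (2 * (15 * D * C + 1) + 1)) =
        Real.log (30 * D * C + 3) := by
      intro i
      rw [Ex_const hq.sum_one]
      congr 1
      ring
    rw [Finset.sum_congr rfl fun i _ => e1 i, Finset.sum_const, Finset.card_univ,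
      Fintype.card_fin, nsmul_eq_mul]
    norm_num
  have k3 := CH_chain h0 (fun ω => (bxl F i0 iu iN r U P e c s ω).2) a (fun ω => (z ω, F.W ω))
  have k4 : CH q (bxl F i0 iu iN r U P e c s) (fun ω => (z ω, F.W ω)) ≤
      CH q (fun ω => ((bxl F i0 iu iN r U P e c s ω).2, a ω)) (fun ω => (z ω, F.W ω)) := by
    refine CH_mono_left h0 ?_
    intro ω ω' _ _ h'
    obtain ⟨g1, -⟩ := Prod.ext_iff.1 h'
    obtain ⟨g3, g4⟩ := Prod.ext_iff.1 g1
    refine Prod.ext ?_ g3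
    change rfr r U P (e ω) (c ω) (s ω) = rfr r U P (e ω') (c ω') (s ω')
    rw [haω, haω]
    exact g4
  linarith

end box

end Pool.ZT
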