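import Pool.Agent.H4.KS6.ZTL

/-!
# Plank labels are patches
-/

set_option autoImplicit false

namespace Pool.ZT

open Finset Real
open Pool.Agent.H49.Ent Pool.Agent.H32.Dense Pool.STK Pool.KA Pool.KS6

variable {J : ℕ} {F : Fam 3 J} {q : F.Ω → ℝ} {i0 iu iN : Fin 3}

/-- A plank label is a patch. -/
theorem pat_of_inc {w lam P : ℕ} {C : ℝ} {y : F.Ω → Pln}
    (h : ∀ ω, 0 < q ω → Inc i0 iu iN w lam P C (y ω) (F.t ω) (F.x ω) (F.d ω)) :
    Pat F q i0 iu iN y (fun ω => (y ω).e) (fun ω => (y ω).c) (fun ω => (y ω).s) w (w + lam) P 4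
      (2 * C) where
  bd := fun ω hω => ⟨(h ω hω).e_le.trans (by norm_num), (h ω hω).c_le, (h ω hω).s_le⟩
  fr := fun ω ω' _ _ hy _ => by
    refine ⟨?_, ?_, ?_⟩ <;> simp only [hy]
  nr := fun ω ω' hω hω' hy hW => by
    have ht : F.t ω = F.t ω' := by
      have h1 : F.T ω = F.T ω' := (Prod.ext_iff.1 hW).1
      unfold Fam.t
      rw [h1]
    have a := h ω hω
    have b := h ω' hω'
    rw [← hy, ← ht] at b
    have tri : ∀ {x x' c : ℝ} {k : ℕ}, |x - c| ≤ C / 2 ^ k → |x' - c| ≤ C / 2 ^ k →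
        |x - x'| ≤ 2 * C / 2 ^ k := by
      intro x x' c k h1 h2
      have e : x - x' = (x - c) - (x' - c) := by ring
      rw [e]
      refine (abs_sub _ _).trans ((add_le_add h1 h2).trans (le_of_eq ?_))
      ring
    exact ⟨tri a.pe b.pe, tri a.pu b.pu, tri a.pn b.pn⟩

/-- Visible labels are functions of the truncated point. -/
theorem det_of_vis {Q : ℕ} {y : F.Ω → Pln} {A : F.Ω → Prop} (hA : ∀ ω, 0 < q ω → A ω)
    (h : ∃ φ : (Fin 3 → ℤ) × (ℕ × F.ζ) → Pln, ∀ ω, A ω → y ω = φ (ptq F Q ω)) :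
    Det q (fun ω => (F.X Q ω, F.W ω)) y := by
  obtain ⟨φ, hφ⟩ := h
  intro ω ω' hω hω' hh
  have h1 : ptq F Q ω = ptq F Q ω' := hh
  rw [hφ ω (hA ω hω), hφ ω' (hA ω' hω'), h1]

end Pool.ZT
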