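import Pool.Agent.H4.KS6.ZTB
import Pool.Agent.H20.KA.TRC

/-!
# Entropies of the plank zoom: (T1)-(T6)
-/

set_option autoImplicit false

namespace Pool.ZT

open Finset Real
open Pool.Agent.H49.Ent Pool.Agent.H32.Dense Pool.STK Pool.KA Pool.KS6

/-! ### Abstract entropies -/

section abs

variable {Ω T : Type} [Fintype Ω] {q : Ω → ℝ}

/-- A function of `(X, W)`: the chain rule. -/
theorem ch_split (hq : IsLaw q) {S R : Type} (X : Ω → S) (z : Ω → R) (W : Ω → T)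
    (h : Det q (fun ω => (X ω, W ω)) z) :
    CH q X W = CH q z W + CH q X (fun ω => (z ω, W ω)) := by
  have h0 := hq.nonneg
  rw [← CH_chain h0]
  refine CH_congr h0 ?_ ?_ (fun _ _ _ _ h => h) (fun _ _ _ _ h => h)
  · intro ω ω' a b hh
    exact Prod.ext (Prod.ext_iff.1 hh).1 (h ω ω' a b hh)
  · intro ω ω' _ _ hh
    exact (Prod.ext_iff.1 (Prod.ext_iff.1 hh).1).1

/-- **(T3)** A closed label is a function of the box, if the position is full in both. -/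
theorem t3 (hq : IsLaw q) {S R V : Type} (X : Ω → S) (z : Ω → R) (b : Ω → V) (W : Ω → T)
    (h : Det q (fun ω => (X ω, W ω)) z) :
    CH q z (fun ω => (b ω, W ω)) ≤ CH q X (fun ω => (b ω, W ω)) -
      CH q X (fun ω => (z ω, W ω)) + CH q b (fun ω => (z ω, W ω)) := by
  have h0 := hq.nonneg
  have k1 := ch_split hq X z (fun ω => (b ω, W ω)) (fun ω ω' a b hh => by
    obtain ⟨g1, g2⟩ := Prod.ext_iff.1 hh
    obtain ⟨g3, g4⟩ := Prod.ext_iff.1 g2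
    exact h ω ω' a b (Prod.ext g1 g4))
  have k2 := CH_le_add h0 X b (fun ω => (z ω, W ω))
  have k3 : CH q X (fun ω => (b ω, (z ω, W ω))) = CH q X (fun ω => (z ω, (b ω, W ω))) := by
    refine CH_congr h0 ?_ ?_ ?_ ?_
    · exact fun _ _ _ _ h => (Prod.ext_iff.mp h).1
    · exact fun _ _ _ _ h => (Prod.ext_iff.mp h).1
    · intro ω ω' _ _ h
      simp only [Prod.mk.injEq] at h ⊢
      tauto
    · intro ω ω' _ _ h
      simp only [Prod.mk.injEq] at h ⊢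
      tauto
  linarith

end abs

/-! ### The zoomed point -/

section zoom

variable {J : ℕ} {F : Fam 3 J} {q : F.Ω → ℝ} {i0 iu iN j0 ju jN : Fin 3}

/-- `v` is the zoomed point: the coordinates of the position in the frame of the plank, magnified
by `2 ^ w`, `2 ^ U`, `2 ^ P`. Only differences for equal labels matter. -/
structure Zpt (F : Fam 3 J) (q : F.Ω → ℝ) (i0 iu iN j0 ju jN : Fin 3) {S : Type} (z : F.Ω → S)
    (e c s : F.Ω → ℝ) (w U P : ℕ) (B : ℝ) (v : F.Ω → Fin 3 → ℝ) : Prop where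
  lo : ∀ ω ω', 0 < q ω → 0 < q ω' → z ω = z ω' → F.W ω = F.W ω' →
    2 ^ w * |F.x ω i0 - F.x ω' i0| ≤ B * |v ω j0 - v ω' j0|
  up : ∀ ω ω', 0 < q ω → 0 < q ω' → z ω = z ω' → F.W ω = F.W ω' →
    |v ω j0 - v ω' j0| ≤ B * (2 ^ w * |F.x ω i0 - F.x ω' i0|) ∧
    |v ω ju - v ω' ju| ≤
      B * (2 ^ U * |fu i0 iu (e ω) (F.x ω) - fu i0 iu (e ω) (F.x ω')|) ∧
    |v ω jN - v ω' jN| ≤
      B * (2 ^ P * |fn i0 iu iN (c ω) (s ω) (F.x ω) - fn i0 iu iN (c ω) (s ω) (F.x ω')|)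

/-- **(T5)** The zoomed point, given both labels. -/
theorem t5 (hq : IsLaw q) (hj : ∀ j : Fin 3, j = j0 ∨ j = ju ∨ j = jN)
    {S S' : Type} {z₀ : F.Ω → S} {z₁ : F.Ω → S'} {e₀ c₀ s₀ e₁ c₁ s₁ : F.Ω → ℝ}
    {w₀ U₀ Q₀ P₀ w₁ U₁ Q₁ P₁ X Δ : ℕ} {B C D : ℝ} {v : F.Ω → Fin 3 → ℝ} (hB : 1 ≤ B)
    (hC : 1 ≤ C) (hD : 1 ≤ D) (hw : w₁ = w₀ + X) (hU : U₁ = U₀ + (X + Δ)) (hP : P₁ = P₀ + X)
    (hQP : Q₀ ≤ P₀) (hQP₁ : Q₁ ≤ P₁) (hQD : (2 : ℝ) ^ (P₁ - Q₁) ≤ D)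
    (h1 : Pat F q i0 iu iN z₁ e₁ c₁ s₁ w₁ U₁ Q₁ B C)
    (hv : Zpt F q i0 iu iN j0 ju jN z₀ e₀ c₀ s₀ w₀ U₀ Q₀ B v)
    (hn : ∀ ω, 0 < q ω → |e₀ ω - e₁ ω| ≤ D * 2 ^ w₀ / 2 ^ U₀ ∧
      |s₀ ω - s₁ ω| ≤ D * 2 ^ U₁ / 2 ^ P₁ ∧
      |(c₀ ω - c₁ ω) + (s₀ ω - s₁ ω) * e₁ ω| ≤ D * 2 ^ w₁ / 2 ^ P₁) :
    CH q (fun ω => fl (X + Δ) (v ω)) (fun ω => (z₁ ω, (z₀ ω, F.W ω))) ≤
      2 * Δ * Real.log 2 + (Real.log (2 * (B * C) + 3) +
        Real.log (2 * (B * (C + D * B)) + 3) + Real.log (2 * (3 * B * (D * C)) + 3)) := by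
  have hB0 : 0 < B := by linarith only [hB]
  have hC0 : 0 < C := by linarith only [hC]
  have hD0 : 0 < D := by linarith only [hD]
  have k0 := ch_three hq hj (fun ω => fl (X + Δ) (v ω)) (fun ω => (z₁ ω, (z₀ ω, F.W ω)))
  have k1 := ch_fl hq (fun ω => v ω j0) (fun ω => (z₁ ω, (z₀ ω, F.W ω))) (K := X + Δ) (k := X)
    (C := B * C) (by positivity) (by
      intro ω ω' hω hω' h
      obtain ⟨z1, z2⟩ := Prod.ext_iff.1 h
      obtain ⟨z3, z4⟩ := Prod.ext_iff.1 z2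
      have n1 := (h1.nr ω ω' hω hω' z1 z4).1
      have u1 := (hv.up ω ω' hω hω' z3 z4).1
      refine u1.trans ?_
      calc B * (2 ^ w₀ * |F.x ω i0 - F.x ω' i0|) ≤ B * (2 ^ w₀ * (C / 2 ^ w₁)) := by gcongr
        _ = B * C / 2 ^ X := by
            rw [hw, pow_add]
            field_simp)
  have k2 := ch_fl hq (fun ω => v ω ju)
    (fun ω => (fl (X + Δ) (v ω) j0, (z₁ ω, (z₀ ω, F.W ω)))) (K := X + Δ) (k := X + Δ)
    (C := B * (C + D * B)) (by positivity) (by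
      intro ω ω' hω hω' h
      obtain ⟨z0, z12⟩ := Prod.ext_iff.1 h
      obtain ⟨z1, z2⟩ := Prod.ext_iff.1 z12
      obtain ⟨z3, z4⟩ := Prod.ext_iff.1 z2
      have n1 := h1.nr ω ω' hω hω' z1 z4
      have g0 : |v ω j0 - v ω' j0| ≤ 1 / 2 ^ (X + Δ) := floor_close z0
      have u0 := hv.lo ω ω' hω hω' z3 z4
      have u1 := (hv.up ω ω' hω hω' z3 z4).2.1
      have g1 : |F.x ω i0 - F.x ω' i0| ≤ B / 2 ^ (w₀ + (X + Δ)) := by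
        have g2 : 2 ^ w₀ * |F.x ω i0 - F.x ω' i0| ≤ B * (1 / 2 ^ (X + Δ)) :=
          u0.trans (mul_le_mul_of_nonneg_left g0 hB0.le)
        rw [le_div_iff₀ (by positivity), pow_add]
        calc |F.x ω i0 - F.x ω' i0| * (2 ^ w₀ * 2 ^ (X + Δ)) =
            (2 ^ w₀ * |F.x ω i0 - F.x ω' i0|) * 2 ^ (X + Δ) := by ring
          _ ≤ (B * (1 / 2 ^ (X + Δ))) * 2 ^ (X + Δ) :=
              mul_le_mul_of_nonneg_right g2 (by positivity)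
          _ = B := by field_simp
      have e1 : fu i0 iu (e₀ ω) (F.x ω) - fu i0 iu (e₀ ω) (F.x ω') =
          (fu i0 iu (e₁ ω) (F.x ω) - fu i0 iu (e₁ ω) (F.x ω')) -
            (e₀ ω - e₁ ω) * (F.x ω i0 - F.x ω' i0) := by
        rw [fu_sub, fu_sub]
        ring
      have g3 : |fu i0 iu (e₀ ω) (F.x ω) - fu i0 iu (e₀ ω) (F.x ω')| ≤
          (C + D * B) / 2 ^ U₁ := by
        rw [e1]
        refine (abs_sub _ _).trans ?_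
        rw [abs_mul]
        have g4 : |e₀ ω - e₁ ω| * |F.x ω i0 - F.x ω' i0| ≤
            D * 2 ^ w₀ / 2 ^ U₀ * (B / 2 ^ (w₀ + (X + Δ))) :=
          mul_le_mul (hn ω hω).1 g1 (abs_nonneg _) (by positivity)
        have g5 : D * 2 ^ w₀ / 2 ^ U₀ * (B / 2 ^ (w₀ + (X + Δ))) = D * B / (2 : ℝ) ^ U₁ := by
          rw [hU, pow_add, pow_add]
          field_simp
          ring
        rw [g5] at g4
        rw [add_div]
        exact add_le_add n1.2.1 g4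
      refine u1.trans ?_
      calc B * (2 ^ U₀ * |fu i0 iu (e₀ ω) (F.x ω) - fu i0 iu (e₀ ω) (F.x ω')|) ≤
          B * (2 ^ U₀ * ((C + D * B) / 2 ^ U₁)) := by gcongr
        _ = B * (C + D * B) / 2 ^ (X + Δ) := by
            rw [hU, pow_add]
            field_simp)
  have k3 := ch_fl hq (fun ω => v ω jN)
    (fun ω => (fl (X + Δ) (v ω) ju, (fl (X + Δ) (v ω) j0, (z₁ ω, (z₀ ω, F.W ω)))))
    (K := X + Δ) (k := X) (C := 3 * B * (D * C)) (by positivity) (by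
      intro ω ω' hω hω' h
      obtain ⟨-, z0⟩ := Prod.ext_iff.1 h
      obtain ⟨-, z12⟩ := Prod.ext_iff.1 z0
      obtain ⟨z1, z2⟩ := Prod.ext_iff.1 z12
      obtain ⟨z3, z4⟩ := Prod.ext_iff.1 z2
      have n1 := h1.nr ω ω' hω hω' z1 z4
      have u1 := (hv.up ω ω' hω hω' z3 z4).2.2
      obtain ⟨-, m2, m3⟩ := hn ω hω
      have e1 : fn i0 iu iN (c₀ ω) (s₀ ω) (F.x ω) - fn i0 iu iN (c₀ ω) (s₀ ω) (F.x ω') =
          (fn i0 iu iN (c₁ ω) (s₁ ω) (F.x ω) - fn i0 iu iN (c₁ ω) (s₁ ω) (F.x ω')) +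
            (s₀ ω - s₁ ω) * (fu i0 iu (e₁ ω) (F.x ω) - fu i0 iu (e₁ ω) (F.x ω')) +
            ((c₀ ω - c₁ ω) + (s₀ ω - s₁ ω) * e₁ ω) * (F.x ω i0 - F.x ω' i0) := by
        rw [fn_sub, fn_sub, fu_sub]
        ring
      have g3 : |fn i0 iu iN (c₀ ω) (s₀ ω) (F.x ω) - fn i0 iu iN (c₀ ω) (s₀ ω) (F.x ω')| ≤
          3 * (D * C) / 2 ^ P₁ := by
        rw [e1]
        refine (abs_add_le _ _).trans ((add_le_add (abs_add_le _ _) le_rfl).trans ?_)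
        rw [abs_mul, abs_mul]
        have g4 : |s₀ ω - s₁ ω| * |fu i0 iu (e₁ ω) (F.x ω) - fu i0 iu (e₁ ω) (F.x ω')| ≤
            D * 2 ^ U₁ / 2 ^ P₁ * (C / 2 ^ U₁) :=
          mul_le_mul m2 n1.2.1 (abs_nonneg _) (by positivity)
        have g5 : |(c₀ ω - c₁ ω) + (s₀ ω - s₁ ω) * e₁ ω| * |F.x ω i0 - F.x ω' i0| ≤
            D * 2 ^ w₁ / 2 ^ P₁ * (C / 2 ^ w₁) :=
          mul_le_mul m3 n1.1 (abs_nonneg _) (by positivity)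
        rw [div_mul_cancel_pow] at g4 g5
        have g6 : C / (2 : ℝ) ^ Q₁ ≤ D * C / 2 ^ P₁ := by
          rw [div_le_div_iff₀ (by positivity) (by positivity)]
          have e2 : (2 : ℝ) ^ P₁ = 2 ^ (P₁ - Q₁) * 2 ^ Q₁ := by
            rw [← pow_add, Nat.sub_add_cancel hQP₁]
          rw [e2]
          calc C * (2 ^ (P₁ - Q₁) * 2 ^ Q₁) = 2 ^ (P₁ - Q₁) * (C * 2 ^ Q₁) := by ring
            _ ≤ D * (C * 2 ^ Q₁) := mul_le_mul_of_nonneg_right hQD (by positivity)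
            _ = D * C * 2 ^ Q₁ := by ring
        have g7 := n1.2.2.trans g6
        have e3 : 3 * (D * C) / (2 : ℝ) ^ P₁ = D * C / 2 ^ P₁ + D * C / 2 ^ P₁ +
            D * C / 2 ^ P₁ := by ring
        rw [e3]
        exact add_le_add (add_le_add g7 g4) g5
      refine u1.trans ?_
      have g8 : (2 : ℝ) ^ Q₀ ≤ 2 ^ P₀ := pow_le_pow_right₀ (by norm_num) hQP
      calc B * (2 ^ Q₀ * |fn i0 iu iN (c₀ ω) (s₀ ω) (F.x ω) -
            fn i0 iu iN (c₀ ω) (s₀ ω) (F.x ω')|) ≤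
          B * (2 ^ P₀ * (3 * (D * C) / 2 ^ P₁)) := by gcongr
        _ = 3 * B * (D * C) / 2 ^ X := by
            rw [hP, pow_add]
            field_simp)
  have e1 : (fun ω => fl (X + Δ) (v ω) j0) = fun ω => ⌊(2 : ℝ) ^ (X + Δ) * v ω j0⌋ := rfl
  have e2 : (fun ω => fl (X + Δ) (v ω) ju) = fun ω => ⌊(2 : ℝ) ^ (X + Δ) * v ω ju⌋ := rfl
  have e3 : (fun ω => fl (X + Δ) (v ω) jN) = fun ω => ⌊(2 : ℝ) ^ (X + Δ) * v ω jN⌋ := rfl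
  rw [e1, e2, e3] at k0
  rw [Nat.add_sub_cancel_left] at k1 k3
  rw [Nat.sub_self, Nat.cast_zero, zero_mul, zero_add] at k2
  linarith only [k0, k1, k2, k3]

/-- **(T1)-(T5): the deficit of the zoom.** -/
theorem ztl (hq : IsLaw q) (hi : ∀ j : Fin 3, j = i0 ∨ j = iu ∨ j = iN)
    (hj : ∀ j : Fin 3, j = j0 ∨ j = ju ∨ j = jN)
    {S S' S'' : Type} {z₀ : F.Ω → S} {z₁ : F.Ω → S'} {z₂ : F.Ω → S''}
    {e₀ c₀ s₀ e₁ c₁ s₁ e₂ c₂ s₂ : F.Ω → ℝ}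
    {w₀ U₀ Q₀ P₀ w₁ U₁ Q₁ P₁ X Δ : ℕ} {B C D r ε : ℝ} {v : F.Ω → Fin 3 → ℝ} (hB : 1 ≤ B)
    (hC : 1 ≤ C) (hD : 1 ≤ D) (hw : w₁ = w₀ + X) (hU : U₁ = U₀ + (X + Δ)) (hP : P₁ = P₀ + X)
    (hw₁ : w₁ ≤ U₁) (hU₁ : U₁ ≤ Q₀) (hQP : Q₀ ≤ P₀) (hQQ : Q₀ ≤ Q₁) (hQP₁ : Q₁ ≤ P₁)
    (hQD₀ : (2 : ℝ) ^ (P₀ - Q₀) ≤ D) (hQD : (2 : ℝ) ^ (P₁ - Q₁) ≤ D)
    -- the labels and the zoomed point
    (h0 : Pat F q i0 iu iN z₀ e₀ c₀ s₀ w₀ U₀ Q₀ B C)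
    (h1 : Pat F q i0 iu iN z₁ e₁ c₁ s₁ w₁ U₁ Q₁ B C)
    (h2 : Pat F q i0 iu iN z₂ e₂ c₂ s₂ w₁ U₁ Q₀ B C)
    (hv : Zpt F q i0 iu iN j0 ju jN z₀ e₀ c₀ s₀ w₀ U₀ Q₀ B v)
    -- visibility
    (d0 : Det q (fun ω => (F.X P₀ ω, F.W ω)) z₀) (d2 : Det q (fun ω => (F.X P₀ ω, F.W ω)) z₂)
    (d1 : Det q (fun ω => (F.X P₁ ω, F.W ω)) z₁)
    -- near frames
    (hn : ∀ ω, 0 < q ω → |e₀ ω - e₁ ω| ≤ D * 2 ^ w₀ / 2 ^ U₀ ∧
      |s₀ ω - s₁ ω| ≤ D * 2 ^ U₁ / 2 ^ P₁ ∧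
      |(c₀ ω - c₁ ω) + (s₀ ω - s₁ ω) * e₁ ω| ≤ D * 2 ^ w₁ / 2 ^ P₁)
    (hn2 : ∀ ω, 0 < q ω → Frn w₁ U₁ Q₀ D (e₂ ω) (c₂ ω) (s₂ ω) (e₁ ω) (c₁ ω) (s₁ ω))
    -- full rows
    (fv1 : (((P₁ : ℝ) - w₁) + ((P₁ : ℝ) - U₁)) * Real.log 2 - ε ≤
      CH q (F.X P₁) (fun ω => (z₁ ω, F.W ω)))
    (fv2 : (((P₀ : ℝ) - w₁) + ((P₀ : ℝ) - U₁)) * Real.log 2 - ε ≤
      CH q (F.X P₀) (fun ω => ((z₀ ω, z₂ ω), F.W ω)))
    -- the rate
    (hr : CH q (F.X P₁) F.W - CH q (F.X P₀) F.W ≤ (3 * Real.log 2 - r) * X) :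
    r * X - 2 * ε - 24 * Real.log (100 * (B ^ 2 * C ^ 2 * D ^ 2)) ≤
      3 * ((X : ℝ) + Δ) * Real.log 2 -
        CH q (fun ω => fl (X + Δ) (v ω)) (fun ω => (z₀ ω, F.W ω)) := by
  have hq0 := hq.nonneg
  have hB0 : 0 < B := by linarith only [hB]
  have hC0 : 0 < C := by linarith only [hC]
  have hD0 : 0 < D := by linarith only [hD]
  obtain ⟨κ, hκ⟩ : ∃ κ, κ = Real.log (100 * (B ^ 2 * C ^ 2 * D ^ 2)) := ⟨_, rfl⟩
  rw [← hκ]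
  -- the monomials
  have hBB : B ≤ B ^ 2 := by nlinarith only [hB]
  have hCC : C ≤ C ^ 2 := by nlinarith only [hC]
  have hDD : D ≤ D ^ 2 := by nlinarith only [hD]
  have hB1 : 1 ≤ B ^ 2 := by linarith only [hB, hBB]
  have hC1 : 1 ≤ C ^ 2 := by linarith only [hC, hCC]
  have hD1 : 1 ≤ D ^ 2 := by linarith only [hD, hDD]
  have mon : ∀ {x y w : ℝ}, 0 ≤ x → 0 ≤ y → 0 ≤ w → x ≤ B ^ 2 → y ≤ C ^ 2 → w ≤ D ^ 2 →
      x * y * w ≤ B ^ 2 * C ^ 2 * D ^ 2 := by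
    intro x y w hx hy hw' h1 h2 h3
    exact mul_le_mul (mul_le_mul h1 h2 hy (by positivity)) h3 hw' (by positivity)
  have m1 : 1 ≤ B ^ 2 * C ^ 2 * D ^ 2 := by
    simpa using mon zero_le_one zero_le_one zero_le_one hB1 hC1 hD1
  have mB : B ≤ B ^ 2 * C ^ 2 * D ^ 2 := by
    simpa using mon hB0.le zero_le_one zero_le_one hBB hC1 hD1
  have mC : C ≤ B ^ 2 * C ^ 2 * D ^ 2 := by
    simpa using mon zero_le_one hC0.le zero_le_one hB1 hCC hD1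
  have mD : D ≤ B ^ 2 * C ^ 2 * D ^ 2 := by
    simpa using mon zero_le_one zero_le_one hD0.le hB1 hC1 hDD
  have mD2 : D ^ 2 ≤ B ^ 2 * C ^ 2 * D ^ 2 := by
    simpa using mon zero_le_one zero_le_one (sq_nonneg D) hB1 hC1 le_rfl
  have mBC : B * C ≤ B ^ 2 * C ^ 2 * D ^ 2 := by
    simpa using mon hB0.le hC0.le zero_le_one hBB hCC hD1
  have mDC : D * C ≤ B ^ 2 * C ^ 2 * D ^ 2 := by
    have := mon zero_le_one hC0.le hD0.le hB1 hCC hDD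
    linarith only [this]
  have mBDC : B * (D * C) ≤ B ^ 2 * C ^ 2 * D ^ 2 := by
    have := mon hB0.le hC0.le hD0.le hBB hCC hDD
    linarith only [this]
  have mBBD : B * (D * B) ≤ B ^ 2 * C ^ 2 * D ^ 2 := by
    have := mon (sq_nonneg B) zero_le_one hD0.le le_rfl hC1 hDD
    linarith only [this]
  have lg : ∀ {x : ℝ}, 0 < x → x ≤ 100 * (B ^ 2 * C ^ 2 * D ^ 2) → Real.log x ≤ κ := by
    intro x hx h
    rw [hκ]
    exact Real.log_le_log hx h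
  have lD₀ : ((P₀ : ℝ) - Q₀) * Real.log 2 ≤ κ := by
    have h3 : Real.log (2 ^ (P₀ - Q₀)) ≤ κ := lg (by positivity) (by linarith only [hQD₀, m1, mD])
    rw [Real.log_pow, Nat.cast_sub hQP] at h3
    exact h3
  -- (T1)
  have t1a := CH_le_add hq0 (F.X P₀) z₀ F.W
  have t1b := size hq hi (K := P₀) hB0.le hC0.le h0 (by omega) (by omega) hQP
  have l1 : Real.log (2 * (C + 2 * B) + 3) ≤ κ := lg (by positivity) (by linarith only [m1, mB, mC])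
  -- (T2)
  have t2 := ch_split hq (F.X P₁) z₁ F.W d1
  -- the box
  obtain ⟨b, hb⟩ : ∃ b, b = bxl F i0 iu iN w₁ U₁ Q₀ e₁ c₁ s₁ := ⟨_, rfl⟩
  have h1' : Pat F q i0 iu iN z₁ e₁ c₁ s₁ w₁ U₁ Q₀ B C :=
    ⟨h1.bd, h1.fr, fun ω ω' a b' c d => ⟨(h1.nr ω ω' a b' c d).1, (h1.nr ω ω' a b' c d).2.1,
      (h1.nr ω ω' a b' c d).2.2.trans (div_le_div_of_nonneg_left hC0.le (by positivity)
        (pow_le_pow_right₀ (by norm_num) hQQ))⟩⟩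
  have b1 := ch_bxl (e := e₁) (c := c₁) (s := s₁) hq hw₁ hU₁ hC le_rfl h1'
    (fun ω _ => Frn.refl zero_le_one)
  have b2 := ch_bxl (e := e₁) (c := c₁) (s := s₁) hq hw₁ hU₁ hC hD h2 hn2
  have b3 := size hq hi (K := P₀) (by positivity) zero_le_one
    (pat_bxl (F := F) (q := q) (i0 := i0) (iu := iu) (iN := iN) hw₁ hU₁ hB h1.bd) (by omega)
    (by omega) hQP
  rw [← hb] at b1 b2 b3
  have l2 : Real.log (2 * (1 + 2 * (12 * B)) + 3) ≤ κ := lg (by positivity) (by linarith only [m1, mB])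
  have l3 : Real.log (12 * D ^ 2 + 3) ≤ κ := lg (by positivity) (by linarith only [m1, mD2])
  have l4 : Real.log (30 * D * C + 3) ≤ κ := lg (by positivity) (by linarith only [m1, mDC])
  have l5 : Real.log (12 * (1 : ℝ) ^ 2 + 3) ≤ κ := lg (by positivity) (by linarith only [m1])
  have l6 : Real.log (30 * 1 * C + 3) ≤ κ := lg (by positivity) (by linarith only [m1, mC])
  -- (T3)
  have t3a := t3 hq (F.X P₀) (fun ω => (z₀ ω, z₂ ω)) b F.W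
    (fun ω ω' x y h => Prod.ext (d0 ω ω' x y h) (d2 ω ω' x y h))
  have t3b : CH q b (fun ω => ((z₀ ω, z₂ ω), F.W ω)) ≤ CH q b (fun ω => (z₂ ω, F.W ω)) :=
    CH_mono_cond hq0 fun ω ω' _ _ h => by
      simp only [Prod.mk.injEq] at h ⊢
      exact ⟨h.1.2, h.2⟩
  have t3c : CH q z₀ (fun ω => (b ω, F.W ω)) ≤
      CH q (fun ω => (z₀ ω, z₂ ω)) (fun ω => (b ω, F.W ω)) :=
    CH_mono_left hq0 fun ω ω' _ _ h => by
      simp only [Prod.mk.injEq] at h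
      exact h.1.1
  have t3d := CH_le_add hq0 z₀ b (fun ω => (z₁ ω, F.W ω))
  have t3e : CH q z₀ (fun ω => (b ω, (z₁ ω, F.W ω))) ≤ CH q z₀ (fun ω => (b ω, F.W ω)) :=
    CH_mono_cond hq0 fun ω ω' _ _ h => by
      simp only [Prod.mk.injEq] at h ⊢
      exact ⟨h.1, h.2.2⟩
  -- (T4)
  have t4a := CH_chain hq0 z₁ z₀ F.W
  have t4b := CH_chain hq0 z₀ z₁ F.W
  have t4c : CH q (fun ω => (z₁ ω, z₀ ω)) F.W = CH q (fun ω => (z₀ ω, z₁ ω)) F.W := by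
    refine CH_congr hq0 ?_ ?_ (fun _ _ _ _ h => h) (fun _ _ _ _ h => h)
    · intro ω ω' _ _ h
      simp only [Prod.mk.injEq] at h ⊢
      tauto
    · intro ω ω' _ _ h
      simp only [Prod.mk.injEq] at h ⊢
      tauto
  -- (T5)
  have t5a := t5 hq hj hB hC hD hw hU hP hQP hQP₁ hQD h1 hv hn
  have t5b := CH_le_add hq0 (fun ω => fl (X + Δ) (v ω)) z₁ (fun ω => (z₀ ω, F.W ω))
  have l7 : Real.log (2 * (B * C) + 3) ≤ κ := lg (by positivity) (by linarith only [m1, mBC])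
  have l8 : Real.log (2 * (B * (C + D * B)) + 3) ≤ κ := lg (by positivity) (by
    rw [mul_add]
    linarith only [m1, mBC, mBBD])
  have l9 : Real.log (2 * (3 * B * (D * C)) + 3) ≤ κ := lg (by positivity) (by
    have : 3 * B * (D * C) = 3 * (B * (D * C)) := by ring
    rw [this]
    linarith only [m1, mBDC])
  -- the numbers
  have n1 : ((P₁ : ℝ) - w₁) + ((P₁ : ℝ) - U₁) =
      ((P₀ : ℝ) - w₀) + ((P₀ : ℝ) - U₀) - Δ := by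
    rw [hw, hU, hP]
    push_cast
    ring
  rw [n1] at fv1
  have n2 : (((P₀ : ℝ) - w₀) + ((P₀ : ℝ) - U₀) + ((P₀ : ℝ) - Q₀)) * Real.log 2 =
      (((P₀ : ℝ) - w₀) + ((P₀ : ℝ) - U₀)) * Real.log 2 + ((P₀ : ℝ) - Q₀) * Real.log 2 := by ring
  have n3 : (((P₀ : ℝ) - w₁) + ((P₀ : ℝ) - U₁) + ((P₀ : ℝ) - Q₀)) * Real.log 2 =
      (((P₀ : ℝ) - w₁) + ((P₀ : ℝ) - U₁)) * Real.log 2 + ((P₀ : ℝ) - Q₀) * Real.log 2 := by ring
  rw [n2] at t1b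
  rw [n3] at b3
  have n4 : (((P₀ : ℝ) - w₀) + ((P₀ : ℝ) - U₀) - Δ) * Real.log 2 =
      (((P₀ : ℝ) - w₀) + ((P₀ : ℝ) - U₀)) * Real.log 2 - Δ * Real.log 2 := by ring
  rw [n4] at fv1
  have n5 : 3 * ((X : ℝ) + Δ) * Real.log 2 = 3 * X * Real.log 2 + Δ * Real.log 2 +
      2 * Δ * Real.log 2 := by ring
  rw [n5]
  have n6 : (3 * Real.log 2 - r) * X = 3 * X * Real.log 2 - r * X := by ring
  rw [n6] at hr
  have hκ0 : 0 ≤ κ := by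
    have := lg (x := 1) one_pos (by linarith only [m1])
    rwa [Real.log_one] at this
  linarith only [fv1, fv2, hr, lD₀, t1a, t1b, l1, t2, b1, b2, b3, l2, l3, l4, l5, l6, t3a, t3b, t3c, t3d, t3e, t4a, t4b, t4c, t5a, t5b, l7, l8, l9, hκ0]

end zoom

/-! ### (T6) -/

section pliss

variable {Ω T : Type} [Fintype Ω] {q : Ω → ℝ}

/-- The deficit of the rows up to `Y`. -/
noncomputable def dz {m : ℕ} (q : Ω → ℝ) (v : Ω → Fin m → ℝ) (W : Ω → T) (Y : ℕ) : ℝ :=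
  m * Y * Real.log 2 - CH q (fun ω => fl Y (v ω)) W

theorem dz_le {m : ℕ} (hq : IsLaw q) (v : Ω → Fin m → ℝ) (W : Ω → T) (Y : ℕ) :
    dz q v W Y ≤ m * Y * Real.log 2 := by
  have := CH_nonneg hq.nonneg (fun ω => fl Y (v ω)) W
  unfold dz
  linarith only [this]

theorem fl_fl {m : ℕ} {p Y : ℕ} (hp : p ≤ Y) {x y : Fin m → ℝ} (h : fl Y x = fl Y y) :
    fl p x = fl p y := by
  obtain ⟨n, rfl⟩ := Nat.exists_eq_add_of_le hp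
  have key : ∀ r : ℝ, ⌊(2 : ℝ) ^ p * r⌋ = ⌊(2 : ℝ) ^ (p + n) * r⌋ / (2 ^ n : ℤ) := by
    intro r
    have e : (2 : ℝ) ^ p * r = (2 : ℝ) ^ (p + n) * r / ((2 ^ n : ℕ) : ℝ) := by
      push_cast
      rw [eq_div_iff (by positivity), pow_add]
      ring
    rw [e, Int.floor_div_natCast]
    push_cast
    rfl
  funext i
  change ⌊(2 : ℝ) ^ p * x i⌋ = ⌊(2 : ℝ) ^ p * y i⌋
  have h1 : ⌊(2 : ℝ) ^ (p + n) * x i⌋ = ⌊(2 : ℝ) ^ (p + n) * y i⌋ := congrFun h i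
  rw [key, key, h1]

/-- The entropy of a block of rows. -/
theorem dz_row {m : ℕ} (hq : IsLaw q) (v : Ω → Fin m → ℝ) (W : Ω → T) {p Y : ℕ} (hp : p ≤ Y) :
    CH q (fun ω => fl Y (v ω)) (fun ω => (fl p (v ω), W ω)) =
      m * ((Y : ℝ) - p) * Real.log 2 - (dz q v W Y - dz q v W p) := by
  have k1 := ch_split hq (fun ω => fl Y (v ω)) (fun ω => fl p (v ω)) W
    (fun ω ω' _ _ h => fl_fl hp (Prod.ext_iff.1 h).1)
  unfold dz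
  rw [k1]
  ring

/-- The deficit is nondecreasing. -/
theorem dz_mono {m : ℕ} (hq : IsLaw q) (v : Ω → Fin m → ℝ) (W : Ω → T) {p Y : ℕ}
    (hp : p ≤ Y) : dz q v W p ≤ dz q v W Y := by
  have k1 := dz_row hq v W hp
  obtain ⟨n, rfl⟩ := Nat.exists_eq_add_of_le hp
  have k2 := TRC.CH_floor hq v W p n
  rw [k1] at k2
  push_cast at k2
  have e : (m : ℝ) * ((p : ℝ) + n - p) * Real.log 2 = m * (n * Real.log 2) := by ring
  rw [e] at k2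
  linarith only [k2]

/-- The Pliss time of the zoom, on any grid `S`. -/
theorem pliss (S : Finset ℕ) (f : ℕ → ℝ) {Y' : ℕ} {a A : ℝ} (hY : Y' ∈ S) (ha : 0 ≤ a)
    (hup : ∀ Y ∈ S, f Y ≤ A * Y) (h : 2 * a * Y' ≤ f Y') :
    ∃ Y ∈ S, a * Y' ≤ A * Y ∧ ∀ p ∈ S, a * ((Y : ℝ) - p) ≤ f Y - f p := by
  obtain ⟨Y, hYS, hmax⟩ := Finset.exists_max_image S (fun Y => f Y - a * Y) ⟨Y', hY⟩
  refine ⟨Y, hYS, ?_, fun p hp => ?_⟩
  · have h1 := hmax Y' hY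
    have h2 := hup Y hYS
    have h3 : 0 ≤ a * (Y : ℝ) := by positivity
    linarith only [h, h1, h2, h3]
  · have h1 := hmax p hp
    linarith

/-- **(T6)** -/
theorem t6 {m : ℕ} (hq : IsLaw q) (v : Ω → Fin m → ℝ) (W : Ω → T) (S : Finset ℕ) {Y' : ℕ}
    {a : ℝ} (hY : Y' ∈ S) (ha : 0 ≤ a) (h : 2 * a * Y' ≤ dz q v W Y') :
    ∃ Y ∈ S, a * Y' ≤ m * Real.log 2 * Y ∧ ∀ p ∈ S, p ≤ Y →
      CH q (fun ω => fl Y (v ω)) (fun ω => (fl p (v ω), W ω)) ≤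
        (m * Real.log 2 - a) * ((Y : ℝ) - p) := by
  obtain ⟨Y, h1, h2, h3⟩ := pliss S (dz q v W) (A := m * Real.log 2) hY ha
    (fun Y _ => (dz_le hq v W Y).trans (le_of_eq (by ring))) h
  refine ⟨Y, h1, h2, fun p hp hpY => ?_⟩
  rw [dz_row hq v W hpY]
  have h4 := h3 p hp
  linarith only [h4]

end pliss

end Pool.ZT
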